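import Pool.Agent.N729.HP.Stm

/-!
Project HN: parts BA, BB, BE (helper262): invariance under permutations of the short indices, block
matrices, reindexing.
-/

set_option autoImplicit false

namespace Pool.Agent.N729.HP.BA

open Finset
open Pool.Agent.N186.HK (pm pm_nil pm_cons)
open Pool.Agent.N729.HP

section

variable {D : Type*} [CommRing D]

lemma pd_nil (x y : ℕ → D) (J : Finset ℕ) : pd x y J [] = 0 := by
  unfold pd; rfl

lemma pd_cons (x y : ℕ → D) (J : Finset ℕ) (c : ℕ) (L : List ℕ) :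
    pd x y J (c :: L) =
      ∑ j ∈ J, (y (j + c) * pm x (J.erase j) L + x (j + c) * pd x y (J.erase j) L) := by
  rw [pd]

/-- exchange of two indices -/
lemma swap_sum (J : Finset ℕ) (F : ℕ → ℕ → D) :
    ∑ i ∈ J, ∑ j ∈ J.erase i, F i j = ∑ i ∈ J, ∑ j ∈ J.erase i, F j i := by
  refine Finset.sum_comm' fun i j => ?_
  simp only [Finset.mem_erase]
  tauto

lemma pm_perm (x : ℕ → D) {L L' : List ℕ} (h : L.Perm L') : ∀ J, pm x J L = pm x J L' := by
  induction h with
  | nil => intro J; rfl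
  | cons c _ ih =>
    intro J
    rw [pm_cons, pm_cons]
    exact Finset.sum_congr rfl fun j _ => by rw [ih]
  | swap c d L =>
    intro J
    simp only [pm_cons, Finset.mul_sum]
    rw [swap_sum]
    refine Finset.sum_congr rfl fun i _ => Finset.sum_congr rfl fun j _ => ?_
    rw [Finset.erase_right_comm]
    ring
  | trans _ _ ih1 ih2 => intro J; rw [ih1, ih2]

lemma pd_perm (x y : ℕ → D) {L L' : List ℕ} (h : L.Perm L') :
    ∀ J, pd x y J L = pd x y J L' := by
  induction h with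
  | nil => intro J; rfl
  | cons c h ih =>
    intro J
    rw [pd_cons, pd_cons]
    exact Finset.sum_congr rfl fun j _ => by rw [ih, pm_perm x h]
  | swap c d L =>
    intro J
    simp only [pm_cons, pd_cons, Finset.mul_sum, ← Finset.sum_add_distrib]
    rw [swap_sum]
    refine Finset.sum_congr rfl fun i _ => Finset.sum_congr rfl fun j _ => ?_
    rw [Finset.erase_right_comm]
    ring
  | trans _ _ ih1 ih2 => intro J; rw [ih1, ih2]

lemma pm_zero (x : ℕ → D) (L : List ℕ) : ∀ J : Finset ℕ, J.card < L.length → pm x J L = 0 := by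
  induction L with
  | nil => intro J h; simp at h
  | cons c L ih =>
    intro J h
    rw [pm_cons]
    refine Finset.sum_eq_zero fun j hj => ?_
    rw [ih, mul_zero]
    rw [Finset.card_erase_of_mem hj]
    have := Finset.card_pos.mpr ⟨j, hj⟩
    rw [List.length_cons] at h
    omega

lemma union_erase_left {J₁ J₂ : Finset ℕ} (h : Disjoint J₁ J₂) {i : ℕ} (hi : i ∈ J₁) :
    (J₁ ∪ J₂).erase i = J₁.erase i ∪ J₂ := by
  rw [Finset.erase_union_distrib, Finset.erase_eq_of_notMem (Finset.disjoint_left.mp h hi)]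

lemma union_erase_right {J₁ J₂ : Finset ℕ} (h : Disjoint J₁ J₂) {i : ℕ} (hi : i ∈ J₂) :
    (J₁ ∪ J₂).erase i = J₁ ∪ J₂.erase i := by
  rw [Finset.erase_union_distrib, Finset.erase_eq_of_notMem (Finset.disjoint_right.mp h hi)]

lemma pm_drop (x : ℕ → D) (J₁ : Finset ℕ) (L : List ℕ) : ∀ J₂ : Finset ℕ, Disjoint J₁ J₂ →
    (∀ c ∈ L, ∀ j ∈ J₁, x (j + c) = 0) → pm x (J₁ ∪ J₂) L = pm x J₂ L := by
  induction L with
  | nil => intro J₂ _ _; rw [pm_nil, pm_nil]
  | cons c L ih =>
    intro J₂ hd h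
    rw [pm_cons, pm_cons, Finset.sum_union hd, Finset.sum_eq_zero, zero_add]
    · refine Finset.sum_congr rfl fun i hi => ?_
      rw [union_erase_right hd hi, ih (J₂.erase i)
        (Finset.disjoint_of_subset_right (Finset.erase_subset _ _) hd)
        fun d hdL => h d (List.mem_cons_of_mem _ hdL)]
    · intro i hi
      rw [h c List.mem_cons_self i hi, zero_mul]

lemma pm_block (x : ℕ → D) (J₂ : Finset ℕ) (L₁ L₂ : List ℕ) : ∀ J₁ : Finset ℕ, Disjoint J₁ J₂ →
    (∀ c ∈ L₁, ∀ j ∈ J₂, x (j + c) = 0) → (∀ c ∈ L₂, ∀ j ∈ J₁, x (j + c) = 0) →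
    pm x (J₁ ∪ J₂) (L₁ ++ L₂) = pm x J₁ L₁ * pm x J₂ L₂ := by
  induction L₁ with
  | nil =>
    intro J₁ hd _ h2
    rw [List.nil_append, pm_nil, one_mul, pm_drop x J₁ L₂ J₂ hd h2]
  | cons c L₁ ih =>
    intro J₁ hd h1 h2
    rw [List.cons_append, pm_cons, pm_cons, Finset.sum_union hd, Finset.sum_mul]
    have h0 : ∑ i ∈ J₂, x (i + c) * pm x ((J₁ ∪ J₂).erase i) (L₁ ++ L₂) = 0 :=
      Finset.sum_eq_zero fun i hi => by rw [h1 c List.mem_cons_self i hi, zero_mul]
    rw [h0, add_zero]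
    refine Finset.sum_congr rfl fun i hi => ?_
    rw [union_erase_left hd hi, ih (J₁.erase i)
      (Finset.disjoint_of_subset_left (Finset.erase_subset _ _) hd)
      (fun d hdL => h1 d (List.mem_cons_of_mem _ hdL))
      (fun d hdL j hj => h2 d hdL j (Finset.mem_of_mem_erase hj)), mul_assoc]

lemma phi_inj {g : ℕ} (hg : 0 < g) (σ : ℕ) : Function.Injective fun l => σ + g * l := by
  intro a b h
  have h1 : g * a = g * b := by simpa using h
  exact Nat.eq_of_mul_eq_mul_left hg h1

lemma pm_reindex (x : ℕ → D) {g : ℕ} (ρ σ : ℕ) (hg : 0 < g) (L : List ℕ) : ∀ J : Finset ℕ,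
    pm x (J.image fun l => σ + g * l) (L.map fun i => ρ + g * i) =
      pm (fun s => x (ρ + σ + g * s)) J L := by
  induction L with
  | nil => intro J; rw [List.map_nil, pm_nil, pm_nil]
  | cons c L ih =>
    intro J
    rw [List.map_cons, pm_cons, pm_cons, Finset.sum_image (phi_inj hg σ).injOn]
    refine Finset.sum_congr rfl fun l _ => ?_
    rw [← Finset.image_erase (phi_inj hg σ), ih]
    congr 2
    ring

lemma pd_reindex (x y : ℕ → D) {g : ℕ} (ρ σ : ℕ) (hg : 0 < g) (L : List ℕ) : ∀ J : Finset ℕ,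
    pd x y (J.image fun l => σ + g * l) (L.map fun i => ρ + g * i) =
      pd (fun s => x (ρ + σ + g * s)) (fun s => y (ρ + σ + g * s)) J L := by
  induction L with
  | nil => intro J; rw [List.map_nil, pd_nil, pd_nil]
  | cons c L ih =>
    intro J
    rw [List.map_cons, pd_cons, pd_cons, Finset.sum_image (phi_inj hg σ).injOn]
    refine Finset.sum_congr rfl fun l _ => ?_
    rw [← Finset.image_erase (phi_inj hg σ), ih, pm_reindex x ρ σ hg]
    have e : σ + g * l + (ρ + g * c) = ρ + σ + g * (l + c) := by ring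
    rw [e]

end

theorem ta (D : Type*) [CommRing D] : StmBA D :=
  ⟨fun x _ _ h J => pm_perm x h J, fun x y _ _ h J => pd_perm x y h J,
    fun x J L h => pm_zero x L J h⟩

theorem tb (D : Type*) [CommRing D] : StmBB D :=
  fun x J₁ J₂ L₁ L₂ hd h1 h2 => pm_block x J₂ L₁ L₂ J₁ hd h1 h2

theorem te (D : Type*) [CommRing D] : StmBE D :=
  fun x y _ ρ σ hg J L => ⟨pm_reindex x ρ σ hg L J, pd_reindex x y ρ σ hg L J⟩

end Pool.Agent.N729.HP.BA
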