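import Pool.Agent.N729.HP.Stm

/-!
# HN/BC, BD, BF, BT: derivatives of permanents of block matrices (helper558 for helper729)
-/

set_option autoImplicit false

namespace Pool.Agent.N729.HP.BC

open Finset
open Pool.Agent.N186.HK (pm vm IsHankel pm_nil pm_cons)
open Pool.Agent.N729.HP

section

variable {D : Type*} [CommRing D]

lemma pd_nil (x y : ℕ → D) (J : Finset ℕ) : pd x y J [] = 0 := by
  unfold pd; rfl

lemma pd_cons (x y : ℕ → D) (J : Finset ℕ) (c : ℕ) (L : List ℕ) :
    pd x y J (c :: L) = ∑ j ∈ J, (y (j + c) * pm x (J.erase j) L +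
      x (j + c) * pd x y (J.erase j) L) := by
  rw [pd]

lemma erase_left {J₁ J₂ : Finset ℕ} (h : Disjoint J₁ J₂) {j : ℕ} (hj : j ∈ J₁) :
    (J₁ ∪ J₂).erase j = J₁.erase j ∪ J₂ := by
  have h1 : j ∉ J₂ := Finset.disjoint_left.1 h hj
  rw [Finset.erase_union_distrib, Finset.erase_eq_of_notMem h1]

lemma erase_right {J₁ J₂ : Finset ℕ} (h : Disjoint J₁ J₂) {j : ℕ} (hj : j ∈ J₂) :
    (J₁ ∪ J₂).erase j = J₁ ∪ J₂.erase j := by
  have h1 : j ∉ J₁ := Finset.disjoint_right.1 h hj
  rw [Finset.erase_union_distrib, Finset.erase_eq_of_notMem h1]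

lemma disj_left {J₁ J₂ : Finset ℕ} (h : Disjoint J₁ J₂) (j : ℕ) : Disjoint (J₁.erase j) J₂ :=
  Finset.disjoint_of_subset_left (Finset.erase_subset _ _) h

lemma disj_right {J₁ J₂ : Finset ℕ} (h : Disjoint J₁ J₂) (j : ℕ) : Disjoint J₁ (J₂.erase j) :=
  Finset.disjoint_of_subset_right (Finset.erase_subset _ _) h

end

theorem tc (D : Type*) [CommRing D] (hBA : StmBA D) (hBB : StmBB D) : StmBC D := by
  intro x y J₁ J₂ L₁
  induction L₁ generalizing J₁ with
  | nil =>
    intro L₂ _ _ _ h1 _
    rw [List.length_nil, Finset.card_eq_zero] at h1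
    subst h1
    rw [Finset.empty_union, List.nil_append, pd_nil, pm_nil, zero_mul, zero_add, one_mul]
  | cons c L ih =>
    intro L₂ hd hL1 hL2 h1 h2
    rw [List.cons_append, pd_cons, Finset.sum_union hd]
    have e2 : ∑ j ∈ J₂, (y (j + c) * pm x ((J₁ ∪ J₂).erase j) (L ++ L₂) +
        x (j + c) * pd x y ((J₁ ∪ J₂).erase j) (L ++ L₂)) = 0 := by
      refine Finset.sum_eq_zero fun j hj => ?_
      rw [hL1 c List.mem_cons_self j hj, zero_mul, add_zero, erase_right hd hj,
        hBB x J₁ (J₂.erase j) L L₂ (disj_right hd j)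
          (fun c' hc' j' hj' => hL1 c' (List.mem_cons_of_mem _ hc') j' (Finset.mem_of_mem_erase hj'))
          (fun c' hc' j' hj' => hL2 c' hc' j' hj'),
        hBA.2.2 x (J₂.erase j) L₂ (by
          have := Finset.card_erase_lt_of_mem hj
          omega), mul_zero, mul_zero]
    have e1 : ∀ j ∈ J₁, y (j + c) * pm x ((J₁ ∪ J₂).erase j) (L ++ L₂) +
        x (j + c) * pd x y ((J₁ ∪ J₂).erase j) (L ++ L₂) =
        (y (j + c) * pm x (J₁.erase j) L + x (j + c) * pd x y (J₁.erase j) L) * pm x J₂ L₂ +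
        (x (j + c) * pm x (J₁.erase j) L) * pd x y J₂ L₂ := by
      intro j hj
      rw [erase_left hd hj,
        hBB x (J₁.erase j) J₂ L L₂ (disj_left hd j)
          (fun c' hc' j' hj' => hL1 c' (List.mem_cons_of_mem _ hc') j' hj')
          (fun c' hc' j' hj' => hL2 c' hc' j' (Finset.mem_of_mem_erase hj')),
        ih (J₁.erase j) L₂ (disj_left hd j)
          (fun c' hc' j' hj' => hL1 c' (List.mem_cons_of_mem _ hc') j' hj')
          (fun c' hc' j' hj' => hL2 c' hc' j' (Finset.mem_of_mem_erase hj'))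
          (by rw [Finset.card_erase_of_mem hj, h1]; rfl) h2]
      ring
    rw [e2, add_zero, Finset.sum_congr rfl e1, Finset.sum_add_distrib, ← Finset.sum_mul,
      ← Finset.sum_mul, ← pd_cons, ← pm_cons]

theorem td (D : Type*) [CommRing D] (hBA : StmBA D) (hBB : StmBB D) : StmBD D := by
  intro x y J₁ J₂ L₁
  induction L₁ generalizing J₁ with
  | nil =>
    intro L₂ _ _ _ _ h1 _
    rw [List.length_nil] at h1
    omega
  | cons c L ih =>
    intro L₂ hd hnd hL1 hL2 h1 h2
    have hnd' := List.nodup_cons.1 hnd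
    rw [List.cons_append, pd_cons, Finset.sum_union hd]
    have e2 : ∀ j ∈ J₂, (y (j + c) * pm x ((J₁ ∪ J₂).erase j) (L ++ L₂) +
        x (j + c) * pd x y ((J₁ ∪ J₂).erase j) (L ++ L₂)) =
        y (j + c) * pm x J₁ L * pm x (J₂.erase j) L₂ := by
      intro j hj
      rw [hL1 c List.mem_cons_self j hj, zero_mul, add_zero, erase_right hd hj,
        hBB x J₁ (J₂.erase j) L L₂ (disj_right hd j)
          (fun c' hc' j' hj' => hL1 c' (List.mem_cons_of_mem _ hc') j' (Finset.mem_of_mem_erase hj'))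
          (fun c' hc' j' hj' => hL2 c' hc' j' hj'), mul_assoc]
    have e1 : ∀ j ∈ J₁, y (j + c) * pm x ((J₁ ∪ J₂).erase j) (L ++ L₂) +
        x (j + c) * pd x y ((J₁ ∪ J₂).erase j) (L ++ L₂) =
        ∑ c' ∈ L.toFinset, ∑ j' ∈ J₂,
          y (j' + c') * (x (j + c) * pm x (J₁.erase j) (L.erase c')) * pm x (J₂.erase j') L₂ := by
      intro j hj
      have hc := Finset.card_erase_lt_of_mem hj
      have hc' := Finset.card_erase_of_mem hj
      rw [List.length_cons] at h1
      have hpos : 0 < J₁.card := Finset.card_pos.2 ⟨j, hj⟩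
      rw [erase_left hd hj,
        hBB x (J₁.erase j) J₂ L L₂ (disj_left hd j)
          (fun c' hc' j' hj' => hL1 c' (List.mem_cons_of_mem _ hc') j' hj')
          (fun c' hc' j' hj' => hL2 c' hc' j' (Finset.mem_of_mem_erase hj')),
        hBA.2.2 x (J₁.erase j) L (by omega), zero_mul, mul_zero, zero_add,
        ih (J₁.erase j) L₂ (disj_left hd j) hnd'.2
          (fun c' hc' j' hj' => hL1 c' (List.mem_cons_of_mem _ hc') j' hj')
          (fun c' hc' j' hj' => hL2 c' hc' j' (Finset.mem_of_mem_erase hj'))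
          (by omega) h2, Finset.mul_sum]
      refine Finset.sum_congr rfl fun c' _ => ?_
      rw [Finset.mul_sum]
      refine Finset.sum_congr rfl fun j' _ => ?_
      ring
    rw [Finset.sum_congr rfl e1, Finset.sum_congr rfl e2, Finset.sum_comm, List.toFinset_cons,
      Finset.sum_insert (by simpa using hnd'.1), List.erase_cons_head, add_comm]
    congr 1
    refine Finset.sum_congr rfl fun c' hc' => ?_
    rw [List.mem_toFinset] at hc'
    have hne : c ≠ c' := fun h => hnd'.1 (h ▸ hc')
    rw [Finset.sum_comm]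
    refine Finset.sum_congr rfl fun j' _ => ?_
    rw [List.erase_cons_tail (by simpa using hne), pm_cons, Finset.mul_sum, Finset.sum_mul]

theorem tf (D : Type*) [CommRing D] : StmBF D := by
  intro x y J L
  induction L generalizing J with
  | nil =>
    intro _
    rw [pd_nil]
    simp
  | cons c L ih =>
    intro hnd
    have hnd' := List.nodup_cons.1 hnd
    rw [pd_cons, Finset.sum_add_distrib, List.toFinset_cons,
      Finset.sum_insert (by simpa using hnd'.1), List.erase_cons_head]
    congr 1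
    have e1 : ∀ j ∈ J, x (j + c) * pd x y (J.erase j) L =
        ∑ c' ∈ L.toFinset, ∑ j' ∈ J.erase j,
          y (j' + c') * (x (j + c) * pm x ((J.erase j').erase j) (L.erase c')) := by
      intro j hj
      rw [ih (J.erase j) hnd'.2, Finset.mul_sum]
      refine Finset.sum_congr rfl fun c' _ => ?_
      rw [Finset.mul_sum]
      refine Finset.sum_congr rfl fun j' _ => ?_
      rw [Finset.erase_right_comm]
      ring
    rw [Finset.sum_congr rfl e1, Finset.sum_comm]
    refine Finset.sum_congr rfl fun c' hc' => ?_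
    rw [List.mem_toFinset] at hc'
    have hne : c ≠ c' := fun h => hnd'.1 (h ▸ hc')
    rw [Finset.sum_comm' (s' := fun j' => J.erase j') (t' := J) (by
      intro j j'
      simp only [Finset.mem_erase]
      constructor
      · rintro ⟨h1, h2, h3⟩
        exact ⟨⟨fun h => h2 h.symm, h1⟩, h3⟩
      · rintro ⟨⟨h1, h2⟩, h3⟩
        exact ⟨h2, fun h => h1 h.symm, h3⟩)]
    refine Finset.sum_congr rfl fun j' _ => ?_
    rw [List.erase_cons_tail (by simpa using hne), pm_cons, Finset.mul_sum]

theorem tt (D : Type*) [CommRing D] : StmBT D := by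
  intro x J₁ J₂ L₁
  induction L₁ generalizing J₁ with
  | nil =>
    intro L₂ _ _ h1
    rw [List.length_nil, Finset.card_eq_zero] at h1
    subst h1
    rw [Finset.empty_union, List.nil_append, pm_nil, one_mul]
  | cons c L ih =>
    intro L₂ hd hL1 h1
    rw [List.cons_append, pm_cons, Finset.sum_union hd]
    have e2 : ∑ j ∈ J₂, x (j + c) * pm x ((J₁ ∪ J₂).erase j) (L ++ L₂) = 0 := by
      refine Finset.sum_eq_zero fun j hj => ?_
      rw [hL1 c List.mem_cons_self j hj, zero_mul]
    have e1 : ∀ j ∈ J₁, x (j + c) * pm x ((J₁ ∪ J₂).erase j) (L ++ L₂) =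
        x (j + c) * pm x (J₁.erase j) L * pm x J₂ L₂ := by
      intro j hj
      rw [erase_left hd hj, ih (J₁.erase j) L₂ (disj_left hd j)
          (fun c' hc' j' hj' => hL1 c' (List.mem_cons_of_mem _ hc') j' hj')
          (by rw [Finset.card_erase_of_mem hj, h1]; rfl), mul_assoc]
    rw [e2, add_zero, Finset.sum_congr rfl e1, ← Finset.sum_mul, ← pm_cons]

end Pool.Agent.N729.HP.BC
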