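import Pool.Agent.N729.HP.Stm

/-!
Project HN (MP_9bc296_ag), part JA: the Jacobian criterion as an upper bound for the transcendence
degree of `k[X] / P` at a point `q` of the variety of the prime ideal `P`.
-/

set_option autoImplicit false

namespace Pool.Agent.N729.HP.JA

open MvPolynomial

/-- Every vector is a gradient of an element of `P` at `q` plus a vector supported on `S`. -/
theorem span {k : Type*} [Field k] {N : ℕ} (P : Ideal (MvPolynomial (Fin N) k)) (q : Fin N → k)
    (S : Finset (Fin N))
    (hS : ∀ y : Fin N → k, (∀ s ∈ S, y s = 0) →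
      (∀ f ∈ P, ∑ v, eval q (pderiv v f) * y v = 0) → y = 0) (b : Fin N → k) :
    ∃ f ∈ P, ∃ c : Fin N → k, (∀ v, v ∉ S → c v = 0) ∧ ∀ v, b v = eval q (pderiv v f) + c v := by
  let W : Submodule k (Fin N → k) :=
    { carrier := {b | ∃ f ∈ P, ∃ c : Fin N → k, (∀ v, v ∉ S → c v = 0) ∧
        ∀ v, b v = eval q (pderiv v f) + c v}
      add_mem' := by
        rintro a b ⟨f, hf, c, hc, h⟩ ⟨f', hf', c', hc', h'⟩
        refine ⟨f + f', P.add_mem hf hf', c + c', fun v hv => ?_, fun v => ?_⟩
        · simp [hc v hv, hc' v hv]
        · rw [Pi.add_apply, h v, h' v, map_add, map_add, Pi.add_apply]; ring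
      zero_mem' := ⟨0, P.zero_mem, 0, fun v _ => rfl, fun v => by simp⟩
      smul_mem' := by
        rintro a b ⟨f, hf, c, hc, h⟩
        refine ⟨C a * f, P.mul_mem_left _ hf, a • c, fun v hv => ?_, fun v => ?_⟩
        · simp [hc v hv]
        · rw [Pi.smul_apply, h v, pderiv_C_mul, map_mul, eval_C, Pi.smul_apply, smul_eq_mul,
            smul_eq_mul]; ring }
  have hW : W = ⊤ := by
    by_contra hne
    obtain ⟨φ, hφ0, hφ⟩ := Submodule.exists_le_ker_of_lt_top W (lt_top_iff_ne_top.2 hne)
    apply hφ0
    have hφs : ∀ b : Fin N → k, φ b = ∑ v, b v * φ (Pi.single v 1) := by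
      intro b
      conv_lhs => rw [pi_eq_sum_univ' b]
      rw [map_sum]
      refine Finset.sum_congr rfl fun v _ => ?_
      rw [map_smul, smul_eq_mul]
    have hy := hS (fun v => φ (Pi.single v 1)) (fun s hs => ?_) (fun f hf => ?_)
    · ext v
      simpa using congrFun hy v
    · have : (Pi.single s 1 : Fin N → k) ∈ W := by
        refine ⟨0, P.zero_mem, Pi.single s 1, fun v hv => ?_, fun v => by simp⟩
        rw [Pi.single_apply, if_neg]
        rintro rfl
        exact hv hs
      exact hφ this
    · have : (fun v => eval q (pderiv v f)) ∈ W :=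
        ⟨f, hf, 0, fun v _ => rfl, fun v => by simp⟩
      have h2 := hφ this
      rw [LinearMap.mem_ker, hφs] at h2
      exact h2
  have : b ∈ W := by rw [hW]; trivial
  exact this

/-- the chain rule for a derivation over a field containing the coefficients -/
theorem chain {k K F M : Type*} [Field k] [Field K] [Field F] [Algebra k K] [Algebra K F]
    [Algebra k F] [IsScalarTower k K F] [AddCommGroup M] [Module F M] [Module K M]
    [IsScalarTower K F M] (δ : Derivation K F M) {N : ℕ} (z : Fin N → F)
    (f : MvPolynomial (Fin N) k) :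
    δ (aeval z f) = ∑ w, (aeval z (pderiv w f) : F) • δ (z w) := by
  induction f using MvPolynomial.induction_on with
  | C a =>
    rw [aeval_C, IsScalarTower.algebraMap_apply k K F, Derivation.map_algebraMap]
    refine (Finset.sum_eq_zero fun w _ => ?_).symm
    rw [pderiv_C, map_zero, zero_smul]
  | add f g hf hg =>
    rw [map_add, map_add, hf, hg, ← Finset.sum_add_distrib]
    refine Finset.sum_congr rfl fun w _ => ?_
    rw [map_add, map_add, add_smul]
  | mul_X f i hf =>
    rw [map_mul, Derivation.leibniz, hf, aeval_X, Finset.smul_sum]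
    have : ∀ w, (aeval z (pderiv w (f * X i)) : F) • δ (z w) =
        z i • ((aeval z (pderiv w f) : F) • δ (z w)) +
        (if w = i then (aeval z f : F) • δ (z w) else 0) := by
      intro w
      rw [Derivation.leibniz, pderiv_X, smul_eq_mul, smul_eq_mul, map_add, map_mul, map_mul,
        aeval_X, add_smul, mul_smul, add_comm, mul_smul]
      congr 1
      by_cases h : w = i
      · subst h; simp
      · rw [if_neg h, Pi.single_apply, if_neg (fun h' => h h'.symm)]; simp
    rw [Finset.sum_congr rfl fun w _ => this w, Finset.sum_add_distrib, add_comm]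
    congr 1
    simp

/-- **JA** -/
theorem t (k : Type*) [Field k] : StmJA k := by
  intro N P hP q hq S hS
  have := hP
  have : IsDomain (MvPolynomial (Fin N) k ⧸ P) := Ideal.Quotient.isDomain P
  set D := MvPolynomial (Fin N) k ⧸ P with hD
  let F := FractionRing D
  have hinj : Function.Injective (algebraMap D F) := IsFractionRing.injective D F
  let z : Fin N → F := fun w => algebraMap D F (Ideal.Quotient.mk P (X w))
  have hz : ∀ f : MvPolynomial (Fin N) k, aeval z f = algebraMap D F (Ideal.Quotient.mk P f) := by
    intro f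
    have : (aeval z : MvPolynomial (Fin N) k →ₐ[k] F) =
        (IsScalarTower.toAlgHom k D F).comp (Ideal.Quotient.mkₐ k P) := by
      ext w
      simp only [aeval_X, AlgHom.comp_apply]
      rfl
    rw [this]
    rfl
  let s : Set F := z '' (S : Set (Fin N))
  let K0 := IntermediateField.adjoin k s
  let δ := KaehlerDifferential.D K0 F
  have hδs : ∀ w ∈ S, δ (z w) = 0 := by
    intro w hw
    have hm : z w ∈ K0 := IntermediateField.subset_adjoin k s ⟨w, hw, rfl⟩
    exact δ.map_algebraMap (⟨z w, hm⟩ : K0)
  choose f hf c hc hb using fun v : Fin N => span P q S hS (Pi.single v 1)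
  let M' : Matrix (Fin N) (Fin N) D :=
    fun v w => Ideal.Quotient.mk P (pderiv w (f v)) + Ideal.Quotient.mk P (C (c v w))
  let ev : D →+* k := Ideal.Quotient.lift P (eval q) hq
  have hM1 : ev.mapMatrix M' = 1 := by
    ext v w
    have := hb v w
    rw [RingHom.mapMatrix_apply, Matrix.map_apply, map_add, Ideal.Quotient.lift_mk,
      Ideal.Quotient.lift_mk, eval_C, ← this, Matrix.one_apply, Pi.single_apply]
    simp only [eq_comm]
  have hdet' : M'.det ≠ 0 := by
    intro h0
    have := ev.map_det M'
    rw [h0, map_zero, hM1, Matrix.det_one] at this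
    exact zero_ne_one this
  let M : Matrix (Fin N) (Fin N) F := Matrix.of fun v w => algebraMap D F (M' v w)
  have hdet : M.det ≠ 0 := by
    have : M.det = algebraMap D F M'.det := ((algebraMap D F).map_det M').symm
    rw [this]
    exact fun h => hdet' (hinj (h.trans (map_zero _).symm))
  have hMz : ∀ v, ∑ w, M v w • δ (z w) = 0 := by
    intro v
    have h1 : δ (aeval z (f v)) = 0 := by
      rw [hz, Ideal.Quotient.eq_zero_iff_mem.2 (hf v), map_zero, map_zero]
    rw [chain δ z (f v)] at h1
    have h2 : ∀ w, M v w • δ (z w) = (aeval z (pderiv w (f v)) : F) • δ (z w) := by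
      intro w
      have : M v w = aeval z (pderiv w (f v)) +
          algebraMap D F (Ideal.Quotient.mk P (C (c v w))) := by
        rw [hz]
        exact map_add (algebraMap D F) _ _
      rw [this, add_smul]
      by_cases hw : w ∈ S
      · rw [hδs w hw, smul_zero, smul_zero, add_zero]
      · rw [hc v w hw, map_zero, map_zero, map_zero, zero_smul, add_zero]
    rw [Finset.sum_congr rfl fun w _ => h2 w]
    exact h1
  have hδz : ∀ u, δ (z u) = 0 := by
    intro u
    have hinv : M⁻¹ * M = 1 := Matrix.nonsing_inv_mul M (isUnit_iff_ne_zero.2 hdet)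
    have h1 : ∑ v, M⁻¹ u v • ∑ w, M v w • δ (z w) = δ (z u) := by
      calc ∑ v, M⁻¹ u v • ∑ w, M v w • δ (z w)
          = ∑ w, (∑ v, M⁻¹ u v * M v w) • δ (z w) := by
            have e1 : ∀ v, M⁻¹ u v • ∑ w, M v w • δ (z w) =
                ∑ w, (M⁻¹ u v * M v w) • δ (z w) := by
              intro v
              rw [Finset.smul_sum]
              exact Finset.sum_congr rfl fun w _ => (mul_smul _ _ _).symm
            rw [Finset.sum_congr rfl fun v _ => e1 v, Finset.sum_comm]
            exact Finset.sum_congr rfl fun w _ => Finset.sum_smul.symm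
        _ = ∑ w, ((1 : Matrix (Fin N) (Fin N) F) u w) • δ (z w) := by
            refine Finset.sum_congr rfl fun w _ => ?_
            rw [← hinv, Matrix.mul_apply]
        _ = δ (z u) := by
            simp [Matrix.one_apply]
    rw [← h1]
    exact Finset.sum_eq_zero fun v _ => by rw [hMz v, smul_zero]
  have hδD : ∀ d : D, δ (algebraMap D F d) = 0 := by
    intro d
    obtain ⟨g, rfl⟩ := Ideal.Quotient.mk_surjective d
    rw [← hz g, chain δ z g]
    exact Finset.sum_eq_zero fun v _ => by rw [hδz v, smul_zero]
  have hδ : ∀ x : F, δ x = 0 := by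
    intro x
    obtain ⟨a, b, hb0, rfl⟩ := IsFractionRing.div_surjective (A := D) x
    have hb1 : algebraMap D F b ≠ 0 := by
      intro h
      exact nonZeroDivisors.ne_zero hb0 (hinj (h.trans (map_zero _).symm))
    have h1 : δ (algebraMap D F b * (algebraMap D F a / algebraMap D F b)) = 0 := by
      rw [mul_div_cancel₀ _ hb1]
      exact hδD a
    rw [Derivation.leibniz, hδD b, smul_zero, add_zero] at h1
    exact (smul_eq_zero.1 h1).resolve_left hb1
  have hsub : Subsingleton (Ω[F⁄K0]) := by
    have hsp := KaehlerDifferential.span_range_derivation K0 F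
    have hr : Set.range (KaehlerDifferential.D K0 F) ⊆ {0} := by
      rintro _ ⟨x, rfl⟩
      exact hδ x
    have : (⊤ : Submodule F (Ω[F⁄K0])) ≤ ⊥ := by
      rw [← hsp, Submodule.span_le]
      intro x hx
      exact hr hx
    refine ⟨fun x y => ?_⟩
    have hx := this (Submodule.mem_top (x := x))
    have hy := this (Submodule.mem_top (x := y))
    rw [Submodule.mem_bot] at hx hy
    rw [hx, hy]
  have hfu : Algebra.FormallyUnramified K0 F := ⟨hsub⟩
  have hess0 : Algebra.EssFiniteType k F := inferInstance
  have hess : Algebra.EssFiniteType K0 F := Algebra.EssFiniteType.of_comp k K0 F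
  have hsep : Algebra.IsSeparable K0 F := Algebra.FormallyUnramified.isSeparable K0 F
  have halg0 : Algebra.IsAlgebraic K0 F := inferInstance
  have halg : Algebra.IsAlgebraic (Algebra.adjoin k s) F :=
    IntermediateField.isAlgebraic_adjoin_iff_top.1 halg0
  have h1 : Algebra.trdeg k F ≤ Cardinal.mk s := Algebra.IsAlgebraic.trdeg_le_cardinalMk k s
  have h2 : Algebra.trdeg k D ≤ Algebra.trdeg k F :=
    trdeg_le_of_injective (IsScalarTower.toAlgHom k D F) hinj
  have h3 : Cardinal.mk s ≤ (S.card : Cardinal) := by
    have := Cardinal.mk_image_le_lift (f := z) (s := (S : Set (Fin N)))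
    simpa using this
  exact (h2.trans h1).trans h3

end Pool.Agent.N729.HP.JA
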