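import Pool.Agent.N729.HP.Stm

/-!
Project HN, part JC: the Jacobian criterion for Hankel permanental ideals, from JA and JB.
-/

set_option autoImplicit false

namespace Pool.Agent.N729.HP.JC

open Finset MvPolynomial
open Pool.Agent.N186.HK (pm vm IsHankel zz pm_map pm_congr pm_nil pm_cons pm_mem permanent_eq_pm)
open Pool.Agent.R831.PermIdeal (permIdeal permIdeal_le_ker)

variable {k : Type*} [Field k]

lemma isHankel_hk {N n m : ℕ} (h : N + 1 = n + m) : IsHankel (hk h) := by
  intro i j i' j'
  unfold hk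
  rw [Fin.mk.injEq]

lemma zz_hk {N n m : ℕ} (h : N + 1 = n + m) (hn : 0 < n) (hm : 0 < m) {s : ℕ} (hs : s < N) :
    zz k (hk h) s = X (⟨s, hs⟩ : Fin N) := by
  unfold zz
  rw [dif_pos ⟨hn, hm, by omega⟩]
  congr 1
  unfold hk
  rw [Fin.mk.injEq]
  simp only
  omega

/-- the derivative at the point `q` in the direction `y` -/
noncomputable def dd {N : ℕ} (q y : Fin N → k) : MvPolynomial (Fin N) k →ₗ[k] k where
  toFun f := ∑ v, eval q (pderiv v f) * y v
  map_add' f g := by
    rw [← sum_add_distrib]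
    refine sum_congr rfl fun v _ => ?_
    rw [map_add, map_add, add_mul]
  map_smul' c f := by
    rw [RingHom.id_apply, smul_eq_mul, mul_sum]
    refine sum_congr rfl fun v _ => ?_
    rw [Derivation.map_smul, smul_eval, mul_assoc]

lemma dd_apply {N : ℕ} (q y : Fin N → k) (f : MvPolynomial (Fin N) k) :
    dd q y f = ∑ v, eval q (pderiv v f) * y v := rfl

lemma dd_mul {N : ℕ} (q y : Fin N → k) (f g : MvPolynomial (Fin N) k) :
    dd q y (f * g) = dd q y f * eval q g + eval q f * dd q y g := by
  rw [dd_apply, dd_apply, dd_apply, sum_mul, mul_sum, ← sum_add_distrib]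
  refine sum_congr rfl fun v _ => ?_
  rw [Derivation.leibniz, smul_eq_mul, smul_eq_mul, map_add, map_mul, map_mul]
  ring

lemma dd_one {N : ℕ} (q y : Fin N → k) : dd q y 1 = 0 := by
  rw [dd_apply]
  refine sum_eq_zero fun v _ => ?_
  rw [Derivation.map_one_eq_zero, map_zero, zero_mul]

lemma dd_X {N : ℕ} (q y : Fin N → k) (v : Fin N) : dd q y (X v) = y v := by
  rw [dd_apply, Finset.sum_eq_single v]
  · rw [pderiv_X_self, map_one, one_mul]
  · intro w _ hw
    rw [pderiv_X_of_ne hw.symm, map_zero, zero_mul]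
  · intro h
    exact absurd (mem_univ v) h

/-- extension by zero -/
def ext0 {N : ℕ} (y : Fin N → k) (v : ℕ) : k := if h : v < N then y ⟨v, h⟩ else 0

lemma ext0_of {N : ℕ} (y : Fin N → k) {v : ℕ} (h : v < N) : ext0 y v = y ⟨v, h⟩ := dif_pos h

lemma eval_pm {N n m : ℕ} (h : N + 1 = n + m) (hn : 0 < n) (hm : 0 < m) (q : ℕ → k) (J : Finset ℕ)
    (L : List ℕ) (hJL : ∀ j ∈ J, ∀ c ∈ L, j + c < N) :
    eval (fun v : Fin N => q v) (pm (zz k (hk h)) J L) = pm q J L := by
  rw [pm_map]
  refine pm_congr L J fun i hi c hc => ?_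
  rw [zz_hk h hn hm (hJL i hi c hc), eval_X]

lemma dd_pm {N n m : ℕ} (h : N + 1 = n + m) (hn : 0 < n) (hm : 0 < m) (q : ℕ → k)
    (y : Fin N → k) (L : List ℕ) : ∀ J : Finset ℕ, (∀ j ∈ J, ∀ c ∈ L, j + c < N) →
    dd (fun v : Fin N => q v) y (pm (zz k (hk h)) J L) = pd q (ext0 y) J L := by
  induction L with
  | nil =>
    intro J _
    rw [pm_nil, dd_one, pd]
  | cons c L ih =>
    intro J hJ
    rw [pm_cons, pd, map_sum]
    refine sum_congr rfl fun j hj => ?_
    have h1 : j + c < N := hJ j hj c List.mem_cons_self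
    have h2 : ∀ i ∈ J.erase j, ∀ d ∈ L, i + d < N := fun i hi d hd =>
      hJ i (mem_of_mem_erase hi) d (List.mem_cons_of_mem _ hd)
    rw [dd_mul, ih _ h2, eval_pm h hn hm q _ _ h2, zz_hk h hn hm h1, dd_X, eval_X, ext0_of y h1]

theorem t (k : Type*) [Field k] (hJA : StmJA k) (hJB : StmJB k) : StmJC k := by
  intro N n m t h ht htn htm q hq S hS hy hP
  have hn : 0 < n := by omega
  have hm : 0 < m := by omega
  obtain ⟨q', hq'⟩ : ∃ q' : Fin N → k, q' = fun v : Fin N => q v := ⟨_, rfl⟩
  -- (1)
  have h1 : ∀ f ∈ permIdeal t (vm k (hk h)), eval q' f = 0 := by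
    have h2 : permIdeal t (vm k (hk h)) ≤ RingHom.ker (eval q') := by
      apply permIdeal_le_ker
      intro r c
      have e1 : ((vm k (hk h)).map (eval q')).submatrix r c =
          Matrix.of fun i j : Fin t => q ((fun i => (r i).val) i + (fun j => (c j).val) j) := by
        ext1 i j
        simp only [Matrix.submatrix_apply, Matrix.map_apply, vm, Matrix.of_apply, eval_X, hq', hk]
      rw [e1, permanent_eq_pm q t (fun i => (r i).val) (Fin.val_injective.comp r.injective)
        (fun j => (c j).val)]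
      apply hq
      refine ⟨?_, ?_, ?_, ?_, ?_⟩
      · refine (Finset.card_image_of_injective _ (Fin.val_injective.comp r.injective)).trans ?_
        rw [card_univ, Fintype.card_fin]
      · rw [List.length_ofFn]
      · rw [List.nodup_ofFn]
        exact Fin.val_injective.comp c.injective
      · intro j hj
        rw [Finset.mem_image] at hj
        obtain ⟨i, -, rfl⟩ := hj
        exact (r i).isLt
      · intro j hj
        rw [List.mem_ofFn] at hj
        obtain ⟨i, rfl⟩ := hj
        exact (c i).isLt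
    intro f hf
    exact h2 hf
  -- (2)
  obtain ⟨S', hS'⟩ : ∃ S' : Finset (Fin N), S' = univ.filter fun v : Fin N => (v : ℕ) ∈ S := ⟨_, rfl⟩
  have hcard : S'.card < t := by
    refine lt_of_le_of_lt ?_ hS
    rw [← Finset.card_image_of_injective S' Fin.val_injective]
    apply Finset.card_le_card
    intro v hv
    rw [Finset.mem_image] at hv
    obtain ⟨w, hw, rfl⟩ := hv
    rw [hS', Finset.mem_filter] at hw
    exact hw.2
  -- (3)
  have h3 := hJA N (permIdeal t (vm k (hk h))) hP q' h1 S' (by
    intro y hy0 hy1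
    have h4 := hy (ext0 y) ?_ ?_
    · funext v
      have h5 := h4 v v.isLt
      rw [ext0_of y v.isLt] at h5
      exact h5
    · intro s hs
      by_cases hsN : s < N
      · rw [ext0_of y hsN]
        apply hy0
        rw [hS', Finset.mem_filter]
        exact ⟨mem_univ _, hs⟩
      · exact dif_neg hsN
    · intro J L hJL
      obtain ⟨a1, a2, a3, a4, a5⟩ := hJL
      have h5 := hy1 _ (pm_mem (k := k) (isHankel_hk h) a1 a2 a4 a5 a3)
      rw [← dd_apply, hq', dd_pm h hn hm q y L J] at h5
      · exact h5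
      · intro j hj c hc
        have := a4 j hj
        have := a5 c hc
        omega)
  have h6 := (hJB N n m t h ht htn htm hP).trans h3
  have h7 : t ≤ S'.card := by exact_mod_cast h6
  omega

end Pool.Agent.N729.HP.JC
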