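import Pool.Agent.N729.HP.Stm

/-!
Project HN, parts CX and CI: permanents and cofactors for the sequence `uX`, invertibility of the
cofactor matrices.
-/

set_option autoImplicit false

namespace Pool.Agent.N729.HP.CX

open Finset
open Pool.Agent.N186.HK (pm pm_nil pm_cons pm_congr)

/-! ### lists -/

lemma perm_a (K i : ℕ) (h1 : 1 ≤ i) (h2 : i < K) :
    ((List.range K).erase i).Perm
      (0 :: (List.range' 1 (i - 1) ++ List.range' (i + 1) (K - 1 - i))) := by
  rw [List.perm_ext_iff_of_nodup (List.nodup_range.erase i)]
  · intro a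
    rw [List.nodup_range.mem_erase_iff]
    simp only [List.mem_range, List.mem_cons, List.mem_append, List.mem_range'_1]
    omega
  · rw [List.nodup_cons, List.nodup_append]
    refine ⟨?_, List.nodup_range', List.nodup_range', ?_⟩
    · simp only [List.mem_append, List.mem_range'_1]
      omega
    · intro a ha b hb
      simp only [List.mem_range'_1] at ha hb
      omega

lemma perm_b (K i : ℕ) (h2 : i + 1 < K) :
    ((List.range K).erase i).Perm
      ((K - 1) :: (List.range' 0 (i - 0) ++ List.range' (i + 1) (K - 1 - 1 - i))) := by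
  rw [List.perm_ext_iff_of_nodup (List.nodup_range.erase i)]
  · intro a
    rw [List.nodup_range.mem_erase_iff]
    simp only [List.mem_range, List.mem_cons, List.mem_append, List.mem_range'_1]
    omega
  · rw [List.nodup_cons, List.nodup_append]
    refine ⟨?_, List.nodup_range', List.nodup_range', ?_⟩
    · simp only [List.mem_append, List.mem_range'_1]
      omega
    · intro a ha b hb
      simp only [List.mem_range'_1] at ha hb
      omega

lemma perm_c (K : ℕ) (h : 2 ≤ K) :
    (List.range K).Perm (0 :: (K - 1) :: List.range' 1 (K - 2)) := by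
  rw [List.perm_ext_iff_of_nodup List.nodup_range]
  · intro a
    simp only [List.mem_range, List.mem_cons, List.mem_range'_1]
    omega
  · rw [List.nodup_cons, List.nodup_cons]
    refine ⟨?_, ?_, List.nodup_range'⟩
    · simp only [List.mem_cons, List.mem_range'_1]
      omega
    · simp only [List.mem_range'_1]
      omega

lemma perm_d (K : ℕ) (h : 1 ≤ K) :
    (List.range K).Perm ((K - 1) :: List.range' 0 (K - 1)) := by
  rw [List.perm_ext_iff_of_nodup List.nodup_range]
  · intro a
    simp only [List.mem_range, List.mem_cons, List.mem_range'_1]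
    omega
  · rw [List.nodup_cons]
    refine ⟨?_, List.nodup_range'⟩
    simp only [List.mem_range'_1]
    omega

lemma perm_e (K : ℕ) (h : 1 ≤ K) :
    (List.range K).Perm (0 :: List.range' 1 (K - 1)) := by
  rw [List.perm_ext_iff_of_nodup List.nodup_range]
  · intro a
    simp only [List.mem_range, List.mem_cons, List.mem_range'_1]
    omega
  · rw [List.nodup_cons]
    refine ⟨?_, List.nodup_range'⟩
    simp only [List.mem_range'_1]
    omega

lemma perm_f (K : ℕ) (h : 1 ≤ K) :
    ((List.range K).erase 0).Perm (List.range' 1 (K - 1)) := by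
  rw [List.perm_ext_iff_of_nodup (List.nodup_range.erase 0) List.nodup_range']
  intro a
  rw [List.nodup_range.mem_erase_iff]
  simp only [List.mem_range, List.mem_range'_1]
  omega

lemma perm_g (K : ℕ) (h : 1 ≤ K) :
    ((List.range K).erase (K - 1)).Perm (List.range' 0 (K - 1)) := by
  rw [List.perm_ext_iff_of_nodup (List.nodup_range.erase _) List.nodup_range']
  intro a
  rw [List.nodup_range.mem_erase_iff]
  simp only [List.mem_range, List.mem_range'_1]
  omega

section

variable {k : Type*} [Field k]

lemma icc_a (K : ℕ) (h : 1 ≤ K) : Icc (K - K) (K - 1) = range K := by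
  ext a; simp only [mem_Icc, mem_range]; omega

lemma icc_b (K : ℕ) (h : 1 ≤ K) : Icc (K - 1 - (K - 1)) (K - 1 - 0) = range K := by
  ext a; simp only [mem_Icc, mem_range]; omega

/-! ### strips -/

lemma s2 (hSL : StmSL k) (K : ℕ) (hK : 2 ≤ K) (l : ℕ) (hl : l < K) :
    pm (uX k K) ((range K).erase l) (List.range' 1 (K - 1)) = 1 := by
  have h := hSL.2.1 (uX k K) K 1 K (by omega) le_rfl (by
    intro j _ hj c hc hc'
    unfold uX
    split_ifs <;> first | rfl | contradiction | omega) l (by rw [icc_a K (by omega)]; exact mem_range.2 hl)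
  rwa [icc_a K (by omega)] at h

lemma s3 (hSL : StmSL k) (K : ℕ) (hK : 2 ≤ K) (i : ℕ) (h1 : 1 ≤ i) (hi : i < K) (z z' : ℕ)
    (hz : z < K) (hz' : z' < K) (hzz : z ≠ z') :
    pm (uX k K) (((range K).erase z).erase z')
      (List.range' 1 (i - 1) ++ List.range' (i + 1) (K - 1 - i)) =
      if (z + i < K ∧ K ≤ z' + i) ∨ (z' + i < K ∧ K ≤ z + i) then 1 else 0 := by
  have h := hSL.2.2 (uX k K) K 1 K i h1 hi le_rfl (by
    intro j _ hj c hc hc' _
    unfold uX
    split_ifs <;> first | rfl | contradiction | omega) z (by rw [icc_a K (by omega)]; exact mem_range.2 hz)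
      z' (by rw [icc_a K (by omega)]; exact mem_range.2 hz') hzz
  rwa [icc_a K (by omega)] at h

lemma s2' (hSL : StmSL k) (K : ℕ) (hK : 2 ≤ K) (l : ℕ) (hl : l < K) :
    pm (fun s => uX k K (s + 1)) ((range K).erase l) (List.range' 0 (K - 1)) = 1 := by
  have h := hSL.2.1 (fun s => uX k K (s + 1)) (K - 1) 0 (K - 1) (by omega) le_rfl (by
    intro j _ hj c hc hc'
    show uX k K (j + c + 1) = _
    unfold uX
    split_ifs <;> first | rfl | contradiction | omega) l (by rw [icc_b K (by omega)]; exact mem_range.2 hl)
  rwa [icc_b K (by omega)] at h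

lemma s3' (hSL : StmSL k) (K : ℕ) (hK : 2 ≤ K) (i : ℕ) (hi : i + 1 < K) (z z' : ℕ)
    (hz : z < K) (hz' : z' < K) (hzz : z ≠ z') :
    pm (fun s => uX k K (s + 1)) (((range K).erase z).erase z')
      (List.range' 0 (i - 0) ++ List.range' (i + 1) (K - 1 - 1 - i)) =
      if (z + i < K - 1 ∧ K - 1 ≤ z' + i) ∨ (z' + i < K - 1 ∧ K - 1 ≤ z + i) then 1 else 0 := by
  have h := hSL.2.2 (fun s => uX k K (s + 1)) (K - 1) 0 (K - 1) i (by omega) (by omega) le_rfl (by
    intro j _ hj c hc hc' _
    show uX k K (j + c + 1) = _
    unfold uX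
    split_ifs <;> first | rfl | contradiction | omega) z (by rw [icc_b K (by omega)]; exact mem_range.2 hz)
      z' (by rw [icc_b K (by omega)]; exact mem_range.2 hz') hzz
  rwa [icc_b K (by omega)] at h

lemma pm_shift (x : ℕ → k) (L : List ℕ) : ∀ J : Finset ℕ,
    pm x (J.image fun j => j + 1) L = pm (fun s => x (s + 1)) J L := by
  induction L with
  | nil => intro J; rw [pm_nil, pm_nil]
  | cons c L ih =>
    intro J
    rw [pm_cons, pm_cons, sum_image (by intro a _ b _ h; simpa using h)]
    refine sum_congr rfl fun j hj => ?_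
    rw [← ih, show j + 1 + c = j + c + 1 by ring]
    congr 2
    ext a
    simp only [mem_erase, mem_image]
    constructor
    · rintro ⟨h1, b, hb, rfl⟩
      exact ⟨b, ⟨by omega, hb⟩, rfl⟩
    · rintro ⟨b, ⟨h1, hb⟩, rfl⟩
      exact ⟨by omega, b, hb, rfl⟩

/-! ### the values of `uX` -/

lemma u0 (K : ℕ) : uX k K 0 = -1 := by simp [uX]

lemma u1 (K : ℕ) (hK : 2 ≤ K) : uX k K (K - 1) = 1 := by
  unfold uX; split_ifs <;> first | rfl | contradiction | omega

lemma u2 (K : ℕ) (hK : 2 ≤ K) : uX k K K = 1 := by
  unfold uX; split_ifs <;> first | rfl | contradiction | omega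

lemma u3 (K : ℕ) (hK : 2 ≤ K) : uX k K (2 * K - 1) = -1 := by
  unfold uX; split_ifs <;> first | rfl | contradiction | omega

lemma u4 (K s : ℕ) (h0 : s ≠ 0) (h1 : s + 1 ≠ K) (h2 : s ≠ K) (h3 : s + 1 ≠ 2 * K) :
    uX k K s = 0 := by
  unfold uX; split_ifs <;> first | rfl | contradiction

/-- expansion along the row `0` -/
lemma row0 (K : ℕ) (hK : 2 ≤ K) (J : Finset ℕ) (hJ : J ⊆ range K) (f : ℕ → k) :
    ∑ j ∈ J, uX k K (j + 0) * f j =
      (if 0 ∈ J then - f 0 else 0) + if K - 1 ∈ J then f (K - 1) else 0 := by
  have h : ∀ j ∈ J, uX k K (j + 0) * f j =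
      (if j = 0 then - f 0 else 0) + if j = K - 1 then f (K - 1) else 0 := by
    intro j hj
    have hj' := mem_range.1 (hJ hj)
    rw [add_zero]
    by_cases h0 : j = 0
    · subst h0
      rw [u0, if_pos rfl, if_neg (by omega)]; ring
    · by_cases h1 : j = K - 1
      · subst h1
        rw [u1 K hK, if_neg h0, if_pos rfl]; ring
      · rw [u4 K j h0 (by omega) (by omega) (by omega), if_neg h0, if_neg h1]; ring
  rw [sum_congr rfl h, sum_add_distrib, sum_ite_eq', sum_ite_eq']

/-- expansion along the row `K - 1` of the shifted matrix -/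
lemma row1 (K : ℕ) (hK : 2 ≤ K) (J : Finset ℕ) (hJ : J ⊆ range K) (f : ℕ → k) :
    ∑ j ∈ J, (fun s => uX k K (s + 1)) (j + (K - 1)) * f j =
      (if 0 ∈ J then f 0 else 0) + if K - 1 ∈ J then - f (K - 1) else 0 := by
  have h : ∀ j ∈ J, (fun s => uX k K (s + 1)) (j + (K - 1)) * f j =
      (if j = 0 then f 0 else 0) + if j = K - 1 then - f (K - 1) else 0 := by
    intro j hj
    have hj' := mem_range.1 (hJ hj)
    show uX k K (j + (K - 1) + 1) * f j = _
    by_cases h0 : j = 0
    · subst h0
      rw [show 0 + (K - 1) + 1 = K by omega, u2 K hK, if_pos rfl, if_neg (by omega)]; ring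
    · by_cases h1 : j = K - 1
      · subst h1
        rw [show K - 1 + (K - 1) + 1 = 2 * K - 1 by omega, u3 K hK, if_neg h0, if_pos rfl]; ring
      · rw [u4 K _ (by omega) (by omega) (by omega) (by omega), if_neg h0, if_neg h1]; ring
  rw [sum_congr rfl h, sum_add_distrib, sum_ite_eq', sum_ite_eq']

theorem tx (k : Type*) [Field k] (hBA : StmBA k) (hBB : StmBB k) (hSL : StmSL k) :
    StmCX k := by
  have _ := hBB
  intro K hK
  have i1 : pm (uX k K) (range K) (List.range K) = 0 := by
    rw [hBA.1 _ _ _ (perm_e K (by omega)), pm_cons, row0 K hK _ (Subset.refl _),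
      if_pos (mem_range.2 (by omega)), if_pos (mem_range.2 (by omega)),
      s2 hSL K hK _ (by omega), s2 hSL K hK _ (by omega)]
    ring
  have i3 : pm (fun s => uX k K (s + 1)) (range K) (List.range K) = 0 := by
    rw [hBA.1 _ _ _ (perm_d K (by omega)), pm_cons, row1 K hK _ (Subset.refl _),
      if_pos (mem_range.2 (by omega)), if_pos (mem_range.2 (by omega)),
      s2' hSL K hK _ (by omega), s2' hSL K hK _ (by omega)]
    ring
  refine ⟨i1, ?_, i3, ?_, ?_, ?_⟩
  · intro i hi l hl
    by_cases h0 : i = 0
    · subst h0
      rw [hBA.1 _ _ _ (perm_f K (by omega)), s2 hSL K hK l hl, if_pos (by omega)]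
    · rw [hBA.1 _ _ _ (perm_a K i (by omega) hi), pm_cons, row0 K hK _ (erase_subset _ _)]
      simp only [mem_erase, mem_range]
      by_cases hl0 : l = 0
      · subst hl0
        rw [if_neg (by omega), if_pos (by omega), if_pos (by omega),
          s3 hSL K hK i (by omega) hi 0 (K - 1) (by omega) (by omega) (by omega),
          if_pos (by omega)]
        ring
      · by_cases hl1 : l = K - 1
        · subst hl1
          rw [if_pos (by omega), if_neg (by omega), if_neg (by omega),
            s3 hSL K hK i (by omega) hi (K - 1) 0 (by omega) (by omega) (by omega),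
            if_pos (by omega)]
          ring
        · rw [if_pos (by omega), if_pos (by omega),
            s3 hSL K hK i (by omega) hi l 0 (by omega) (by omega) (by omega),
            s3 hSL K hK i (by omega) hi l (K - 1) (by omega) (by omega) (by omega)]
          by_cases h : i + l < K
          · rw [if_neg (by omega), if_pos (by omega), if_pos h]; ring
          · rw [if_pos (by omega), if_neg (by omega), if_neg h]; ring
  · intro i hi l hl
    by_cases h0 : i = K - 1
    · subst h0
      rw [hBA.1 _ _ _ (perm_g K (by omega)), s2' hSL K hK l hl, if_neg (by omega)]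
    · rw [hBA.1 _ _ _ (perm_b K i (by omega)), pm_cons, row1 K hK _ (erase_subset _ _)]
      simp only [mem_erase, mem_range]
      by_cases hl0 : l = 0
      · subst hl0
        rw [if_neg (by omega), if_pos (by omega), if_pos (by omega),
          s3' hSL K hK i (by omega) 0 (K - 1) (by omega) (by omega) (by omega),
          if_pos (by omega)]
        ring
      · by_cases hl1 : l = K - 1
        · subst hl1
          rw [if_pos (by omega), if_neg (by omega), if_neg (by omega),
            s3' hSL K hK i (by omega) (K - 1) 0 (by omega) (by omega) (by omega),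
            if_pos (by omega)]
          ring
        · rw [if_pos (by omega), if_pos (by omega),
            s3' hSL K hK i (by omega) l 0 (by omega) (by omega) (by omega),
            s3' hSL K hK i (by omega) l (K - 1) (by omega) (by omega) (by omega)]
          by_cases h : i + l + 1 < K
          · rw [if_neg (by omega), if_pos (by omega), if_pos h]; ring
          · rw [if_pos (by omega), if_neg (by omega), if_neg h]; ring
  · intro l hl
    by_cases hlK : l = K
    · subst hlK
      rw [if_pos (Or.inr rfl), show (range (l + 1)).erase l = range l by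
        rw [range_add_one, erase_insert notMem_range_self]]
      exact i1
    by_cases hl0 : l = 0
    · subst hl0
      rw [if_pos (Or.inl rfl), show (range (K + 1)).erase 0 = (range K).image (fun j => j + 1) by
        ext a
        simp only [mem_erase, mem_range, mem_image]
        constructor
        · rintro ⟨h1, h2⟩
          exact ⟨a - 1, by omega, by omega⟩
        · rintro ⟨b, h1, rfl⟩
          omega, pm_shift]
      exact i3
    rw [if_neg (by omega), hBA.1 _ _ _ (perm_c K hK), pm_cons]
    have hJc : ((range (K + 1)).erase l).card = K := by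
      rw [card_erase_of_mem (mem_range.2 hl), card_range]; omega
    have hin : ∀ m, m < K + 1 → m ≠ l → m ∈ (range (K + 1)).erase l := fun m hm hml =>
      mem_erase.2 ⟨hml, mem_range.2 hm⟩
    -- a remaining column `0` or `K` is zero
    have hz : ∀ j ∈ (range (K + 1)).erase l, ∀ j' ∈ ((range (K + 1)).erase l).erase j,
        ∀ m, (m = 0 ∨ m = K) → m ≠ j → m ≠ j' →
        pm (uX k K) ((((range (K + 1)).erase l).erase j).erase j') (List.range' 1 (K - 2)) = 0 := by
      intro j hj j' hj' m hm hmj hmj'
      refine hSL.1 _ _ _ ?_ m ?_ ?_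
      · rw [card_erase_of_mem hj', card_erase_of_mem hj, hJc, List.length_range']
        omega
      · refine mem_erase.2 ⟨hmj', mem_erase.2 ⟨hmj, hin m (by omega) (by omega)⟩⟩
      · intro c hc
        rw [List.mem_range'_1] at hc
        rcases hm with rfl | rfl
        · exact u4 K _ (by omega) (by omega) (by omega) (by omega)
        · exact u4 m _ (by omega) (by omega) (by omega) (by omega)
    have hset : ∀ a b, (a = 0 ∧ b = K) ∨ (a = K ∧ b = 0) →
        (((range (K + 1)).erase l).erase a).erase b = (Icc (K - (K - 1)) (K - 1)).erase l := by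
      intro a b hab
      ext m
      simp only [mem_erase, mem_range, mem_Icc]
      omega
    have hstrip : pm (uX k K) ((Icc (K - (K - 1)) (K - 1)).erase l) (List.range' 1 (K - 2)) = 1 := by
      have h := hSL.2.1 (uX k K) K 1 (K - 1) (by omega) (by omega) (by
        intro j _ hj c hc hc'
        unfold uX
        split_ifs <;> first | rfl | contradiction | omega) l (mem_Icc.2 (by omega))
      rwa [show K - 1 - 1 = K - 2 by omega] at h
    rw [sum_eq_add_of_mem 0 K (hin 0 (by omega) (Ne.symm hl0)) (hin K (by omega) (Ne.symm hlK))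
      (by omega)]
    · rw [add_zero, u0, pm_cons, pm_cons, sum_eq_single_of_mem K
        (mem_erase.2 ⟨by omega, hin K (by omega) (Ne.symm hlK)⟩), sum_eq_single_of_mem 0
        (mem_erase.2 ⟨by omega, hin 0 (by omega) (Ne.symm hl0)⟩),
        hset 0 K (Or.inl ⟨rfl, rfl⟩), hset K 0 (Or.inr ⟨rfl, rfl⟩), hstrip,
        show K + (K - 1) = 2 * K - 1 by omega, u3 K hK, add_zero, u2 K hK, zero_add, u1 K hK]
      · ring
      · intro j' hj' hne
        rw [hz K (hin K (by omega) (Ne.symm hlK)) j' hj' 0 (Or.inl rfl) (by omega) (Ne.symm hne),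
          mul_zero]
      · intro j' hj' hne
        rw [hz 0 (hin 0 (by omega) (Ne.symm hl0)) j' hj' K (Or.inr rfl) (by omega) (Ne.symm hne),
          mul_zero]
    · rintro j hj ⟨hj0, hjK⟩
      rw [pm_cons, sum_eq_zero, mul_zero]
      intro j' hj'
      by_cases h : j' = 0
      · rw [hz j hj j' hj' K (Or.inr rfl) (Ne.symm hjK) (by omega), mul_zero]
      · rw [hz j hj j' hj' 0 (Or.inl rfl) (Ne.symm hj0) (Ne.symm h), mul_zero]
  · intro l hl
    have h := s2' hSL K hK l hl
    rwa [← List.range_eq_range'] at h

/-- the difference of two equations -/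
lemma diff_eq (κ : ℕ) (w : ℕ → k) (M : ℕ → ℕ → k) (l l' m : ℕ) (c : k) (hm : m < κ)
    (h : ∑ i ∈ range κ, w i * M i l = 0) (h' : ∑ i ∈ range κ, w i * M i l' = 0)
    (h1 : M m l - M m l' = c) (h2 : ∀ i < κ, i ≠ m → w i ≠ 0 → M i l = M i l') :
    w m * c = 0 := by
  have h3 : ∑ i ∈ range κ, w i * (M i l - M i l') = 0 := by
    simp only [mul_sub]
    rw [sum_sub_distrib, h, h', sub_self]
  rw [sum_eq_single_of_mem m (mem_range.2 hm)] at h3
  · rw [← h1]; exact h3
  · intro i hi hne
    by_cases hw : w i = 0
    · rw [hw, zero_mul]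
    · rw [h2 i (mem_range.1 hi) hne hw, sub_self, mul_zero]

/-- a single equation -/
lemma single_eq (κ : ℕ) (w : ℕ → k) (M : ℕ → k) (m : ℕ) (c : k) (hm : m < κ)
    (h : ∑ i ∈ range κ, w i * M i = 0) (h1 : M m = c)
    (h2 : ∀ i < κ, i ≠ m → w i ≠ 0 → M i = 0) : w m * c = 0 := by
  rw [sum_eq_single_of_mem m (mem_range.2 hm)] at h
  · rw [← h1]; exact h
  · intro i hi hne
    by_cases hw : w i = 0
    · rw [hw, zero_mul]
    · rw [h2 i (mem_range.1 hi) hne hw, mul_zero]

theorem ti (k : Type*) [Field k] : StmCI k := by
  intro h2 κ w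
  refine ⟨?_, ?_, ?_⟩
  · intro h
    have h1 : ∀ i, 1 ≤ i → i < κ → w i = 0 := by
      intro i hi hi'
      have := diff_eq κ w (fun i l => if i + l < κ then (1 : k) else -1) (κ - 1 - i) (κ - i) i 2 hi'
        (h _ (by omega)) (h _ (by omega))
        (by rw [if_pos (by omega), if_neg (by omega)]; ring)
        (by
          intro j hj hji _
          by_cases hc : j + (κ - i) < κ
          · rw [if_pos (by omega), if_pos hc]
          · rw [if_neg (by omega), if_neg hc])
      exact (mul_eq_zero.1 this).resolve_right h2
    intro i hi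
    by_cases h0 : i = 0
    · subst h0
      have := single_eq κ w (fun i => if i + 0 < κ then (1 : k) else -1) 0 1 hi (h 0 hi)
        (by rw [if_pos (by omega)])
        (fun j hj hj0 hw => absurd (h1 j (by omega) hj) hw)
      simpa using this
    · exact h1 i (by omega) hi
  · intro h
    have h1 : ∀ i, i + 1 < κ → w i = 0 := by
      intro i hi
      have := diff_eq κ w (fun i l => if i + l + 1 < κ then (-1 : k) else 1) (κ - 1 - i)
        (κ - 2 - i) i 2 (by omega) (h _ (by omega)) (h _ (by omega))
        (by rw [if_neg (by omega), if_pos (by omega)]; ring)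
        (by
          intro j hj hji _
          by_cases hc : j + (κ - 1 - i) + 1 < κ
          · rw [if_pos (by omega), if_pos (by omega)]
          · rw [if_neg (by omega), if_neg (by omega)])
      exact (mul_eq_zero.1 this).resolve_right h2
    intro i hi
    by_cases h0 : i + 1 < κ
    · exact h1 i h0
    · have := single_eq κ w (fun i => if i + 0 + 1 < κ then (-1 : k) else 1) i 1 hi
        (h 0 (by omega))
        (by rw [if_neg (by omega)])
        (fun j hj hj0 hw => absurd (h1 j (by omega)) hw)
      simpa using this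
  · intro hκ h
    have h0 : w (κ - 1) = 0 := by
      have := single_eq κ w (fun i => if i + 1 = κ ∧ κ - 1 + 1 = κ then (2 : k) else
        if i + 1 = κ ∨ κ - 1 + 1 = κ then 0 else if i + (κ - 1) < κ then 1 else -1) (κ - 1) 2
        (by omega) (h (κ - 1) (by omega))
        (by rw [if_pos (by omega)])
        (by
          intro j hj hj0 _
          rw [if_neg (by omega), if_pos (by omega)])
      exact (mul_eq_zero.1 this).resolve_right h2
    have h1 : ∀ i < κ, 2 ≤ i → w i = 0 := by
      intro i hi hi2
      by_cases hi1 : i + 1 = κ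
      · rw [show i = κ - 1 by omega]; exact h0
      · have := diff_eq κ w (fun i l => if i + 1 = κ ∧ l + 1 = κ then (2 : k) else
          if i + 1 = κ ∨ l + 1 = κ then 0 else if i + l < κ then 1 else -1) (κ - 1 - i) (κ - i) i 2
          (by omega) (h _ (by omega)) (h _ (by omega))
          (by
            rw [if_neg (by omega), if_neg (by omega), if_pos (by omega), if_neg (by omega),
              if_neg (by omega), if_neg (by omega)]
            ring)
          (by
            intro j hj hji hw
            have hj1 : j + 1 ≠ κ := by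
              intro hj1
              exact hw (by rw [show j = κ - 1 by omega]; exact h0)
            split_ifs <;> first | rfl | contradiction | omega)
        exact (mul_eq_zero.1 this).resolve_right h2
    refine ⟨?_, h1⟩
    have h3 := h 0 (by omega)
    rw [sum_eq_add_of_mem 0 1 (mem_range.2 (by omega)) (mem_range.2 (by omega)) (by omega)] at h3
    · rw [if_neg (by omega), if_neg (by omega), if_pos (by omega), if_neg (by omega),
        if_neg (by omega), if_pos (by omega), mul_one, mul_one] at h3
      exact h3
    · rintro j hj ⟨hj0, hj1⟩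
      rw [h1 j (mem_range.1 hj) (by omega), zero_mul]

end

end Pool.Agent.N729.HP.CX
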