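import Pool.Agent.N729.HP.Stm

/-!
Project HN, part SL: permanents of strips (helper99).
-/

set_option autoImplicit false

namespace Pool.Agent.N729.HP.SL

open Finset
open Pool.Agent.N186.HK (pm pm_nil pm_cons)

section

variable {D : Type*} [CommRing D]

/-- a zero column may be removed -/
theorem zero_col (x : ℕ → D) (j : ℕ) : ∀ (L : List ℕ) (J : Finset ℕ),
    (∀ c ∈ L, x (j + c) = 0) → pm x J L = pm x (J.erase j) L := by
  intro L
  induction L with
  | nil => intro J _; rw [pm_nil, pm_nil]
  | cons c L ih =>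
    intro J h
    rw [pm_cons, pm_cons]
    have h1 : ∑ i ∈ J, x (i + c) * pm x (J.erase i) L =
        ∑ i ∈ J.erase j, x (i + c) * pm x (J.erase i) L := by
      symm
      refine Finset.sum_subset (Finset.erase_subset _ _) fun i hi hi' => ?_
      have h2 : i = j := by
        by_contra hne
        exact hi' (Finset.mem_erase.2 ⟨hne, hi⟩)
      rw [h2, h c List.mem_cons_self, zero_mul]
    rw [h1]
    refine Finset.sum_congr rfl fun i _ => ?_
    rw [ih (J.erase i) fun d hd => h d (List.mem_cons_of_mem _ hd), Finset.erase_right_comm]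

theorem zero_of_col (hBA : StmBA D) (x : ℕ → D) (J : Finset ℕ) (L : List ℕ)
    (hc : J.card ≤ L.length) (j : ℕ) (hj : j ∈ J) (h : ∀ c ∈ L, x (j + c) = 0) :
    pm x J L = 0 := by
  rw [zero_col x j L J h]
  apply hBA.2.2
  have := Finset.card_erase_of_mem hj
  have := Finset.card_pos.2 ⟨j, hj⟩
  omega

theorem strip (hBA : StmBA D) (x : ℕ → D) (κ b : ℕ) (hb : b ≤ κ) : ∀ (n a : ℕ), a + n = b →
    (∀ j, κ ≤ j + b → j + a ≤ κ → ∀ c, a ≤ c → c < b →
      x (j + c) = if j + c + 1 = κ ∨ j + c = κ then 1 else 0) →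
    ∀ z ∈ Icc (κ - b) (κ - a), pm x ((Icc (κ - b) (κ - a)).erase z) (List.range' a n) = 1 := by
  intro n
  induction n with
  | zero => intro a _ _ z _; rw [List.range'_zero, pm_nil]
  | succ n ih =>
    intro a hab hx z hz
    rw [Finset.mem_Icc] at hz
    have hx' : ∀ j, κ ≤ j + b → j + (a + 1) ≤ κ → ∀ c, a + 1 ≤ c → c < b →
        x (j + c) = if j + c + 1 = κ ∨ j + c = κ then 1 else 0 :=
      fun j h1 h2 c h3 h4 => hx j h1 (by omega) c (by omega) h4
    rw [List.range'_succ, pm_cons]
    have hI : (Icc (κ - b) (κ - a)).erase (κ - a) = Icc (κ - b) (κ - (a + 1)) := by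
      ext j
      simp only [Finset.mem_erase, Finset.mem_Icc]
      omega
    by_cases hza : z = κ - a
    · subst hza
      rw [hI, Finset.sum_eq_single (κ - (a + 1))]
      · rw [hx _ (by omega) (by omega) a le_rfl (by omega), if_pos (by left; omega), one_mul]
        exact ih (a + 1) (by omega) hx' _ (Finset.mem_Icc.2 ⟨by omega, le_rfl⟩)
      · intro j hj hne
        rw [Finset.mem_Icc] at hj
        rw [hx _ (by omega) (by omega) a le_rfl (by omega), if_neg (by omega), zero_mul]
      · intro h
        exact absurd (Finset.mem_Icc.2 ⟨by omega, le_rfl⟩) h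
    · have hz' : z ≤ κ - (a + 1) := by omega
      rw [Finset.sum_eq_single (κ - a)]
      · rw [hx _ (by omega) (by omega) a le_rfl (by omega), if_pos (by right; omega), one_mul,
          Finset.erase_right_comm, hI]
        exact ih (a + 1) (by omega) hx' _ (Finset.mem_Icc.2 ⟨by omega, hz'⟩)
      · intro j hj hne
        rw [Finset.mem_erase, Finset.mem_Icc] at hj
        have hzero : pm x (((Icc (κ - b) (κ - a)).erase z).erase j) (List.range' (a + 1) n) = 0 := by
          refine zero_of_col hBA x _ _ ?_ (κ - a) ?_ ?_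
          · rw [Finset.card_erase_of_mem (Finset.mem_erase.2 ⟨hj.1, Finset.mem_Icc.2 hj.2⟩),
              Finset.card_erase_of_mem (Finset.mem_Icc.2 hz), Nat.card_Icc, List.length_range']
            omega
          · rw [Finset.mem_erase, Finset.mem_erase, Finset.mem_Icc]
            exact ⟨fun h => hne h.symm, fun h => hza h.symm, by omega, le_rfl⟩
          · intro c hc
            rw [List.mem_range'_1] at hc
            rw [hx _ (by omega) (by omega) c (by omega) (by omega), if_neg (by omega)]
        rw [hzero, mul_zero]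
      · intro h
        refine absurd ?_ h
        rw [Finset.mem_erase, Finset.mem_Icc]
        exact ⟨fun h => hza h.symm, by omega, le_rfl⟩

theorem t (D : Type*) [CommRing D] (hBA : StmBA D) (hBB : StmBB D) : StmSL D := by
  refine ⟨fun x J L hc j hj h => zero_of_col hBA x J L hc j hj h, ?_, ?_⟩
  · intro x κ a b hab hb hx z hz
    exact strip hBA x κ b hb (b - a) a (by omega) hx z hz
  · intro x κ a b i hai hib hb hx z hz z' hz' hne
    rw [Finset.mem_Icc] at hz hz'
    obtain ⟨J, hJ⟩ : ∃ J : Finset ℕ, J = ((Icc (κ - b) (κ - a)).erase z).erase z' := ⟨_, rfl⟩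
    have hmJ : ∀ j, j ∈ J ↔ j ≠ z' ∧ j ≠ z ∧ κ - b ≤ j ∧ j ≤ κ - a := by
      intro j
      rw [hJ, Finset.mem_erase, Finset.mem_erase, Finset.mem_Icc]
    have hsplit : J = (J.filter fun j => κ ≤ j + i) ∪ (J.filter fun j => ¬ κ ≤ j + i) :=
      (Finset.filter_union_filter_not_eq _ _).symm
    have h1 : ∀ j, κ ≤ j + b → j + a ≤ κ → ∀ c, a ≤ c → c < b → c ≠ i →
        ¬ (j + c + 1 = κ ∨ j + c = κ) → x (j + c) = 0 := by
      intro j e1 e2 c e3 e4 e5 e6
      rw [hx j e1 e2 c e3 e4 e5, if_neg e6]
    have hblock : pm x J (List.range' a (i - a) ++ List.range' (i + 1) (b - 1 - i)) =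
        pm x (J.filter fun j => κ ≤ j + i) (List.range' a (i - a)) *
          pm x (J.filter fun j => ¬ κ ≤ j + i) (List.range' (i + 1) (b - 1 - i)) := by
      conv_lhs => rw [hsplit]
      apply hBB
      · exact Finset.disjoint_filter_filter_not _ _ _
      · intro c hc j hj
        rw [List.mem_range'_1] at hc
        rw [Finset.mem_filter, hmJ] at hj
        exact h1 j (by omega) (by omega) c (by omega) (by omega) (by omega) (by omega)
      · intro c hc j hj
        rw [List.mem_range'_1] at hc
        rw [Finset.mem_filter, hmJ] at hj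
        exact h1 j (by omega) (by omega) c (by omega) (by omega) (by omega) (by omega)
    rw [← hJ, hblock]
    have hup : ∀ w ∈ Icc (κ - i) (κ - a),
        pm x ((Icc (κ - i) (κ - a)).erase w) (List.range' a (i - a)) = 1 :=
      strip hBA x κ i (by omega) (i - a) a (by omega)
        (fun j e1 e2 c e3 e4 => hx j (by omega) e2 c e3 (by omega) (by omega))
    have hlo : ∀ w ∈ Icc (κ - b) (κ - (i + 1)),
        pm x ((Icc (κ - b) (κ - (i + 1))).erase w) (List.range' (i + 1) (b - 1 - i)) = 1 :=
      strip hBA x κ b hb (b - 1 - i) (i + 1) (by omega)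
        (fun j e1 e2 c e3 e4 => hx j e1 (by omega) c (by omega) e4 (by omega))
    have card_up : (J.filter fun j => κ ≤ j + i) =
        ((Icc (κ - i) (κ - a)).erase z).erase z' := by
      ext j
      rw [Finset.mem_filter, hmJ, Finset.mem_erase, Finset.mem_erase, Finset.mem_Icc]
      omega
    have card_lo : (J.filter fun j => ¬ κ ≤ j + i) =
        ((Icc (κ - b) (κ - (i + 1))).erase z).erase z' := by
      ext j
      rw [Finset.mem_filter, hmJ, Finset.mem_erase, Finset.mem_erase, Finset.mem_Icc]
      omega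
    rw [card_up, card_lo]
    by_cases c1 : κ ≤ z + i
    · have m1 : z ∈ Icc (κ - i) (κ - a) := Finset.mem_Icc.2 (by omega)
      have n1 : z ∉ Icc (κ - b) (κ - (i + 1)) := by rw [Finset.mem_Icc]; omega
      by_cases c2 : κ ≤ z' + i
      · have m2 : z' ∈ (Icc (κ - i) (κ - a)).erase z :=
          Finset.mem_erase.2 ⟨fun h => hne h.symm, Finset.mem_Icc.2 (by omega)⟩
        rw [if_neg (by omega), hBA.2.2 x (((Icc (κ - i) (κ - a)).erase z).erase z'), zero_mul]
        rw [Finset.card_erase_of_mem m2, Finset.card_erase_of_mem m1, Nat.card_Icc,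
          List.length_range']
        have := Finset.card_pos.2 ⟨z', m2⟩
        rw [Finset.card_erase_of_mem m1, Nat.card_Icc] at this
        omega
      · have n2 : z' ∉ (Icc (κ - i) (κ - a)).erase z := by
          rw [Finset.mem_erase, Finset.mem_Icc]; omega
        have m2 : z' ∈ Icc (κ - b) (κ - (i + 1)) := Finset.mem_Icc.2 (by omega)
        rw [if_pos (by omega), Finset.erase_eq_of_notMem n2, Finset.erase_eq_of_notMem n1,
          hup z m1, hlo z' m2, one_mul]
    · have n1 : z ∉ Icc (κ - i) (κ - a) := by rw [Finset.mem_Icc]; omega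
      have m1 : z ∈ Icc (κ - b) (κ - (i + 1)) := Finset.mem_Icc.2 (by omega)
      by_cases c2 : κ ≤ z' + i
      · have m2 : z' ∈ Icc (κ - i) (κ - a) := Finset.mem_Icc.2 (by omega)
        have n2 : z' ∉ (Icc (κ - b) (κ - (i + 1))).erase z := by
          rw [Finset.mem_erase, Finset.mem_Icc]; omega
        rw [if_pos (by omega), Finset.erase_eq_of_notMem n1, Finset.erase_eq_of_notMem n2,
          hup z' m2, hlo z m1, one_mul]
      · have m2 : z' ∈ (Icc (κ - b) (κ - (i + 1))).erase z :=
          Finset.mem_erase.2 ⟨fun h => hne h.symm, Finset.mem_Icc.2 (by omega)⟩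
        rw [if_neg (by omega), hBA.2.2 x (((Icc (κ - b) (κ - (i + 1))).erase z).erase z'), mul_zero]
        rw [Finset.card_erase_of_mem m2, Finset.card_erase_of_mem m1, Nat.card_Icc,
          List.length_range']
        have := Finset.card_pos.2 ⟨z', m2⟩
        rw [Finset.card_erase_of_mem m1, Nat.card_Icc] at this
        omega

end

end Pool.Agent.N729.HP.SL
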