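import Pool.Agent.N729.HP.Stm

set_option autoImplicit false

namespace Pool.Agent.N729.HP.CN

open Finset
open Pool.Agent.N186.HK (pm pm_nil pm_cons pm_congr)

section

variable {k : Type*} [Field k]

/-- the rows `2, …, K - 1` without `i` -/
def LL (K i : ℕ) : List ℕ := List.range' 2 (i - 2) ++ List.range' (i + 1) (K - 1 - i)

lemma list_range (K : ℕ) (hK : 3 ≤ K) : List.range K = 0 :: 1 :: List.range' 2 (K - 2) := by
  obtain ⟨n, rfl⟩ : ∃ n, K = n + 2 := ⟨K - 2, by omega⟩
  rw [List.range_eq_range', List.range'_succ, List.range'_succ]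
  simp

lemma erase_range' (K i : ℕ) (h2 : 2 ≤ i) (hi : i < K) :
    (List.range' 2 (K - 2)).erase i = LL K i := by
  have h : List.range' 2 (K - 2) =
      List.range' 2 (i - 2) ++ (i :: List.range' (i + 1) (K - 1 - i)) := by
    rw [← List.range'_succ]
    have h1 := List.range'_append (s := 2) (m := i - 2) (n := K - 1 - i + 1) (step := 1)
    rw [show 2 + 1 * (i - 2) = i by omega] at h1
    rw [h1]
    congr 1
    omega
  rw [h, List.erase_append_right _ (by
    rw [List.mem_range'_1]
    omega), List.erase_cons_head]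
  rfl

lemma mem_LL {K i c : ℕ} (h2 : 2 ≤ i) (hi : i < K) (hc : c ∈ LL K i) : 2 ≤ c ∧ c < K ∧ c ≠ i := by
  unfold LL at hc
  rw [List.mem_append, List.mem_range'_1, List.mem_range'_1] at hc
  omega

lemma LL_length {K i : ℕ} (h2 : 2 ≤ i) (hi : i < K) : (LL K i).length = K - 3 := by
  unfold LL
  rw [List.length_append, List.length_range', List.length_range']
  omega

lemma P0 (K : ℕ) (hK : 3 ≤ K) (J : Finset ℕ) (hJ : ∀ j ∈ J, j < K) (L : List ℕ) :
    pm (uN k K) J (0 :: L) = (if 0 ∈ J then pm (uN k K) (J.erase 0) L else 0) -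
      (if 1 ∈ J then pm (uN k K) (J.erase 1) L else 0) +
      (if K - 1 ∈ J then pm (uN k K) (J.erase (K - 1)) L else 0) := by
  classical
  rw [pm_cons]
  have h1 : ∀ j ∈ J, uN k K (j + 0) * pm (uN k K) (J.erase j) L =
      (if j = 0 then pm (uN k K) (J.erase j) L else 0) -
      (if j = 1 then pm (uN k K) (J.erase j) L else 0) +
      (if j = K - 1 then pm (uN k K) (J.erase j) L else 0) := by
    intro j hj
    have := hJ j hj
    unfold uN
    rw [add_zero]
    by_cases a1 : j = 0
    · subst a1
      rw [if_pos rfl, if_pos rfl, if_neg (by omega), if_neg (by omega)]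
      ring
    by_cases a2 : j = 1
    · subst a2
      rw [if_neg a1, if_pos rfl, if_neg a1, if_pos rfl, if_neg (by omega)]
      ring
    by_cases a3 : j = K - 1
    · rw [if_neg a1, if_neg a2, if_pos (by omega), if_neg a1, if_neg a2, if_pos a3]
      ring
    · rw [if_neg a1, if_neg a2, if_neg (by omega), if_neg (by omega), if_neg a1, if_neg a2,
        if_neg a3]
      ring
  rw [Finset.sum_congr rfl h1, Finset.sum_add_distrib, Finset.sum_sub_distrib,
    Finset.sum_ite_eq', Finset.sum_ite_eq', Finset.sum_ite_eq']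

lemma P1 (K : ℕ) (hK : 3 ≤ K) (J : Finset ℕ) (hJ : ∀ j ∈ J, j < K) (L : List ℕ) :
    pm (uN k K) J (1 :: L) = -(if 0 ∈ J then pm (uN k K) (J.erase 0) L else 0) +
      (if K - 2 ∈ J then pm (uN k K) (J.erase (K - 2)) L else 0) +
      (if K - 1 ∈ J then pm (uN k K) (J.erase (K - 1)) L else 0) := by
  classical
  rw [pm_cons]
  have h1 : ∀ j ∈ J, uN k K (j + 1) * pm (uN k K) (J.erase j) L =
      -(if j = 0 then pm (uN k K) (J.erase j) L else 0) +
      (if j = K - 2 then pm (uN k K) (J.erase j) L else 0) +
      (if j = K - 1 then pm (uN k K) (J.erase j) L else 0) := by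
    intro j hj
    have := hJ j hj
    unfold uN
    rw [if_neg (by omega : ¬ j + 1 = 0)]
    by_cases a1 : j = 0
    · rw [if_pos (by omega), if_pos a1, if_neg (by omega), if_neg (by omega)]
      ring
    by_cases a2 : j = K - 2
    · rw [if_neg (by omega), if_pos (by omega), if_neg a1, if_pos a2, if_neg (by omega)]
      ring
    by_cases a3 : j = K - 1
    · rw [if_neg (by omega), if_neg (by omega), if_pos (by omega), if_neg a1, if_neg a2, if_pos a3]
      ring
    · rw [if_neg (by omega), if_neg (by omega), if_neg (by omega), if_neg a1, if_neg a2,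
        if_neg a3]
      ring
  rw [Finset.sum_congr rfl h1, Finset.sum_add_distrib, Finset.sum_add_distrib,
    Finset.sum_neg_distrib, Finset.sum_ite_eq', Finset.sum_ite_eq', Finset.sum_ite_eq']

lemma uN_strip (K j c : ℕ) (hc : 2 ≤ j + c) :
    uN k K (j + c) = if j + c + 1 = K ∨ j + c = K then 1 else 0 := by
  unfold uN
  rw [if_neg (by omega), if_neg (by omega)]
  by_cases a1 : j + c + 1 = K
  · rw [if_pos a1, if_pos (Or.inl a1)]
  by_cases a2 : j + c = K
  · rw [if_neg a1, if_pos a2, if_pos (Or.inr a2)]
  · rw [if_neg a1, if_neg a2, if_neg (by tauto)]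

/-- the column `K - 1` vanishes -/
lemma z0 (hSL : StmSL k) (K : ℕ) (J : Finset ℕ) (L : List ℕ) (hL : ∀ c ∈ L, 2 ≤ c)
    (hJL : J.card ≤ L.length) (hJ : K - 1 ∈ J) (hK : 3 ≤ K) : pm (uN k K) J L = 0 := by
  refine hSL.1 _ _ _ hJL _ hJ fun c hc => ?_
  have := hL c hc
  rw [uN_strip K _ _ (by omega), if_neg (by omega)]

lemma a2 (hSL : StmSL k) (K : ℕ) (hK : 3 ≤ K) (J : Finset ℕ) (z : ℕ) (hz : z ≤ K - 2)
    (hJ : ∀ j, j ∈ J ↔ j ≠ z ∧ j ≤ K - 2) : pm (uN k K) J (List.range' 2 (K - 2)) = 1 := by
  have h := hSL.2.1 (uN k K) K 2 K (by omega) le_rfl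
    (fun j _ hj c hc _ => uN_strip K j c (by omega)) z
    (by rw [Finset.mem_Icc]; omega)
  rw [← h]
  congr 1
  ext j
  rw [hJ, Finset.mem_erase, Finset.mem_Icc]
  omega

/-- the value for two missing columns -/
def II (k : Type*) [Field k] (K i z z' : ℕ) : k :=
  if (z + i < K ∧ K ≤ z' + i) ∨ (z' + i < K ∧ K ≤ z + i) then 1 else 0

lemma b2 (hSL : StmSL k) (K i : ℕ) (hK : 3 ≤ K) (h2 : 2 ≤ i) (hi : i < K) (J : Finset ℕ)
    (z z' : ℕ) (hz : z ≤ K - 2) (hz' : z' ≤ K - 2) (hzz : z ≠ z')
    (hJ : ∀ j, j ∈ J ↔ j ≠ z' ∧ j ≠ z ∧ j ≤ K - 2) :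
    pm (uN k K) J (LL K i) = II k K i z z' := by
  have h := hSL.2.2 (uN k K) K 2 K i h2 hi le_rfl
    (fun j _ hj c hc _ _ => uN_strip K j c (by omega)) z
    (by rw [Finset.mem_Icc]; omega) z' (by rw [Finset.mem_Icc]; omega) hzz
  unfold II
  rw [← h]
  unfold LL
  congr 1
  ext j
  rw [hJ, Finset.mem_erase, Finset.mem_erase, Finset.mem_Icc]
  omega

lemma c1 (hSL : StmSL k) (K z : ℕ) (hK : 3 ≤ K) (hz : z < K) :
    pm (uN k K) ((range K).erase z) (1 :: List.range' 2 (K - 2)) = if z + 1 = K then 0 else 1 := by
  have hL : ∀ c ∈ List.range' 2 (K - 2), 2 ≤ c := by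
    intro c hc
    rw [List.mem_range'_1] at hc
    exact hc.1
  have hcard : ∀ j ∈ (range K).erase z, (((range K).erase z).erase j).card ≤
      (List.range' 2 (K - 2)).length := by
    intro j hj
    rw [Finset.card_erase_of_mem hj, Finset.card_erase_of_mem (Finset.mem_range.2 hz),
      Finset.card_range, List.length_range']
    omega
  rw [P1 K hK _ (fun j hj => Finset.mem_range.1 (Finset.mem_of_mem_erase hj))]
  have m : ∀ j, j ∈ (range K).erase z ↔ j ≠ z ∧ j < K := fun j => by
    rw [Finset.mem_erase, Finset.mem_range]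
  by_cases hzK : z + 1 = K
  · rw [if_pos hzK, if_pos ((m _).2 (by omega)), if_pos ((m _).2 (by omega)),
      if_neg (fun h => by have := (m _).1 h; omega),
      a2 hSL K hK _ 0 (by omega) (fun j => by rw [Finset.mem_erase, m]; omega),
      a2 hSL K hK _ (K - 2) (by omega) (fun j => by rw [Finset.mem_erase, m]; omega)]
    ring
  · have e1 : (if 0 ∈ (range K).erase z then
        pm (uN k K) (((range K).erase z).erase 0) (List.range' 2 (K - 2)) else 0) = 0 := by
      by_cases h : 0 ∈ (range K).erase z
      · rw [if_pos h]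
        refine z0 hSL K _ _ hL (hcard _ h) ?_ hK
        rw [Finset.mem_erase, m]
        omega
      · rw [if_neg h]
    have e2 : (if K - 2 ∈ (range K).erase z then
        pm (uN k K) (((range K).erase z).erase (K - 2)) (List.range' 2 (K - 2)) else 0) = 0 := by
      by_cases h : K - 2 ∈ (range K).erase z
      · rw [if_pos h]
        refine z0 hSL K _ _ hL (hcard _ h) ?_ hK
        rw [Finset.mem_erase, m]
        omega
      · rw [if_neg h]
    rw [e1, e2, if_neg hzK, if_pos ((m _).2 (by omega)),
      a2 hSL K hK _ z (by omega) (fun j => by rw [Finset.mem_erase, m]; omega)]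
    ring

lemma c0 (hSL : StmSL k) (K z : ℕ) (hK : 3 ≤ K) (hz : z < K) :
    pm (uN k K) ((range K).erase z) (0 :: List.range' 2 (K - 2)) = if z + 1 = K then 0 else 1 := by
  have hL : ∀ c ∈ List.range' 2 (K - 2), 2 ≤ c := by
    intro c hc
    rw [List.mem_range'_1] at hc
    exact hc.1
  have hcard : ∀ j ∈ (range K).erase z, (((range K).erase z).erase j).card ≤
      (List.range' 2 (K - 2)).length := by
    intro j hj
    rw [Finset.card_erase_of_mem hj, Finset.card_erase_of_mem (Finset.mem_range.2 hz),
      Finset.card_range, List.length_range']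
    omega
  rw [P0 K hK _ (fun j hj => Finset.mem_range.1 (Finset.mem_of_mem_erase hj))]
  have m : ∀ j, j ∈ (range K).erase z ↔ j ≠ z ∧ j < K := fun j => by
    rw [Finset.mem_erase, Finset.mem_range]
  by_cases hzK : z + 1 = K
  · rw [if_pos hzK, if_pos ((m _).2 (by omega)), if_pos ((m _).2 (by omega)),
      if_neg (fun h => by have := (m _).1 h; omega),
      a2 hSL K hK _ 0 (by omega) (fun j => by rw [Finset.mem_erase, m]; omega),
      a2 hSL K hK _ 1 (by omega) (fun j => by rw [Finset.mem_erase, m]; omega)]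
    ring
  · have e1 : (if 0 ∈ (range K).erase z then
        pm (uN k K) (((range K).erase z).erase 0) (List.range' 2 (K - 2)) else 0) = 0 := by
      by_cases h : 0 ∈ (range K).erase z
      · rw [if_pos h]
        refine z0 hSL K _ _ hL (hcard _ h) ?_ hK
        rw [Finset.mem_erase, m]
        omega
      · rw [if_neg h]
    have e2 : (if 1 ∈ (range K).erase z then
        pm (uN k K) (((range K).erase z).erase 1) (List.range' 2 (K - 2)) else 0) = 0 := by
      by_cases h : 1 ∈ (range K).erase z
      · rw [if_pos h]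
        refine z0 hSL K _ _ hL (hcard _ h) ?_ hK
        rw [Finset.mem_erase, m]
        omega
      · rw [if_neg h]
    rw [e1, e2, if_neg hzK, if_pos ((m _).2 (by omega)),
      a2 hSL K hK _ z (by omega) (fun j => by rw [Finset.mem_erase, m]; omega)]
    ring

lemma E1 (hSL : StmSL k) (K i l z : ℕ) (hK : 3 ≤ K) (h2 : 2 ≤ i) (hi : i < K) (hl : l ≤ K - 2)
    (hz : z ≤ K - 2) (hlz : l ≠ z) :
    pm (uN k K) (((range K).erase l).erase z) (1 :: LL K i) = II k K i l z := by
  have hL : ∀ c ∈ LL K i, 2 ≤ c := fun c hc => (mem_LL h2 hi hc).1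
  have m : ∀ j, j ∈ ((range K).erase l).erase z ↔ j ≠ z ∧ j ≠ l ∧ j < K := fun j => by
    rw [Finset.mem_erase, Finset.mem_erase, Finset.mem_range]
  have hcard : ∀ j ∈ ((range K).erase l).erase z, ((((range K).erase l).erase z).erase j).card ≤
      (LL K i).length := by
    intro j hj
    rw [Finset.card_erase_of_mem hj, Finset.card_erase_of_mem
      (by rw [Finset.mem_erase, Finset.mem_range]; omega),
      Finset.card_erase_of_mem (Finset.mem_range.2 (by omega)),
      Finset.card_range, LL_length h2 hi]
    omega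
  rw [P1 K hK _ (fun j hj => ((m j).1 hj).2.2)]
  have e1 : (if 0 ∈ ((range K).erase l).erase z then
      pm (uN k K) ((((range K).erase l).erase z).erase 0) (LL K i) else 0) = 0 := by
    by_cases h : 0 ∈ ((range K).erase l).erase z
    · rw [if_pos h]
      refine z0 hSL K _ _ hL (hcard _ h) ?_ hK
      rw [Finset.mem_erase, m]
      omega
    · rw [if_neg h]
  have e2 : (if K - 2 ∈ ((range K).erase l).erase z then
      pm (uN k K) ((((range K).erase l).erase z).erase (K - 2)) (LL K i) else 0) = 0 := by
    by_cases h : K - 2 ∈ ((range K).erase l).erase z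
    · rw [if_pos h]
      refine z0 hSL K _ _ hL (hcard _ h) ?_ hK
      rw [Finset.mem_erase, m]
      omega
    · rw [if_neg h]
  rw [e1, e2, if_pos ((m _).2 (by omega)),
    b2 hSL K i hK h2 hi _ l z hl hz hlz (fun j => by rw [Finset.mem_erase, m]; omega)]
  ring

lemma E2 (hSL : StmSL k) (K i w : ℕ) (hK : 3 ≤ K) (h2 : 2 ≤ i) (hi : i < K) (hw : w ≤ K - 2)
    (J : Finset ℕ) (m : ∀ j, j ∈ J ↔ j ≠ w ∧ j ≤ K - 2) :
    pm (uN k K) J (1 :: LL K i) =
      -(if w = 0 then 0 else II k K i w 0) + (if w = K - 2 then 0 else II k K i w (K - 2)) := by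
  rw [P1 K hK _ (fun j hj => by have := (m j).1 hj; omega)]
  rw [if_neg (fun h : K - 1 ∈ J => by have := (m _).1 h; omega)]
  have e1 : (if 0 ∈ J then pm (uN k K) (J.erase 0) (LL K i) else 0) =
      if w = 0 then 0 else II k K i w 0 := by
    by_cases h : w = 0
    · rw [if_pos h, if_neg (fun h : 0 ∈ J => by have := (m _).1 h; omega)]
    · rw [if_neg h, if_pos ((m _).2 (by omega)),
        b2 hSL K i hK h2 hi _ w 0 hw (by omega) h (fun j => by rw [Finset.mem_erase, m])]
  have e2 : (if K - 2 ∈ J then pm (uN k K) (J.erase (K - 2)) (LL K i) else 0) =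
      if w = K - 2 then 0 else II k K i w (K - 2) := by
    by_cases h : w = K - 2
    · rw [if_pos h, if_neg (fun h : K - 2 ∈ J => by have := (m _).1 h; omega)]
    · rw [if_neg h, if_pos ((m _).2 (by omega)),
        b2 hSL K i hK h2 hi _ w (K - 2) hw (by omega) h (fun j => by rw [Finset.mem_erase, m])]
  rw [e1, e2]
  ring

lemma last (hSL : StmSL k) (K i l : ℕ) (hK : 3 ≤ K) (h2 : 2 ≤ i) (hi : i < K) (hl : l < K) :
    pm (uN k K) ((range K).erase l) (0 :: 1 :: LL K i) =
      if i + 1 = K ∧ l + 1 = K then 2 else if i + 1 = K ∨ l + 1 = K then 0 else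
        if i + l < K then 1 else -1 := by
  have m : ∀ j, j ∈ (range K).erase l ↔ j ≠ l ∧ j < K := fun j => by
    rw [Finset.mem_erase, Finset.mem_range]
  rw [P0 K hK _ (fun j hj => ((m j).1 hj).2)]
  by_cases hlK : l = K - 1
  · rw [if_pos ((m _).2 (by omega)), if_pos ((m _).2 (by omega)),
      if_neg (fun h => by have := (m _).1 h; omega),
      E2 hSL K i 0 hK h2 hi (by omega) _ (fun j => by rw [Finset.mem_erase, m]; omega),
      E2 hSL K i 1 hK h2 hi (by omega) _ (fun j => by rw [Finset.mem_erase, m]; omega)]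
    unfold II
    split_ifs <;> first | (exfalso; omega) | ring
  · have f0 : (if 0 ∈ (range K).erase l then
        pm (uN k K) (((range K).erase l).erase 0) (1 :: LL K i) else 0) =
        if l = 0 then 0 else II k K i l 0 := by
      by_cases h : l = 0
      · rw [if_pos h, if_neg (fun h => by have := (m _).1 h; omega)]
      · rw [if_neg h, if_pos ((m _).2 (by omega)),
          E1 hSL K i l 0 hK h2 hi (by omega) (by omega) h]
    have f1 : (if 1 ∈ (range K).erase l then
        pm (uN k K) (((range K).erase l).erase 1) (1 :: LL K i) else 0) =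
        if l = 1 then 0 else II k K i l 1 := by
      by_cases h : l = 1
      · rw [if_pos h, if_neg (fun h => by have := (m _).1 h; omega)]
      · rw [if_neg h, if_pos ((m _).2 (by omega)),
          E1 hSL K i l 1 hK h2 hi (by omega) (by omega) h]
    rw [f0, f1, if_pos ((m _).2 (by omega)),
      E2 hSL K i l hK h2 hi (by omega) _ (fun j => by rw [Finset.mem_erase, m]; omega)]
    unfold II
    split_ifs <;> first | (exfalso; omega) | ring

end

theorem t (k : Type*) [Field k] (hSL : StmSL k) (hCX : StmCX k) : StmCN k := by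
  intro K hK
  have hrange : List.range K = 0 :: 1 :: List.range' 2 (K - 2) := list_range K hK
  have hX : ∀ s, s + 4 ≤ 2 * K → uN k K (s + 1) = uX k (K - 1) s := by
    intro s hs
    unfold uN uX
    rw [if_neg (by omega : ¬ s + 1 = 0)]
    by_cases b0 : s = 0
    · rw [if_pos (by omega), if_pos b0]
    by_cases b1 : s + 1 = K - 1
    · rw [if_neg (by omega), if_pos (by omega), if_neg b0, if_pos b1]
    by_cases b2 : s = K - 1
    · rw [if_neg (by omega), if_neg (by omega), if_pos (by omega), if_neg b0, if_neg b1, if_pos b2]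
    · rw [if_neg (by omega), if_neg (by omega), if_neg (by omega), if_neg b0, if_neg b1, if_neg b2,
        if_neg (by omega)]
  obtain ⟨x1, x2, -⟩ := hCX (K - 1) (by omega)
  refine ⟨?_, ?_, ?_, ?_, ?_⟩
  · rw [hrange, P0 K hK _ (fun j hj => Finset.mem_range.1 hj),
      if_pos (Finset.mem_range.2 (by omega)), if_pos (Finset.mem_range.2 (by omega)),
      if_pos (Finset.mem_range.2 (by omega)), c1 hSL K 0 hK (by omega), c1 hSL K 1 hK (by omega),
      c1 hSL K (K - 1) hK (by omega), if_neg (by omega), if_neg (by omega), if_pos (by omega)]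
    ring
  · intro i hi l hl
    by_cases i0 : i = 0
    · subst i0
      rw [hrange, List.erase_cons_head, c1 hSL K l hK hl]
      split_ifs <;> first | (exfalso; omega) | rfl
    by_cases i1 : i = 1
    · subst i1
      rw [hrange, List.erase_cons_tail (by simp), List.erase_cons_head, c0 hSL K l hK hl]
      split_ifs <;> first | (exfalso; omega) | rfl
    · have e : (List.range K).erase i = 0 :: 1 :: LL K i := by
        rw [hrange, List.erase_cons_tail (by simpa using Ne.symm i0),
          List.erase_cons_tail (by simpa using Ne.symm i1), erase_range' K i (by omega) hi]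
      rw [e]
      exact last hSL K i l hK (by omega) hi hl
  · rw [← x1]
    refine pm_congr _ _ fun i hi c hc => hX _ ?_
    rw [Finset.mem_range] at hi
    rw [List.mem_range] at hc
    omega
  · intro i hi l hl
    rw [← show _ = (if i + l + 1 < K then (1 : k) else -1) from
      (x2 i hi l hl).trans (by split_ifs <;> first | (exfalso; omega) | rfl)]
    refine pm_congr _ _ fun j hj c hc => hX _ ?_
    have h1 := Finset.mem_range.1 (Finset.mem_of_mem_erase hj)
    have h2 := List.mem_range.1 (List.mem_of_mem_erase hc)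
    omega
  · intro l hl
    have hr2 : List.range (K - 1) = 0 :: List.range' 1 (K - 2) := by
      obtain ⟨n, rfl⟩ : ∃ n, K = n + 2 := ⟨K - 2, by omega⟩
      rw [List.range_eq_range', show n + 2 - 1 = n + 1 by omega, List.range'_succ]
      simp
    have hstrip : ∀ j c, 1 ≤ j + c → uN k K (j + c + 1) =
        if j + c + 1 = K - 1 ∨ j + c = K - 1 then 1 else 0 := by
      intro j c hc
      have := uN_strip (k := k) K j (c + 1) (by omega)
      rw [← add_assoc] at this
      rw [this]
      by_cases h : j + c + 1 + 1 = K ∨ j + c + 1 = K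
      · rw [if_pos h, if_pos (by omega)]
      · rw [if_neg h, if_neg (by omega)]
    have m : ∀ j, j ∈ (range K).erase l ↔ j ≠ l ∧ j < K := fun j => by
      rw [Finset.mem_erase, Finset.mem_range]
    have ha : ∀ (J : Finset ℕ) (z : ℕ), z ≤ K - 2 → (∀ j, j ∈ J ↔ j ≠ z ∧ j ≤ K - 2) →
        pm (fun s => uN k K (s + 1)) J (List.range' 1 (K - 2)) = 1 := by
      intro J z hz hJ
      have h := hSL.2.1 (fun s => uN k K (s + 1)) (K - 1) 1 (K - 1) (by omega) le_rfl
        (fun j _ hj c hc _ => hstrip j c (by omega)) z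
        (by rw [Finset.mem_Icc]; omega)
      rw [← h]
      congr 1
      ext j
      rw [hJ, Finset.mem_erase, Finset.mem_Icc]
      omega
    rw [hr2, pm_cons]
    have h1 : ∀ j ∈ (range K).erase l, uN k K (j + 0 + 1) *
        pm (fun s => uN k K (s + 1)) (((range K).erase l).erase j) (List.range' 1 (K - 2)) =
        -(if j = 0 then
          pm (fun s => uN k K (s + 1)) (((range K).erase l).erase j) (List.range' 1 (K - 2)) else 0) +
        (if j = K - 2 then
          pm (fun s => uN k K (s + 1)) (((range K).erase l).erase j) (List.range' 1 (K - 2)) else 0) +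
        (if j = K - 1 then
          pm (fun s => uN k K (s + 1)) (((range K).erase l).erase j) (List.range' 1 (K - 2))
          else 0) := by
      intro j hj
      have := (m j).1 hj
      unfold uN
      rw [if_neg (by omega : ¬ j + 0 + 1 = 0)]
      by_cases a1 : j = 0
      · rw [if_pos (by omega), if_pos a1, if_neg (by omega), if_neg (by omega)]
        ring
      by_cases a2 : j = K - 2
      · rw [if_neg (by omega), if_pos (by omega), if_neg a1, if_pos a2, if_neg (by omega)]
        ring
      by_cases a3 : j = K - 1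
      · rw [if_neg (by omega), if_neg (by omega), if_pos (by omega), if_neg a1, if_neg a2,
          if_pos a3]
        ring
      · rw [if_neg (by omega), if_neg (by omega), if_neg (by omega), if_neg a1, if_neg a2,
          if_neg a3]
        ring
    rw [Finset.sum_congr rfl h1, Finset.sum_add_distrib, Finset.sum_add_distrib,
      Finset.sum_neg_distrib, Finset.sum_ite_eq', Finset.sum_ite_eq', Finset.sum_ite_eq']
    have hzero : ∀ z, z ∈ (range K).erase l → z ≤ K - 2 → l ≠ K - 1 →
        pm (fun s => uN k K (s + 1)) (((range K).erase l).erase z) (List.range' 1 (K - 2)) = 0 := by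
      intro z hz hz2 hlK
      refine hSL.1 _ _ _ ?_ (K - 1) ?_ fun c hc => ?_
      · rw [Finset.card_erase_of_mem hz, Finset.card_erase_of_mem (Finset.mem_range.2 hl),
          Finset.card_range, List.length_range']
        omega
      · rw [Finset.mem_erase, m]
        omega
      · rw [List.mem_range'_1] at hc
        rw [hstrip _ _ (by omega), if_neg (by omega)]
    by_cases hlK : l = K - 1
    · rw [if_pos ((m _).2 (by omega)), if_pos ((m _).2 (by omega)),
        if_neg (fun h => by have := (m _).1 h; omega), if_pos (by omega),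
        ha _ 0 (by omega) (fun j => by rw [Finset.mem_erase, m]; omega),
        ha _ (K - 2) (by omega) (fun j => by rw [Finset.mem_erase, m]; omega)]
      ring
    · have e1 : (if 0 ∈ (range K).erase l then
          pm (fun s => uN k K (s + 1)) (((range K).erase l).erase 0) (List.range' 1 (K - 2))
          else 0) = 0 := by
        by_cases h : 0 ∈ (range K).erase l
        · rw [if_pos h, hzero _ h (by omega) hlK]
        · rw [if_neg h]
      have e2 : (if K - 2 ∈ (range K).erase l then
          pm (fun s => uN k K (s + 1)) (((range K).erase l).erase (K - 2)) (List.range' 1 (K - 2))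
          else 0) = 0 := by
        by_cases h : K - 2 ∈ (range K).erase l
        · rw [if_pos h, hzero _ h (by omega) hlK]
        · rw [if_neg h]
      rw [e1, e2, if_pos ((m _).2 (by omega)), if_neg (by omega),
        ha _ l (by omega) (fun j => by rw [Finset.mem_erase, m]; omega)]
      ring

end Pool.Agent.N729.HP.CN
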