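import Pool.Agent.N729.HP.Stm

/-!
Project HN, part FA: assembly, not prime for `t < m ≤ n ≤ 2 t - 3` (helper747).
-/

set_option autoImplicit false

namespace Pool.Agent.N729.HP.FA

open Finset
open Pool.Agent.N186.HK (pm vm IsHankel)
open Pool.Agent.R831.PermIdeal (permIdeal)

theorem t (k : Type*) [Field k] (hJC : StmJC k) (hLX : StmLX k) (hPX : StmPX k) (hLN : StmLN k)
    (hPN : StmPN k) : StmFA k := by
  intro h2 N n m t h htm hmn hnt
  obtain ⟨a, ha⟩ : ∃ a, a = m - t := ⟨_, rfl⟩
  obtain ⟨g, hg⟩ : ∃ g, g = n - t + 1 := ⟨_, rfl⟩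
  have hg0 : 0 < g := by omega
  obtain ⟨K', hK'⟩ : ∃ K', K' = (m - 1) / g := ⟨_, rfl⟩
  obtain ⟨μ, hμ⟩ : ∃ μ, μ = (m - 1) % g + 1 := ⟨_, rfl⟩
  have hmod : (m - 1) % g < g := Nat.mod_lt _ hg0
  have hdiv : g * K' + (m - 1) % g = m - 1 := by rw [hK']; exact Nat.div_add_mod _ _
  have em : g * K' + μ = m := by omega
  obtain ⟨K, hK⟩ : ∃ K, K = K' + 1 := ⟨_, rfl⟩
  have eK : g * K = g * K' + g := by rw [hK]; ring
  have eK1 : K - 1 = K' := by omega
  by_cases hc : a + 1 ≤ μ
  · obtain ⟨ν, hν⟩ : ∃ ν, μ = ν + a + 1 := ⟨μ - a - 1, by omega⟩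
    have hKge : 1 ≤ K' := by
      by_contra hcon
      have e0 : K' = 0 := by omega
      rw [e0, mul_zero] at em
      omega
    obtain ⟨hmem, hrel⟩ := hPX h2 a ν μ g K (by omega) hν (by omega) (by omega)
    obtain ⟨S, hS, hSy⟩ := hLX a ν μ g K (by omega) hν (by omega) (by omega)
    have em' : g * (K - 1) + μ = m := by rw [eK1]; exact em
    have et : g * (K - 1) + ν + 1 = t := by rw [eK1]; omega
    have en : g * K + ν = n := by omega
    rw [em', et, en] at hmem hrel
    rw [et] at hS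
    rw [em', en] at hSy
    exact hJC N n m t h (by omega) (by omega) (by omega) _ hmem S hS
      (fun y hy hpd v hv => hSy y hy (hrel y hpd) v (by omega))
  · have hKge : 2 ≤ K' := by
      by_contra hcon
      have h3 : K' = 0 ∨ K' = 1 := by omega
      rcases h3 with e0 | e0
      · rw [e0, mul_zero] at em
        omega
      · rw [e0, mul_one] at em
        omega
    have em' : g * (K - 1) + μ = m := by rw [eK1]; exact em
    have h4 : t + a = g * (K - 1) + μ := by rw [em']; omega
    have h5 : n + a + 1 = g * K + μ := by omega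
    obtain ⟨hmem, hrel⟩ := hPN h2 a μ g K t n (by omega) (by omega) (by omega) (by omega) h4 h5
    obtain ⟨S, hS, hSy⟩ := hLN a μ g K t (by omega) (by omega) (by omega) (by omega) h4
    rw [em'] at hmem hrel hSy
    exact hJC N n m t h (by omega) (by omega) (by omega) _ hmem S hS
      (fun y hy hpd v hv => hSy y hy (hrel y hpd) v (by omega))

end Pool.Agent.N729.HP.FA
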