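import Pool.Agent.N729.HP.Stm

/-!
# Project HN (helper729), part JB: lower bound for the transcendence degree (helper769)
-/

set_option autoImplicit false

namespace Pool.Agent.N729.HP.JB

open Finset MvPolynomial
open Pool.Agent.N186.HK (pm vm IsHankel)
open Pool.Agent.R831.PermIdeal (permIdeal permIdeal_le_ker X_notMem)

/-- the sum of the values of an injective function -/
lemma sum_inj {t : ℕ} (f : Fin t → ℕ) (hf : Function.Injective f) :
    t * (t - 1) ≤ 2 * ∑ i, f i := by
  set s : Finset ℤ := univ.image fun i => (f i : ℤ) with hs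
  have hinj : Function.Injective fun i => (f i : ℤ) := fun a b h => hf (Int.ofNat_inj.1 h)
  have hcard : s.card = t := by
    rw [hs, card_image_of_injective _ hinj, card_univ, Fintype.card_fin]
  have h1 := sum_range_le_sum (s := s) (c := 0) (by
    intro x hx
    rw [hs, mem_image] at hx
    obtain ⟨i, _, rfl⟩ := hx
    exact Int.natCast_nonneg _)
  rw [hcard, hs, sum_image (fun a _ b _ h => hinj h)] at h1
  simp only [zero_add] at h1
  have h2 : ∑ i ∈ range t, i ≤ ∑ i, f i := by
    zify
    exact h1
  have h3 := sum_range_id_mul_two t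
  omega

/-- some index is large -/
lemma large {t : ℕ} (ht : 2 ≤ t) (r c : Fin t → ℕ) (hr : Function.Injective r)
    (hc : Function.Injective c) : ∃ i, t - 1 ≤ r i + c i := by
  by_contra hcon
  push Not at hcon
  have h1 : ∑ i : Fin t, (r i + c i) ≤ ∑ _i : Fin t, (t - 2) :=
    sum_le_sum fun i _ => by have := hcon i; omega
  rw [sum_add_distrib, sum_const, card_univ, Fintype.card_fin, smul_eq_mul] at h1
  have h2 := sum_inj r hr
  have h3 := sum_inj c hc
  obtain ⟨u, rfl⟩ : ∃ u, t = u + 2 := ⟨t - 2, by omega⟩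
  have e1 : u + 2 - 1 = u + 1 := by omega
  have e2 : u + 2 - 2 = u := by omega
  rw [e1] at h2 h3
  rw [e2] at h1
  nlinarith

section

variable {k : Type*} [Field k]

/-- a polynomial which vanishes if one variable is zero is divisible by the variable -/
lemma dvd_of_zero {σ : Type*} [DecidableEq σ] (l : σ) (f : MvPolynomial σ k)
    (hf : aeval (fun i => if i = l then (0 : MvPolynomial σ k) else X i) f = 0) : X l ∣ f := by
  rw [← Ideal.mem_span_singleton, ← Ideal.Quotient.eq_zero_iff_mem]
  have h1 : (Ideal.Quotient.mkₐ k (Ideal.span {(X l : MvPolynomial σ k)})).comp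
      (aeval (fun i => if i = l then (0 : MvPolynomial σ k) else X i)) =
      Ideal.Quotient.mkₐ k (Ideal.span {(X l : MvPolynomial σ k)}) := by
    apply MvPolynomial.algHom_ext
    intro i
    rw [AlgHom.comp_apply, aeval_X]
    by_cases h : i = l
    · rw [if_pos h, map_zero, h]
      symm
      rw [Ideal.Quotient.mkₐ_eq_mk, Ideal.Quotient.eq_zero_iff_mem]
      exact Ideal.subset_span (Set.mem_singleton _)
    · rw [if_neg h]
  have h2 := congrArg (fun φ => φ f) h1
  simp only [AlgHom.comp_apply] at h2
  rw [hf, map_zero, Ideal.Quotient.mkₐ_eq_mk] at h2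
  exact h2.symm

variable {N n m t : ℕ} (h : N + 1 = n + m)

/-- the specialization kills the ideal -/
lemma le_ker (ht : 2 ≤ t) {S : Type*} [CommRing S] (φ : MvPolynomial (Fin N) k →+* S)
    (hφ : ∀ v : Fin N, t - 1 ≤ v.val → φ (X v) = 0) :
    permIdeal t (vm k (hk h)) ≤ RingHom.ker φ := by
  apply permIdeal_le_ker
  intro r c
  unfold Matrix.permanent
  refine sum_eq_zero fun s _ => ?_
  obtain ⟨i, hi⟩ := large ht (fun i => (r (s i)).val) (fun i => (c i).val)
    (fun a b hab => s.injective (r.injective (Fin.ext hab)))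
    (fun a b hab => c.injective (Fin.ext hab))
  refine prod_eq_zero (mem_univ i) ?_
  exact hφ _ hi

lemma inj_aux (ht : 2 ≤ t) (htN : t ≤ N) (hP : (permIdeal t (vm k (hk h))).IsPrime) :
    ∀ (D : ℕ) (f : MvPolynomial (Fin t) k), f.totalDegree ≤ D →
      rename (Fin.castLE htN) f ∈ permIdeal t (vm k (hk h)) → f = 0 := by
  classical
  intro D
  induction D with
  | zero =>
    intro f hf hfP
    by_contra hf0
    rw [Nat.le_zero, totalDegree_eq_zero_iff_eq_C] at hf
    rw [hf, rename_C] at hfP
    have h1 : f.coeff 0 ≠ 0 := fun h0 => hf0 (by rw [hf, h0, map_zero])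
    have h2 : IsUnit (C (f.coeff 0) : MvPolynomial (Fin N) k) :=
      (IsUnit.mk0 _ h1).map C
    exact hP.ne_top (Ideal.eq_top_of_isUnit_mem _ hfP h2)
  | succ D ih =>
    intro f hf hfP
    by_contra hf0
    obtain ⟨l, hl⟩ : ∃ l : Fin t, l.val = t - 1 := ⟨⟨t - 1, by omega⟩, rfl⟩
    -- the specialization
    set φ : MvPolynomial (Fin N) k →ₐ[k] MvPolynomial (Fin t) k :=
      aeval (fun v : Fin N => if hv : v.val < t - 1 then X ⟨v.val, by omega⟩ else 0) with hφ
    have h1 := le_ker h ht φ.toRingHom (fun v hv => by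
      show φ (X v) = 0
      rw [hφ, aeval_X, dif_neg (by omega)]) hfP
    rw [RingHom.mem_ker] at h1
    have h2 : φ (rename (Fin.castLE htN) f) = 0 := h1
    have h3 : φ (rename (Fin.castLE htN) f) =
        aeval (fun i => if i = l then (0 : MvPolynomial (Fin t) k) else X i) f := by
      rw [hφ, aeval_rename]
      congr 2
      funext i
      simp only [Function.comp_apply, Fin.val_castLE]
      by_cases hi : i = l
      · rw [if_pos hi, dif_neg (by rw [hi, hl]; omega)]
      · have h4 : i.val ≠ l.val := fun h5 => hi (Fin.ext h5)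
        have h5 := i.isLt
        rw [if_neg hi, dif_pos (by omega)]
    rw [h3] at h2
    obtain ⟨g, rfl⟩ := dvd_of_zero l f h2
    have hg0 : g ≠ 0 := fun h0 => hf0 (by rw [h0, mul_zero])
    rw [totalDegree_mul_of_isDomain (X_ne_zero l) hg0, totalDegree_X] at hf
    rw [map_mul, rename_X] at hfP
    rcases hP.mem_or_mem hfP with h4 | h4
    · exact X_notMem ht (hk h) _ h4
    · exact hg0 (ih g (by omega) h4)

end

theorem t (k : Type*) [Field k] : StmJB k := by
  intro N n m t h ht htn htm hP
  have htN : t ≤ N := by omega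
  have hai : AlgebraicIndependent k (fun i : Fin t =>
      Ideal.Quotient.mk (permIdeal t (vm k (hk h))) (X (Fin.castLE htN i))) := by
    rw [algebraicIndependent_iff]
    intro f hf
    refine inj_aux h ht htN hP f.totalDegree f le_rfl ?_
    rw [← Ideal.Quotient.eq_zero_iff_mem]
    have e : (aeval (fun i : Fin t => Ideal.Quotient.mk (permIdeal t (vm k (hk h)))
        (X (Fin.castLE htN i) : MvPolynomial (Fin N) k))) f =
        Ideal.Quotient.mkₐ k (permIdeal t (vm k (hk h))) (rename (Fin.castLE htN) f) := by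
      have e1 : (aeval (fun i : Fin t => Ideal.Quotient.mk (permIdeal t (vm k (hk h)))
          (X (Fin.castLE htN i) : MvPolynomial (Fin N) k))) =
          (Ideal.Quotient.mkₐ k (permIdeal t (vm k (hk h)))).comp (rename (Fin.castLE htN)) := by
        apply MvPolynomial.algHom_ext
        intro i
        rw [aeval_X, AlgHom.comp_apply, rename_X]
        rfl
      rw [e1]
      rfl
    rw [e] at hf
    exact hf
  have h1 := hai.lift_cardinalMk_le_trdeg
  rw [Cardinal.mk_fin] at h1
  simpa using h1

end Pool.Agent.N729.HP.JB
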