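import Pool.Agent.N729.HP.Stm

/-! Project HN (helper729): linear algebra for the second family (helper434). -/

set_option autoImplicit false

namespace Pool.Agent.N729.HP.LN

open Finset

section

variable {k : Type*} [Field k]

/-- windows -/
lemma win {f : ℕ → k} {q : ℕ} (hW : ∀ i, i ≤ q + 1 → ∑ l ∈ range (q + 1), f (i + l) = 0)
    (h0 : ∀ i, i < q → f i = 0) : ∀ i, i ≤ 2 * q + 1 → f i = 0 := by
  have hq : f q = 0 := by
    have h1 := hW 0 (by omega)
    rw [sum_range_succ, zero_add, sum_eq_zero, zero_add] at h1
    · exact h1
    · intro l hl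
      rw [zero_add]
      exact h0 l (mem_range.1 hl)
  have hle : ∀ i, i ≤ q → f i = 0 := by
    intro i hi
    rcases Nat.lt_or_ge i q with h | h
    · exact h0 i h
    · rw [show i = q by omega]
      exact hq
  intro i hi
  rcases Nat.lt_or_ge q i with h | h
  · obtain ⟨j, rfl⟩ : ∃ j, i = j + (q + 1) := ⟨i - (q + 1), by omega⟩
    have h1 := hW j (by omega)
    have h2 := hW (j + 1) (by omega)
    have h3 : ∑ l ∈ range (q + 1 + 1), f (j + l) = ∑ l ∈ range (q + 1), f (j + l) + f (j + (q + 1)) :=
      sum_range_succ _ _
    have h4 : ∑ l ∈ range (q + 1 + 1), f (j + l) = ∑ l ∈ range (q + 1), f (j + (l + 1)) + f (j + 0) :=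
      sum_range_succ' _ _
    have h5 : ∑ l ∈ range (q + 1), f (j + (l + 1)) = ∑ l ∈ range (q + 1), f (j + 1 + l) :=
      sum_congr rfl fun l _ => by rw [show j + (l + 1) = j + 1 + l by omega]
    rw [h5, h2, h3, h1, zero_add, zero_add, add_zero, hle j (by omega)] at h4
    exact h4
  · exact hle i h

/-- the set of coordinates -/
def SS (a μ g q : ℕ) : Finset ℕ :=
  (Icc 2 (2 * q + 2)).image (fun i => μ - 1 + g * i) ∪ range (μ - 1) ∪
    (range (2 * μ - a - 2)).image (fun s => s + g * (2 * q + 3)) ∪
    (Ico μ (min g (g + 2 * μ - a - 2))).image (fun s => s + g * (2 * q + 2)) ∪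
    (Ico (a + μ) (g + μ - a - 1) ×ˢ range q).image (fun p => p.1 + g * p.2)

lemma card_SS {a μ g q t : ℕ} (hμ : 1 ≤ μ) (hμa : μ ≤ a) (hag : a < g) (hq : 1 ≤ q)
    (ht : t + a = g * (q + 1) + μ) : (SS a μ g q).card < t := by
  have h1 : (SS a μ g q).card ≤ (2 * q + 1) + (μ - 1) + (2 * μ - a - 2) +
      (min g (g + 2 * μ - a - 2) - μ) + (g + μ - a - 1 - (a + μ)) * q := by
    unfold SS
    refine (card_union_le _ _).trans (add_le_add ((card_union_le _ _).trans (add_le_add
      ((card_union_le _ _).trans (add_le_add ((card_union_le _ _).trans (add_le_add ?_ ?_)) ?_)) ?_)) ?_)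
    · refine card_image_le.trans ?_
      rw [Nat.card_Icc]
      omega
    · rw [card_range]
    · refine card_image_le.trans ?_
      rw [card_range]
    · refine card_image_le.trans ?_
      rw [Nat.card_Ico]
    · refine card_image_le.trans ?_
      rw [card_product, Nat.card_Ico, card_range]
  have h2 : (2 * μ - a - 2) + (min g (g + 2 * μ - a - 2) - μ) = g + μ - a - 2 := by omega
  have h3 : 2 * q + μ + (g + μ - a - 1 - (a + μ)) * q ≤ g * q + 1 := by
    rcases Nat.lt_or_ge g (2 * a + 1) with h | h
    · have e : g + μ - a - 1 - (a + μ) = 0 := by omega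
      rw [e, zero_mul]
      obtain ⟨r, rfl⟩ : ∃ r, g = r + 2 := ⟨g - 2, by omega⟩
      have : r * 1 ≤ r * q := Nat.mul_le_mul_left r hq
      rw [Nat.add_mul]
      omega
    · obtain ⟨r, rfl⟩ : ∃ r, g = r + (2 * a + 1) := ⟨g - (2 * a + 1), by omega⟩
      have e : r + (2 * a + 1) + μ - a - 1 - (a + μ) = r := by omega
      rw [e]
      obtain ⟨b, rfl⟩ : ∃ b, a = b + 1 := ⟨a - 1, by omega⟩
      have h4 : b * 1 ≤ b * q := Nat.mul_le_mul_left b hq
      have h5 : (r + (2 * (b + 1) + 1)) * q = r * q + 2 * (b * q) + 3 * q := by ring
      rw [h5]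
      omega
  have h4 : g * (q + 1) = g * q + g := by ring
  rw [h4] at ht
  omega

end

theorem t (k : Type*) [Field k] : StmLN k := by
  intro a μ g κ t hμ hμa hag hκ ht
  obtain ⟨q, rfl⟩ : ∃ q, κ = q + 2 := ⟨κ - 2, by omega⟩
  have hq : 1 ≤ q := by omega
  have hk1 : q + 2 - 1 = q + 1 := rfl
  rw [hk1] at ht
  refine ⟨SS a μ g q, card_SS hμ hμa hag hq ht, ?_⟩
  intro y hS h v hv
  rw [hk1] at hv
  have hS1 : ∀ i, 2 ≤ i → i ≤ 2 * q + 2 → y (μ - 1 + g * i) = 0 := by
    intro i h1 h2
    apply hS
    unfold SS
    simp only [mem_union]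
    exact Or.inl (Or.inl (Or.inl (Or.inl (mem_image.2 ⟨i, mem_Icc.2 ⟨h1, h2⟩, rfl⟩))))
  have hS2 : ∀ s, s + 1 < μ → y s = 0 := by
    intro s h1
    apply hS
    unfold SS
    simp only [mem_union]
    exact Or.inl (Or.inl (Or.inl (Or.inr (mem_range.2 (by omega)))))
  have hS3 : ∀ s, s + a + 3 ≤ 2 * μ → y (s + g * (2 * q + 3)) = 0 := by
    intro s h1
    apply hS
    unfold SS
    simp only [mem_union]
    exact Or.inl (Or.inl (Or.inr (mem_image.2 ⟨s, mem_range.2 (by omega), rfl⟩)))
  have hS4 : ∀ s, μ ≤ s → s < g → s + a + 3 ≤ g + 2 * μ → y (s + g * (2 * q + 2)) = 0 := by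
    intro s h1 h2 h3
    apply hS
    unfold SS
    simp only [mem_union]
    exact Or.inl (Or.inr (mem_image.2 ⟨s, mem_Ico.2 ⟨h1, by omega⟩, rfl⟩))
  have hS5 : ∀ s i, a + μ ≤ s → s + a + 2 ≤ g + μ → i < q → y (s + g * i) = 0 := by
    intro s i h1 h2 h3
    apply hS
    unfold SS
    simp only [mem_union]
    exact Or.inr (mem_image.2 ⟨(s, i), mem_product.2 ⟨mem_Ico.2 ⟨h1, by omega⟩, mem_range.2 h3⟩, rfl⟩)
  -- the main claim
  have main : ∀ s, s < g → ∀ i, i ≤ 2 * q + 1 → y (s + g * i) = 0 := by
    intro s hs
    rcases Nat.lt_trichotomy (s + 1) μ with hc | hc | hc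
    · -- `s < c`
      have f0 : y (s + g * 0) = 0 := by
        rw [mul_zero, add_zero]
        exact hS2 s hc
      have f4 : ∀ j, 4 ≤ j → j ≤ 2 * q + 2 → y (s + g * j) = 0 := by
        intro j h1 h2
        obtain ⟨i, l, e1, e2, e3, e4, e5⟩ : ∃ i l, 2 ≤ i ∧ i < q + 2 ∧ 2 ≤ l ∧ l < q + 2 ∧ i + l = j := by
          rcases Nat.lt_or_ge j (q + 3) with h3 | h3
          · exact ⟨2, j - 2, by omega, by omega, by omega, by omega, by omega⟩
          · exact ⟨j - (q + 1), q + 1, by omega, by omega, by omega, by omega, by omega⟩
        have := h.ll s hc i e1 e2 l e3 e4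
        rwa [e5] at this
      obtain ⟨s', hs'⟩ : ∃ s', a + s' = s + g := ⟨s + g - a, by omega⟩
      have hsh : ∀ i l, a + g * i + (s' + g * l) = s + g * (i + l + 1) := by
        intro i l
        rw [Nat.mul_add, Nat.mul_add, mul_one]
        omega
      have hsh0 : ∀ i, a + g * i + s' = s + g * (i + 1) := by
        intro i
        rw [Nat.mul_add, mul_one]
        omega
      have hsh1 : ∀ i, a + g * i + (s' + g) = s + g * (i + 2) := by
        intro i
        rw [Nat.mul_add]
        omega
      have fall : y (s + g * 1) = 0 ∧ y (s + g * 2) = 0 ∧ y (s + g * 3) = 0 := by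
        rcases Nat.lt_or_ge 1 q with hq2 | hq2
        · -- `κ ≥ 4`
          have f3 : y (s + g * 3) = 0 := by
            have := h.bl s hc 3 (by omega) (by omega)
            rwa [f4 (3 + 1) (by omega) (by omega), add_zero] at this
          have f2 : y (s + g * 2) = 0 := by
            have := h.bl s hc 2 (by omega) (by omega)
            rwa [show 2 + 1 = 3 from rfl, f3, add_zero] at this
          refine ⟨?_, f2, f3⟩
          rcases Nat.lt_or_ge s' μ with h3 | h3
          · have := h.sb 0 (by omega) s' h3
            rw [hsh0, hsh1] at this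
            rwa [zero_add, zero_add, f2, add_zero] at this
          · have := h.sc 0 (by omega) s' h3 (by omega)
            rw [hk1, sum_range_succ', sum_eq_zero, zero_add] at this
            · rw [hsh] at this
              exact this
            · intro l hl
              rw [mem_range] at hl
              rw [hsh]
              rcases Nat.lt_or_ge l 1 with h4 | h4
              · rw [show l = 0 by omega]
                exact f2
              · rcases Nat.lt_or_ge l 2 with h5 | h5
                · rw [show l = 1 by omega]
                  exact f3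
                · exact f4 _ (by omega) (by omega)
        · have hq1 : q = 1 := by omega
          subst hq1
          have g1 := h.bl s hc 2 (by omega) (by omega)
          have g2 := h.bb s hc
          have e0 : y s = 0 := hS2 s hc
          rw [show s + g = s + g * 1 by omega] at g2
          rw [e0, zero_add] at g2
          rw [show 2 + 1 = 3 from rfl] at g1
          rcases Nat.lt_or_ge s' μ with h3 | h3
          · have g3 := h.sl 0 (by omega) s' h3 2 (by omega) (by omega)
            rw [hsh] at g3
            have g3' : y (s + g * 3) = 0 := g3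
            have g4 := h.sb 0 (by omega) s' h3
            rw [hsh0, hsh1] at g4
            have g4' : y (s + g * 1) + y (s + g * 2) = 0 := g4
            rw [g3', add_zero] at g1
            rw [g1, add_zero] at g4'
            exact ⟨g4', g1, g3'⟩
          · have g4 := h.sc 0 (by omega) s' h3 (by omega)
            rw [show 1 + 2 - 1 = 2 from rfl, sum_range_succ, sum_range_one, hsh, hsh] at g4
            have g4' : y (s + g * 1) + y (s + g * 2) = 0 := g4
            have e1 : y (s + g * 1) = 0 := by linear_combination g2 - g4'
            have e2 : y (s + g * 2) = 0 := by rwa [e1, zero_add] at g4'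
            have e3 : y (s + g * 3) = 0 := by rwa [e2, zero_add] at g1
            exact ⟨e1, e2, e3⟩
      intro i hi
      rcases Nat.lt_or_ge i 4 with h4 | h4
      · interval_cases i
        · exact f0
        · exact fall.1
        · exact fall.2.1
        · exact fall.2.2
      · exact f4 i h4 (by omega)
    · -- `s = c`
      have e : s = μ - 1 := by omega
      subst e
      have h1 := h.cl (fun s h1 h2 => hS1 s h1 (by omega))
      intro i hi
      rcases Nat.lt_or_ge i 2 with h4 | h4
      · interval_cases i
        · rw [mul_zero, add_zero]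
          exact h1.1
        · rw [mul_one]
          exact h1.2
      · exact hS1 i h4 (by omega)
    · -- `μ ≤ s`
      rcases Nat.lt_or_ge s a with hsa | hsa
      · obtain ⟨s', hs'⟩ : ∃ s', a + s' = s + g := ⟨s + g - a, by omega⟩
        have hsh : ∀ i l, a + g * i + (s' + g * l) = s + g * (i + l + 1) := by
          intro i l
          rw [Nat.mul_add, Nat.mul_add, mul_one]
          omega
        have f1 : ∀ j, 1 ≤ j → j ≤ 2 * q + 1 → y (s + g * j) = 0 := by
          intro j h1 h2
          obtain ⟨i, l, e1, e2, e3⟩ : ∃ i l, i < q + 1 ∧ l < q + 1 ∧ i + l + 1 = j := by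
            rcases Nat.lt_or_ge j (q + 2) with h3 | h3
            · exact ⟨0, j - 1, by omega, by omega, by omega⟩
            · exact ⟨j - 1 - q, q, by omega, by omega, by omega⟩
          have := h.ss i e1 s' (by omega) (by omega) l e2
          rwa [hsh, e3] at this
        have f0 : y (s + g * 0) = 0 := by
          rcases Nat.lt_or_ge (s + a + 1) (g + μ) with h3 | h3
          · have := h.bc s (by omega) h3
            rw [hk1, sum_range_succ', sum_eq_zero, zero_add, f1 (0 + 1) (by omega) (by omega), add_zero] at this
            · exact this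
            · intro l hl
              rw [mem_range] at hl
              rw [f1 (l + 1) (by omega) (by omega), f1 (l + 1 + 1) (by omega) (by omega), add_zero]
          · have := h.bs s h3 hs 0 (by omega)
            rwa [f1 (0 + 1) (by omega) (by omega), add_zero] at this
        intro i hi
        rcases Nat.eq_zero_or_pos i with h4 | h4
        · rw [h4]
          exact f0
        · exact f1 i h4 hi
      · obtain ⟨s', rfl⟩ : ∃ s', s = a + s' := ⟨s - a, by omega⟩
        have hsh : ∀ i l, a + g * i + (s' + g * l) = a + s' + g * (i + l) := by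
          intro i l
          rw [Nat.mul_add]
          omega
        have hsh0 : ∀ i, a + g * i + s' = a + s' + g * i := by
          intro i
          omega
        have hsh1 : ∀ i, a + g * i + (s' + g) = a + s' + g * (i + 1) := by
          intro i
          rw [Nat.mul_add]
          omega
        rcases Nat.lt_or_ge s' μ with h3 | h3
        · have f2 : ∀ j, 2 ≤ j → j ≤ 2 * q + 1 → y (a + s' + g * j) = 0 := by
            intro j h1 h2
            obtain ⟨i, l, e1, e2, e2', e3⟩ : ∃ i l, i < q + 1 ∧ 2 ≤ l ∧ l < q + 2 ∧ i + l = j := by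
              rcases Nat.lt_or_ge j (q + 2) with h3 | h3
              · exact ⟨0, j, by omega, by omega, by omega, by omega⟩
              · exact ⟨j - (q + 1), q + 1, by omega, by omega, by omega, by omega⟩
            have := h.sl i e1 s' h3 l e2 e2'
            rwa [hsh, e3] at this
          have f1 : y (a + s' + g * 1) = 0 := by
            have := h.sb 1 (by omega) s' h3
            rwa [hsh0, hsh1, f2 (1 + 1) (by omega) (by omega), add_zero] at this
          have f0 : y (a + s' + g * 0) = 0 := by
            have := h.sb 0 (by omega) s' h3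
            rwa [hsh0, hsh1, zero_add, f1, add_zero] at this
          intro i hi
          rcases Nat.lt_or_ge i 2 with h4 | h4
          · interval_cases i
            · exact f0
            · exact f1
          · exact f2 i h4 hi
        · have hsc : ∀ i, i < q + 1 → ∑ l ∈ range (q + 1), y (a + s' + g * (i + l)) = 0 := by
            intro i hi
            have := h.sc i hi s' h3 (by omega)
            rw [hk1] at this
            simpa only [hsh] using this
          rcases Nat.lt_or_ge (a + s' + a + 1) (g + μ) with h5 | h5
          · have hlc := h.lc (a + s') (by omega) h5 (q + 1) (by omega) (by omega)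
            rw [hk1] at hlc
            refine win (f := fun i => y (a + s' + g * i)) (q := q) ?_ ?_
            · intro i hi
              rcases Nat.lt_or_ge i (q + 1) with h6 | h6
              · exact hsc i h6
              · rw [show i = q + 1 by omega]
                exact hlc
            · intro i hi
              exact hS5 (a + s') i (by omega) (by omega) hi
          · have f2 : ∀ j, 2 ≤ j → j ≤ 2 * q + 1 → y (a + s' + g * j) = 0 := by
              intro j h1 h2
              obtain ⟨i, l, e1, e2, e2', e3⟩ : ∃ i l, 2 ≤ i ∧ i < q + 2 ∧ l < q + 1 ∧ i + l = j := by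
                rcases Nat.lt_or_ge j (q + 2) with h3 | h3
                · exact ⟨j, 0, by omega, by omega, by omega, by omega⟩
                · exact ⟨q + 1, j - (q + 1), by omega, by omega, by omega, by omega⟩
              have := h.ls (a + s') h5 hs i e1 e2 l e2'
              rwa [e3] at this
            have f1 : y (a + s' + g * 1) = 0 := by
              have := h.bs (a + s') h5 hs 1 (by omega)
              rwa [f2 (1 + 1) (by omega) (by omega), add_zero] at this
            have f0 : y (a + s' + g * 0) = 0 := by
              have := h.bs (a + s') h5 hs 0 (by omega)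
              rwa [zero_add, f1, add_zero] at this
            intro i hi
            rcases Nat.lt_or_ge i 2 with h4 | h4
            · interval_cases i
              · exact f0
              · exact f1
            · exact f2 i h4 hi
  -- conclusion
  have hg : 0 < g := by omega
  obtain ⟨s, i, hs, rfl⟩ : ∃ s i, s < g ∧ v = s + g * i :=
    ⟨v % g, v / g, Nat.mod_lt _ hg, (Nat.mod_add_div v g).symm⟩
  have e1 : g * (q + 1) + μ + (g * (q + 2) + μ) = g * (2 * q + 3) + 2 * μ := by ring
  rw [e1] at hv
  rcases Nat.lt_or_ge i (2 * q + 2) with h1 | h1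
  · exact main s hs i (by omega)
  · rcases Nat.lt_or_ge i (2 * q + 3) with h2 | h2
    · obtain rfl : i = 2 * q + 2 := by omega
      have e2 : g * (2 * q + 3) = g * (2 * q + 2) + g := by ring
      rcases Nat.lt_trichotomy (s + 1) μ with hc | hc | hc
      · have := h.ll s hc (q + 1) (by omega) (by omega) (q + 1) (by omega) (by omega)
        rwa [show q + 1 + (q + 1) = 2 * q + 2 by omega] at this
      · rw [show s = μ - 1 by omega]
        exact hS1 _ (by omega) (by omega)
      · exact hS4 s (by omega) hs (by omega)
    · rcases Nat.lt_or_ge i (2 * q + 4) with h3 | h3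
      · obtain rfl : i = 2 * q + 3 := by omega
        exact hS3 s (by omega)
      · exfalso
        have h4 : g * (2 * q + 4) ≤ g * i := Nat.mul_le_mul_left g h3
        have e2 : g * (2 * q + 4) = g * (2 * q + 3) + g := by ring
        omega

end Pool.Agent.N729.HP.LN
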