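import Pool.Agent.N729.HP.Stm

/-!
# Project HN (helper729): linear algebra for the first family
-/

set_option autoImplicit false

namespace Pool.Agent.N729.HP.LX

open Finset

variable {k : Type*} [Field k]

/-- window sums -/
def win (f : ℕ → k) (n j : ℕ) : k := ∑ t ∈ range n, f (j + t)

theorem win_succ (f : ℕ → k) (n j : ℕ) : win f (n + 1) j = win f n j + f (j + n) := by
  unfold win
  rw [Finset.sum_range_succ]

theorem win_succ' (f : ℕ → k) (n j : ℕ) : win f (n + 1) j = f j + win f n (j + 1) := by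
  unfold win
  rw [Finset.sum_range_succ', add_zero, add_comm]
  congr 1
  refine Finset.sum_congr rfl fun t _ => ?_
  congr 1
  ring

theorem win_zero (f : ℕ → k) (n j : ℕ) (h : ∀ t < n, f (j + t) = 0) : win f n j = 0 :=
  Finset.sum_eq_zero fun t ht => h t (Finset.mem_range.1 ht)

/-- case (i) -/
theorem case1 {f : ℕ → k} {m : ℕ} (hm : 1 ≤ m) (hW : ∀ j, 1 ≤ j → j ≤ m + 2 → win f m j = 0)
    (h0 : ∀ i, 1 ≤ i → i < m → f i = 0) : ∀ i, 1 ≤ i → i ≤ 2 * m + 1 → f i = 0 := by
  obtain ⟨n, rfl⟩ := Nat.exists_eq_add_of_le hm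
  have hmm : f (1 + n) = 0 := by
    have h1 := hW 1 le_rfl (by omega)
    rw [add_comm 1 n, win_succ, win_zero f n 1 (fun t ht => h0 _ (by omega) (by omega)),
      zero_add] at h1
    exact h1
  intro i
  induction i using Nat.strong_induction_on with
  | _ i ih =>
    intro h1 h2
    rcases lt_trichotomy i (1 + n) with h3 | h3 | h3
    · exact h0 i h1 h3
    · rw [h3]
      exact hmm
    · obtain ⟨j, rfl⟩ := Nat.exists_eq_add_of_lt h3
      have h4 := ih (j + 1) (by omega) (by omega) (by omega)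
      have h5 := hW (j + 1) (by omega) (by omega)
      have h6 := hW (j + 1 + 1) (by omega) (by omega)
      have h7 := win_succ f (1 + n) (j + 1)
      rw [win_succ', h5, h6, h4] at h7
      have e : j + 1 + (1 + n) = 1 + n + j + 1 := by ring
      rw [e] at h7
      simpa using h7.symm

/-- case (iii) -/
theorem case3 {f : ℕ → k} {m : ℕ} (hW : ∀ j, 1 ≤ j → j ≤ m + 1 → win f m j = 0)
    (hV : ∀ j, 1 ≤ j → j ≤ m + 1 → win f (m + 1) j = 0) :
    ∀ i, 1 ≤ i → i ≤ 2 * m + 1 → f i = 0 := by
  intro i h1 h2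
  by_cases h3 : i ≤ m
  · have h4 := hV i h1 (by omega)
    rw [win_succ', hW (i + 1) (by omega) (by omega), add_zero] at h4
    exact h4
  · obtain ⟨j, rfl⟩ := Nat.exists_eq_add_of_lt (not_le.1 h3)
    have h4 := hV (j + 1) (by omega) (by omega)
    rw [win_succ, hW (j + 1) (by omega) (by omega), zero_add] at h4
    rw [← h4]
    congr 1
    ring

/-- case `s > c`, `s'' < ν` -/
theorem case5 {f : ℕ → k} {m : ℕ} (hV : ∀ j ≤ m, win f (m + 1) j = 0)
    (hW : ∀ j, 1 ≤ j → j ≤ m + 1 → win f m j = 0) : ∀ i ≤ 2 * m, f i = 0 := by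
  have h0 : ∀ j ≤ m, f j = 0 := by
    intro j hj
    have h4 := hV j hj
    rw [win_succ', hW (j + 1) (by omega) (by omega), add_zero] at h4
    exact h4
  intro i hi
  by_cases h3 : i ≤ m
  · exact h0 i h3
  · obtain ⟨j, rfl⟩ := Nat.exists_eq_add_of_lt (not_le.1 h3)
    have h4 := hV (j + 1) (by omega)
    rw [win_succ, hW (j + 1) (by omega) (by omega), zero_add] at h4
    rw [← h4]
    congr 1
    ring

/-- case `s > c`, `s'' ≥ μ - 1` -/
theorem case7 {f : ℕ → k} {m : ℕ} (hV : ∀ j ≤ m, win f (m + 1) j = 0)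
    (h0 : ∀ i < m, f i = 0) : ∀ i ≤ 2 * m, f i = 0 := by
  have hm : f m = 0 := by
    have h4 := hV 0 (Nat.zero_le _)
    rw [win_succ, win_zero f m 0 (fun t ht => by rw [zero_add]; exact h0 t ht), zero_add,
      zero_add] at h4
    exact h4
  have h1 : ∀ i ≤ m, f i = 0 := by
    intro i hi
    rcases hi.lt_or_eq with h | h
    · exact h0 i h
    · rw [h]
      exact hm
  intro i hi
  by_cases h3 : i ≤ m
  · exact h1 i h3
  · obtain ⟨j, rfl⟩ := Nat.exists_eq_add_of_lt (not_le.1 h3)
    have h5 := hV j (by omega)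
    have h6 := hV (j + 1) (by omega)
    rw [win_succ', h1 j (by omega), zero_add] at h5
    rw [win_succ, h5, zero_add] at h6
    rw [← h6]
    congr 1
    ring

/-- the fixed variables -/
def SS (ν c g m : ℕ) : Finset ℕ :=
  ((((Finset.Icc 1 (2 * m)).image (fun i => c + g * i) ∪ Finset.range ν) ∪
    ((Finset.range (ν + c + 1 - g)) ×ˢ (insert (2 * m + 2) (Finset.Icc 1 (m - 1)))).image
      (fun p => p.1 + g * p.2)) ∪
    (Finset.Ico (c + 1) (min (c + ν + 1) g)).image (fun s => s + g * (2 * m + 1))) ∪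
    ((Finset.Ico (2 * c + 2) (g - 1)) ×ˢ Finset.range m).image (fun p => p.1 + g * p.2)

theorem card_SS {ν c g m : ℕ} (hm : 1 ≤ m) (hν : ν ≤ c) (hg : c + 2 ≤ g) :
    (SS ν c g m).card < g * m + ν + 1 := by
  have h1 : (SS ν c g m).card ≤ (2 * m + ν + (ν + c + 1 - g) * m +
      (min (c + ν + 1) g - (c + 1))) + (g - 1 - (2 * c + 2)) * m := by
    unfold SS
    refine (Finset.card_union_le _ _).trans (add_le_add ?_ ?_)
    · refine (Finset.card_union_le _ _).trans (add_le_add ?_ ?_)
      · refine (Finset.card_union_le _ _).trans (add_le_add ?_ ?_)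
        · refine (Finset.card_union_le _ _).trans (add_le_add ?_ ?_)
          · refine Finset.card_image_le.trans ?_
            rw [Nat.card_Icc]
            omega
          · rw [Finset.card_range]
        · refine Finset.card_image_le.trans ?_
          rw [Finset.card_product, Finset.card_range]
          refine Nat.mul_le_mul_left _ ((Finset.card_insert_le _ _).trans ?_)
          rw [Nat.card_Icc]
          omega
      · refine Finset.card_image_le.trans ?_
        rw [Nat.card_Ico]
    · refine Finset.card_image_le.trans ?_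
      rw [Finset.card_product, Finset.card_range, Nat.card_Ico]
  refine lt_of_le_of_lt h1 ?_
  obtain ⟨A, hA⟩ : ∃ A, A = ν + c + 1 - g := ⟨_, rfl⟩
  obtain ⟨B, hB⟩ : ∃ B, B = min (c + ν + 1) g - (c + 1) := ⟨_, rfl⟩
  rw [← hA, ← hB]
  obtain ⟨n, rfl⟩ := Nat.exists_eq_add_of_le hm
  by_cases hg2 : g ≤ 2 * c + 3
  · have e1 : g - 1 - (2 * c + 2) = 0 := by omega
    rw [e1, zero_mul, add_zero]
    have hAB : A + B = ν := by omega
    have hA' : A ≤ ν := by omega
    have hg' : ν + 2 ≤ g := by omega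
    nlinarith [Nat.mul_le_mul_right n hA', Nat.mul_le_mul_right (1 + n) hg']
  · have e1 : A = 0 := by omega
    have e2 : B = ν := by omega
    obtain ⟨E, hE⟩ : ∃ E, g = 2 * c + 3 + E := ⟨g - (2 * c + 3), by omega⟩
    have e3 : g - 1 - (2 * c + 2) = E := by omega
    rw [e1, e2, e3, hE]
    nlinarith [Nat.zero_le (c * n), Nat.zero_le n]

theorem mem_SS {ν c g m v : ℕ} : v ∈ SS ν c g m ↔
    ((((∃ i, (1 ≤ i ∧ i ≤ 2 * m) ∧ c + g * i = v) ∨ v < ν) ∨
      (∃ s i, (s < ν + c + 1 - g ∧ (i = 2 * m + 2 ∨ (1 ≤ i ∧ i ≤ m - 1))) ∧ s + g * i = v)) ∨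
      (∃ s, (c + 1 ≤ s ∧ s < min (c + ν + 1) g) ∧ s + g * (2 * m + 1) = v)) ∨
      (∃ s i, ((2 * c + 2 ≤ s ∧ s < g - 1) ∧ i < m) ∧ s + g * i = v) := by
  unfold SS
  simp only [Finset.mem_union, Finset.mem_image, Finset.mem_Icc, Finset.mem_range,
    Finset.mem_product, Finset.mem_insert, Finset.mem_Ico, Prod.exists]

section main

variable {ν c g m : ℕ} {y : ℕ → k}

/-- the sequence of a class -/
def F (g : ℕ) (y : ℕ → k) (σ t : ℕ) : k := y (σ + g * t)

omit [Field k] in
theorem F_shift (σ : ℕ) : F g y (σ + g) = fun t => F g y σ (t + 1) := by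
  funext t
  unfold F
  congr 1
  ring

theorem win_shift (f : ℕ → k) (n j : ℕ) : win (fun t => f (t + 1)) n j = win f n (j + 1) := by
  unfold win
  refine Finset.sum_congr rfl fun t _ => ?_
  show f (j + t + 1) = f (j + 1 + t)
  congr 1
  ring

theorem main (hm : 1 ≤ m) (hν : ν ≤ c) (hg : c + 2 ≤ g) (hS : ∀ s ∈ SS ν c g m, y s = 0)
    (h : RelX ν (c + 2) g (m + 1) y) (s i : ℕ) (hs : s < g)
    (hN : s + g * i < g * (2 * m + 1) + c + ν + 1) : F g y s i = 0 := by
  have X0 : ∀ i ≤ m, ∀ σ < ν, win (F g y σ) m (i + 1) = 0 := by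
    intro i hi σ hσ
    have h1 := h.x0 i (by omega) σ hσ
    rw [Finset.sum_Ico_eq_sum_range] at h1
    unfold win
    rw [← h1]
    refine Finset.sum_congr rfl fun t _ => ?_
    unfold F
    congr 1
    ring
  have X1 : ∀ i ≤ m, ∀ σ < ν, win (F g y (c + 1 + σ)) m (i + 1) = 0 := by
    intro i hi σ hσ
    have h1 := h.x1 i (by omega) σ hσ
    rw [Finset.sum_Ico_eq_sum_range] at h1
    unfold win
    rw [← h1]
    refine Finset.sum_congr rfl fun t _ => ?_
    unfold F
    congr 1
    show c + 1 + σ + g * (i + 1 + t) = c + 1 + g * i + (σ + g * (1 + t))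
    ring
  have Z0 : ∀ σ, ν ≤ σ → σ < c → ∀ t ≤ 2 * m, F g y σ t = 0 := by
    intro σ h1 h2 t ht
    have h3 := h.z0 (min t m) (by omega) σ h1 (by omega) (t - min t m) (by omega)
    unfold F
    rw [← h3]
    congr 1
    have e : t = min t m + (t - min t m) := by omega
    conv_lhs => rw [e]
    ring
  have Z1 : ∀ σ, ν ≤ σ → σ < c + 1 → ∀ t ≤ 2 * m, F g y (c + 1 + σ) t = 0 := by
    intro σ h1 h2 t ht
    have h3 := h.z1 (min t m) (by omega) σ h1 (by omega) (t - min t m) (by omega)
    unfold F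
    rw [← h3]
    congr 1
    have e : t = min t m + (t - min t m) := by omega
    conv_lhs => rw [e]
    show c + 1 + σ + g * (min t m + (t - min t m)) =
      c + 1 + g * min t m + (σ + g * (t - min t m))
    ring
  have Y0 : ∀ σ, c + 1 ≤ σ → σ + 1 < g → ∀ i ≤ m, win (F g y σ) (m + 1) i = 0 := by
    intro σ h1 h2 i hi
    have h3 := h.y0 i (by omega) σ (by omega) h2
    unfold win
    rw [← h3]
    refine Finset.sum_congr rfl fun t _ => ?_
    unfold F
    congr 1
    ring
  have Y1 : ∀ σ, c + 1 ≤ σ → σ + 1 < g → ∀ i ≤ m, win (F g y (c + 1 + σ)) (m + 1) i = 0 := by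
    intro σ h1 h2 i hi
    have h3 := h.y1 i (by omega) σ (by omega) h2
    unfold win
    rw [← h3]
    refine Finset.sum_congr rfl fun t _ => ?_
    unfold F
    congr 1
    show c + 1 + σ + g * (i + t) = c + 1 + g * i + (σ + g * t)
    ring
  have W0 : ∀ t ≤ 2 * m, F g y (g - 1) t = 0 := by
    intro t ht
    have h3 := h.w0 (min t m) (by omega) (t - min t m) (by omega)
    unfold F
    rw [← h3]
    congr 1
    have e : t = min t m + (t - min t m) := by omega
    conv_lhs => rw [e]
    ring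
  -- the range of `i`
  have hi : i ≤ 2 * m + 1 ∨ (i = 2 * m + 2 ∧ s < ν + c + 1 - g) := by
    by_contra hcon
    push Not at hcon
    obtain ⟨h1, h2⟩ := hcon
    obtain ⟨e, rfl⟩ := Nat.exists_eq_add_of_lt h1
    rcases Nat.eq_zero_or_pos e with rfl | he
    · have h3 := h2 (by ring)
      have h4 : g * (2 * m + 1 + 0 + 1) = g * (2 * m + 1) + g := by ring
      rw [h4] at hN
      omega
    · have h4 : g * (2 * m + 1 + e + 1) = g * (2 * m + 1) + g + g * e := by ring
      have h5 : g ≤ g * e := Nat.le_mul_of_pos_right g he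
      rw [h4] at hN
      omega
  rcases hi with hi | ⟨rfl, hs'⟩
  swap
  · exact hS _ (mem_SS.2 (Or.inl (Or.inl (Or.inr ⟨s, 2 * m + 2, ⟨hs', Or.inl rfl⟩, rfl⟩))))
  have hB : s < ν → F g y s 0 = 0 := by
    intro h1
    refine hS _ (mem_SS.2 (Or.inl (Or.inl (Or.inl (Or.inr ?_)))))
    simpa using h1
  rcases lt_trichotomy s c with hsc | hsc | hsc
  · -- `s < c`
    obtain ⟨s', hs'⟩ : ∃ s', c + 1 + s' = s + g := ⟨s + g - (c + 1), by omega⟩
    have hF : F g y (c + 1 + s') = fun t => F g y s (t + 1) := by rw [hs', F_shift]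
    by_cases hsν : s < ν
    · rcases Nat.eq_zero_or_pos i with rfl | hi0
      · exact hB hsν
      by_cases h1 : s' < ν
      · have hW : ∀ j, 1 ≤ j → j ≤ m + 2 → win (F g y s) m j = 0 := by
          intro j hj1 hj2
          by_cases hj : j ≤ m + 1
          · have h2 := X0 (j - 1) (by omega) s hsν
            rwa [Nat.sub_add_cancel hj1] at h2
          · have h2 := X1 m le_rfl s' h1
            rw [hF, win_shift] at h2
            have e : j = m + 1 + 1 := by omega
            rw [e]
            exact h2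
        refine case1 hm hW (fun t ht1 ht2 => ?_) i hi0 hi
        refine hS _ (mem_SS.2 (Or.inl (Or.inl (Or.inr ⟨s, t, ⟨by omega, Or.inr ?_⟩, rfl⟩))))
        omega
      · by_cases h2 : s' < c + 1
        · have h3 := Z1 s' (by omega) h2 (i - 1) (by omega)
          rw [hF] at h3
          simp only at h3
          rwa [Nat.sub_add_cancel hi0] at h3
        · have hV : ∀ j, 1 ≤ j → j ≤ m + 1 → win (F g y s) (m + 1) j = 0 := by
            intro j hj1 hj2
            have h3 := Y1 s' (by omega) (by omega) (j - 1) (by omega)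
            rw [hF, win_shift, Nat.sub_add_cancel hj1] at h3
            exact h3
          have hW : ∀ j, 1 ≤ j → j ≤ m + 1 → win (F g y s) m j = 0 := by
            intro j hj1 hj2
            have h2 := X0 (j - 1) (by omega) s hsν
            rwa [Nat.sub_add_cancel hj1] at h2
          exact case3 hW hV i hi0 hi
    · rcases Nat.lt_or_ge i (2 * m + 1) with h1 | h1
      · exact Z0 s (by omega) hsc i (by omega)
      · have e : i = 2 * m + 1 := by omega
        subst e
        by_cases h2 : s' < c + 1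
        · have h3 := Z1 s' (by omega) h2 (2 * m) le_rfl
          rw [hF] at h3
          exact h3
        · have h3 := Y1 s' (by omega) (by omega) m le_rfl
          rw [hF, win_shift, win_succ, win_zero (F g y s) m (m + 1)
            (fun t ht => Z0 s (by omega) hsc _ (by omega)), zero_add] at h3
          rw [← h3]
          congr 1
          ring
  · -- `s = c`
    subst hsc
    have h1 : ∀ t, 1 ≤ t → t + 1 < 2 * (m + 1) → y (s + g * t) = 0 := by
      intro t ht1 ht2
      exact hS _ (mem_SS.2 (Or.inl (Or.inl (Or.inl (Or.inl ⟨t, ⟨ht1, by omega⟩, rfl⟩)))))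
    have h2 := h.cl h1
    have e1 : s + 2 - 2 = s := by omega
    rw [e1] at h2
    rcases Nat.eq_zero_or_pos i with rfl | hi0
    · unfold F
      rw [mul_zero, add_zero]
      exact h2.1
    · rcases Nat.lt_or_ge i (2 * m + 1) with h3 | h3
      · exact h1 i hi0 (by omega)
      · have e : i = 2 * (m + 1) - 1 := by omega
        rw [e]
        exact h2.2
  · -- `s > c`
    rcases Nat.lt_or_ge i (2 * m + 1) with h1 | h1
    swap
    · have e : i = 2 * m + 1 := by omega
      subst e
      refine hS _ (mem_SS.2 (Or.inl (Or.inr ⟨s, ⟨by omega, ?_⟩, rfl⟩)))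
      rw [lt_min_iff]
      exact ⟨by omega, hs⟩
    · by_cases h2 : s = g - 1
      · rw [h2]
        exact W0 i (by omega)
      · obtain ⟨s', rfl⟩ := Nat.exists_eq_add_of_lt hsc
        have e : c + s' + 1 = c + 1 + s' := by ring
        have hV := Y0 (c + s' + 1) (by omega) (by omega)
        rw [e] at hV ⊢
        by_cases h3 : s' < ν
        · refine case5 hV (fun j hj1 hj2 => ?_) i (by omega)
          have h4 := X1 (j - 1) (by omega) s' h3
          rwa [Nat.sub_add_cancel hj1] at h4
        · by_cases h4 : s' < c + 1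
          · exact Z1 s' (by omega) h4 i (by omega)
          · refine case7 hV (fun t ht => ?_) i (by omega)
            refine hS _ (mem_SS.2 (Or.inr ⟨c + 1 + s', t, ⟨⟨by omega, by omega⟩, ht⟩, rfl⟩))

end main

theorem t (k : Type*) [Field k] : StmLX k := by
  intro a ν μ g κ ha hμ hg hκ
  obtain ⟨b, rfl⟩ := Nat.exists_eq_add_of_le ha
  obtain ⟨m, rfl⟩ : ∃ m, κ = m + 1 := ⟨κ - 1, by omega⟩
  have hm : 1 ≤ m := by omega
  have e : μ = (ν + b) + 2 := by omega
  subst e
  refine ⟨SS ν (ν + b) g m, ?_, ?_⟩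
  · have h1 := card_SS (ν := ν) (c := ν + b) (g := g) hm (by omega) hg
    simpa using h1
  · intro y hS h v hv
    have hg0 : 0 < g := by omega
    have h1 := main hm (by omega) hg hS h (v % g) (v / g) (Nat.mod_lt _ hg0) (by
      rw [Nat.mod_add_div]
      have e1 : g * (m + 1 - 1) = g * m := by simp
      have e2 : g * (m + 1) = g * m + g := by ring
      have e3 : g * (2 * m + 1) = g * m + g * m + g := by ring
      rw [e1, e2] at hv
      rw [e3]
      omega)
    unfold F at h1
    rwa [Nat.mod_add_div] at h1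

end Pool.Agent.N729.HP.LX
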