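import Pool.Agent.N729.HP.Stm

/-!
Project HN, part MM: the point lies on the variety.
-/

set_option autoImplicit false

namespace Pool.Agent.N729.HP.MM

open Finset
open Pool.Agent.N186.HK (pm pm_cons)

/-- expansion along the first columns -/
lemma expand {D : Type*} [CommRing D] (x : ℕ → D) (w : ℕ) (L : List ℕ) :
    ∀ J : Finset ℕ, J.card = L.length → w ≤ L.length →
    (∀ J' ⊆ J, ∀ L' : List ℕ, L'.Sublist L → J'.card = w → L'.length = w → pm x J' L' = 0) →
    pm x J L = 0 := by
  induction L with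
  | nil =>
    intro J hJ hw h
    have hw0 : w = 0 := by simpa using hw
    exact h J (Subset.refl _) [] (List.Sublist.refl _) (by rw [hJ, hw0]; rfl) (by rw [hw0]; rfl)
  | cons c L ih =>
    intro J hJ hw h
    rcases Nat.lt_or_ge L.length w with h1 | h1
    · have h2 : w = (c :: L).length := by
        rw [List.length_cons] at hw ⊢
        omega
      exact h J (Subset.refl _) (c :: L) (List.Sublist.refl _) (by rw [hJ, h2]) h2.symm
    · rw [pm_cons]
      refine sum_eq_zero fun i hi => ?_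
      rw [ih (J.erase i) (by rw [card_erase_of_mem hi, hJ, List.length_cons]; rfl) h1
        (fun J' hJ' L' hL' a b => h J' (hJ'.trans (erase_subset _ _)) L'
          (hL'.trans (List.sublist_cons_self _ _)) a b), mul_zero]

lemma cc_lt {g c y : ℕ} (hc : c < g) (hy : y < g) : cc g c y < g := by
  unfold cc
  split_ifs <;> omega

lemma cc_cc {g c y : ℕ} (hy : y < g) : cc g c (cc g c y) = y := by
  unfold cc
  split_ifs <;> omega

theorem t (k : Type*) [Field k] (hBA : StmBA k) (_hBB : StmBB k) (_hBE : StmBE k)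
    (hRA : StmRA k) : StmMM k := by
  classical
  intro g c n m t u hcg v hv hz J L hS
  obtain ⟨hJt, hLt, hLn, hJ, hL⟩ := hS
  have hg : 0 < g := by omega
  set Ls : ℕ → List ℕ := fun ρ => (L.filter (fun x => x % g = ρ)).map (fun x => x / g) with hLs
  set Js : ℕ → Finset ℕ := fun ρ => (J.filter (fun x => x % g = cc g c ρ)).image (fun x => x / g)
    with hJs
  have hLmem : ∀ ρ, ∀ i ∈ Ls ρ, ρ + g * i ∈ L := by
    intro ρ i hi
    rw [hLs] at hi
    simp only [List.mem_map, List.mem_filter, decide_eq_true_eq] at hi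
    obtain ⟨x, ⟨hx, hxρ⟩, rfl⟩ := hi
    have : ρ + g * (x / g) = x := by rw [← hxρ]; exact Nat.mod_add_div x g
    rw [this]
    exact hx
  have hJmem : ∀ ρ, ∀ l ∈ Js ρ, cc g c ρ + g * l ∈ J := by
    intro ρ i hi
    rw [hJs] at hi
    simp only [mem_image, mem_filter] at hi
    obtain ⟨x, ⟨hx, hxρ⟩, rfl⟩ := hi
    have : cc g c ρ + g * (x / g) = x := by rw [← hxρ]; exact Nat.mod_add_div x g
    rw [this]
    exact hx
  have hLsn : ∀ ρ, (Ls ρ).Nodup := by
    intro ρ
    rw [hLs]
    refine List.Nodup.map_on ?_ (hLn.filter _)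
    intro x hx y hy hxy
    simp only [List.mem_filter, decide_eq_true_eq] at hx hy
    rw [← Nat.mod_add_div x g, ← Nat.mod_add_div y g, hx.2, hy.2, hxy]
  have hn : (List.range g ++ []).Nodup := by
    rw [List.append_nil]
    exact List.nodup_range
  obtain ⟨-, -, -, hJc, hLc, hLGn, hpm⟩ := hRA g c u hcg Js Ls (List.range g) [] hn (by
    intro ρ hρ
    rw [List.append_nil] at hρ
    exact List.mem_range.1 hρ)
  have hJG : JG g c Js (List.range g) = J := by
    ext x
    unfold JG
    simp only [mem_biUnion, List.mem_toFinset, List.mem_range, mem_image]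
    constructor
    · rintro ⟨ρ, -, l, hl, rfl⟩
      exact hJmem ρ l hl
    · intro hx
      have hxg := Nat.mod_lt x hg
      refine ⟨cc g c (x % g), cc_lt hcg hxg, x / g, ?_, ?_⟩
      · rw [hJs]
        simp only [mem_image, mem_filter]
        exact ⟨x, ⟨hx, (cc_cc hxg).symm⟩, rfl⟩
      · rw [cc_cc hxg]
        exact Nat.mod_add_div x g
  have hLG : (LG g Ls (List.range g)).Perm L := by
    rw [List.perm_ext_iff_of_nodup (hLGn fun ρ _ => hLsn ρ) hLn]
    intro x
    unfold LG
    simp only [List.mem_flatMap, List.mem_range, List.mem_map]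
    constructor
    · rintro ⟨ρ, -, i, hi, rfl⟩
      exact hLmem ρ i hi
    · intro hx
      refine ⟨x % g, Nat.mod_lt x hg, x / g, ?_, Nat.mod_add_div x g⟩
      rw [hLs]
      simp only [List.mem_map, List.mem_filter, decide_eq_true_eq]
      exact ⟨x, ⟨hx, rfl⟩, rfl⟩
  have hT : (List.range g).toFinset = range g := by
    ext x
    simp
  rw [hJG, hT, hJt] at hJc
  rw [hLG.length_eq, hT, hLt] at hLc
  rw [← hBA.1 _ _ _ hLG J]
  rw [hJG, hT] at hpm
  rw [hpm]
  by_cases hlt : ∃ ρ ∈ range g, (Js ρ).card < (Ls ρ).length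
  · obtain ⟨ρ, hρ, h⟩ := hlt
    exact prod_eq_zero hρ (hBA.2.2 _ _ _ h)
  · push Not at hlt
    have heq : ∀ ρ ∈ range g, (Ls ρ).length = (Js ρ).card :=
      (sum_eq_sum_iff_of_le hlt).1 (by rw [← hLc, ← hJc])
    have hex : ∃ ρ ∈ range g, v ρ < (Ls ρ).length := by
      apply exists_lt_of_sum_lt
      rw [← hLc]
      omega
    obtain ⟨ρ, hρ, hw⟩ := hex
    refine prod_eq_zero hρ (expand _ (v ρ + 1) (Ls ρ) (Js ρ) (heq ρ hρ).symm hw ?_)
    intro J' hJ' L' hL' a b
    refine hz ρ (mem_range.1 hρ) J' L' ⟨a, b, hL'.nodup (hLsn ρ), ?_, ?_⟩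
    · intro l hl
      exact hJ _ (hJmem ρ l (hJ' hl))
    · intro i hi
      exact hL _ (hLmem ρ i (hL'.subset hi))

end Pool.Agent.N729.HP.MM
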