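import Pool.Agent.N729.HP.Stm

/-!
Project HN (MP_9bc296_ag), part PN: the second family: the point and the linear relations of the
tangent vectors at the point.
-/

set_option autoImplicit false

namespace Pool.Agent.N729.HP.PN

open Finset
open Pool.Agent.N186.HK (pm vm IsHankel)
open Pool.Agent.N729.HP

section

/-- the number of short indices of the block `ρ` -/
def qs (μ κ ρ : ℕ) : ℕ := if ρ < μ then κ else κ - 1

/-- the number of long indices of the block `ρ` -/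
def ql (a μ κ ρ : ℕ) : ℕ := if ρ < μ then κ else if ρ ≤ a then κ - 1 else κ

/-- the sizes of the nonzero permanents -/
def vv (a μ κ ρ : ℕ) : ℕ := if ρ < μ then κ - 1 else if ρ ≤ a then κ - 2 else κ - 1

lemma short_iff {μ g κ : ℕ} (h1 : μ ≤ g) (h4 : 3 ≤ κ) {ρ : ℕ} (hρ : ρ < g) (i : ℕ) :
    ρ + g * i < g * (κ - 1) + μ ↔ i < qs μ κ ρ := by
  unfold qs
  have e : g * κ = g * (κ - 1) + g := by
    obtain ⟨q, rfl⟩ : ∃ q, κ = q + 1 := ⟨κ - 1, by omega⟩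
    rw [Nat.add_sub_cancel, Nat.mul_succ]
  rcases lt_trichotomy i (κ - 1) with h | h | h
  · have h' : g * (i + 1) ≤ g * (κ - 1) := Nat.mul_le_mul_left g (by omega)
    rw [Nat.mul_succ] at h'
    constructor
    · intro _
      split_ifs <;> omega
    · intro _
      omega
  · subst h
    split_ifs with h5 <;> constructor <;> intro h6 <;> omega
  · have h' : g * κ ≤ g * i := Nat.mul_le_mul_left g (by omega)
    split_ifs with h5 <;> constructor <;> intro h6 <;> omega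

lemma long_iff {a μ g κ n : ℕ} (h1 : 1 ≤ μ) (h2 : μ ≤ a) (h3 : a < g) (h4 : 3 ≤ κ)
    (hn : n + a + 1 = g * κ + μ) {ρ : ℕ} (hρ : ρ < g) (l : ℕ) :
    cc g (μ - 1) ρ + g * l < n ↔ l < ql a μ κ ρ := by
  unfold ql cc
  have e : g * κ = g * (κ - 1) + g := by
    obtain ⟨q, rfl⟩ : ∃ q, κ = q + 1 := ⟨κ - 1, by omega⟩
    rw [Nat.add_sub_cancel, Nat.mul_succ]
  rcases lt_trichotomy l (κ - 1) with h | h | h
  · have h' : g * (l + 1) ≤ g * (κ - 1) := Nat.mul_le_mul_left g (by omega)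
    rw [Nat.mul_succ] at h'
    split_ifs <;> constructor <;> intro h6 <;> omega
  · subst h
    split_ifs with h5 <;> constructor <;> intro h6 <;> omega
  · have h' : g * κ ≤ g * l := Nat.mul_le_mul_left g (by omega)
    split_ifs with h5 <;> constructor <;> intro h6 <;> omega

lemma bsub_iff {a μ g κ n : ℕ} (h1 : 1 ≤ μ) (h2 : μ ≤ a) (h3 : a < g) (h4 : 3 ≤ κ)
    (hn : n + a + 1 = g * κ + μ) {ρ : ℕ} (hρ : ρ < g) (v w : ℕ) (J : Finset ℕ) (L : List ℕ) :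
    BSub n (g * (κ - 1) + μ) g (μ - 1) ρ v w J L ↔
      J.card = v ∧ L.length = w ∧ L.Nodup ∧ (∀ l ∈ J, l < ql a μ κ ρ) ∧
        ∀ i ∈ L, i < qs μ κ ρ := by
  unfold BSub
  simp only [long_iff h1 h2 h3 h4 hn hρ, short_iff (by omega : μ ≤ g) h4 hρ]

lemma sum_vv {a μ g κ t : ℕ} (_h1 : 1 ≤ μ) (h2 : μ ≤ a) (h3 : a < g) (h4 : 3 ≤ κ)
    (ht : t + a = g * (κ - 1) + μ) : ∑ ρ ∈ range g, vv a μ κ ρ + 1 = t := by
  obtain ⟨r, rfl⟩ : ∃ r, g = (a + 1) + r := ⟨g - (a + 1), by omega⟩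
  obtain ⟨b, rfl⟩ : ∃ b, a = μ + b := ⟨a - μ, by omega⟩
  have e1 : ∑ ρ ∈ range μ, vv (μ + b) μ κ ρ = μ * (κ - 1) := by
    rw [Finset.sum_congr rfl (g := fun _ => κ - 1), sum_const, card_range, smul_eq_mul]
    intro ρ hρ
    rw [mem_range] at hρ
    simp [vv, hρ]
  have e2 : ∑ ρ ∈ range (b + 1), vv (μ + b) μ κ (μ + ρ) = (b + 1) * (κ - 2) := by
    rw [Finset.sum_congr rfl (g := fun _ => κ - 2), sum_const, card_range, smul_eq_mul]
    intro ρ hρ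
    rw [mem_range] at hρ
    have : ρ ≤ b := by omega
    simp [vv, this]
  have e3 : ∑ ρ ∈ range r, vv (μ + b) μ κ (μ + (b + 1) + ρ) = r * (κ - 1) := by
    rw [Finset.sum_congr rfl (g := fun _ => κ - 1), sum_const, card_range, smul_eq_mul]
    intro ρ _
    unfold vv
    rw [if_neg (by omega), if_neg (by omega)]
  have e : ∑ ρ ∈ range (μ + b + 1 + r), vv (μ + b) μ κ ρ =
      μ * (κ - 1) + (b + 1) * (κ - 2) + r * (κ - 1) := by
    rw [add_assoc μ b 1, sum_range_add, sum_range_add, e1, e2, e3]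
  rw [e]
  obtain ⟨q, rfl⟩ : ∃ q, κ = q + 2 := ⟨κ - 2, by omega⟩
  have e4 : q + 2 - 1 = q + 1 := by omega
  have e5 : q + 2 - 2 = q := by omega
  rw [e4] at ht ⊢
  rw [e5]
  nlinarith

end

section

variable {k : Type*} [Field k]

lemma perm_range {κ : ℕ} {L : List ℕ} (h1 : L.length = κ) (h2 : L.Nodup) (h3 : ∀ i ∈ L, i < κ) :
    L.Perm (List.range κ) := by
  have hs : L ⊆ List.range κ := fun i hi => List.mem_range.2 (h3 i hi)
  exact (List.subperm_of_subset h2 hs).perm_of_length_le (by rw [List.length_range, h1])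

lemma eq_range {κ : ℕ} {J : Finset ℕ} (h1 : J.card = κ) (h3 : ∀ i ∈ J, i < κ) : J = range κ :=
  Finset.eq_of_subset_of_card_le (fun i hi => mem_range.2 (h3 i hi)) (by rw [card_range, h1])

/-- the cofactors of the big blocks -/
def cb (κ i l : ℕ) : k :=
  if i + 1 = κ ∧ l + 1 = κ then 2 else if i + 1 = κ ∨ l + 1 = κ then 0 else
    if i + l < κ then 1 else -1

lemma cb_comm (κ i l : ℕ) : (cb κ i l : k) = cb κ l i := by
  unfold cb
  by_cases h1 : i + 1 = κ <;> by_cases h2 : l + 1 = κ <;> simp [h1, h2, add_comm i l]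

/-- the cofactors of the small blocks -/
def cs (κ i l : ℕ) : k := if i + l < κ then 1 else -1

lemma cs_comm (κ i l : ℕ) : (cs κ i l : k) = cs κ l i := by
  unfold cs
  rw [add_comm i l]

lemma card_erase_range {κ l : ℕ} (h : l < κ) : ((range κ).erase l).card = κ - 1 := by
  rw [card_erase_of_mem (mem_range.2 h), card_range]

lemma length_erase_range {κ l : ℕ} (h : l < κ) : ((List.range κ).erase l).length = κ - 1 := by
  rw [List.length_erase_of_mem (List.mem_range.2 h), List.length_range]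

lemma nodup_erase_range (κ l : ℕ) : ((List.range κ).erase l).Nodup :=
  List.nodup_range.erase l

lemma toFinset_range (κ : ℕ) : (List.range κ).toFinset = range κ := by
  ext i
  simp

lemma lt_of_mem_erase {κ l i : ℕ} (h : i ∈ (range κ).erase l) : i < κ :=
  mem_range.1 (mem_of_mem_erase h)

lemma lt_of_mem_list_erase {κ l i : ℕ} (h : i ∈ (List.range κ).erase l) : i < κ :=
  List.mem_range.1 (List.mem_of_mem_erase h)

/-- the permanents of the blocks -/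
structure Perms (κ : ℕ) (u : ℕ → k) : Prop where
  b0 : pm (fun s => u (s + 0)) (range κ) (List.range κ) = 0
  b1 : ∀ i < κ, ∀ l < κ, pm (fun s => u (s + 0)) ((range κ).erase l) ((List.range κ).erase i) =
    cb κ i l
  s0 : pm (fun s => u (s + 1)) (range (κ - 1)) (List.range (κ - 1)) = 0
  s1 : ∀ i < κ - 1, ∀ l < κ - 1,
    pm (fun s => u (s + 1)) ((range (κ - 1)).erase l) ((List.range (κ - 1)).erase i) =
      cs (κ - 1) i l
  m1 : ∀ l < κ, pm (fun s => u (s + 1)) ((range κ).erase l) (List.range (κ - 1)) =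
    if l + 1 = κ then 0 else 1

lemma perms (hCN : StmCN k) {κ : ℕ} (h : 3 ≤ κ) : Perms κ (uN k κ) := by
  obtain ⟨c1, c2, c3, c4, c5⟩ := hCN κ h
  refine ⟨c1, c2, c3, ?_, c5⟩
  intro i hi l hl
  rw [c4 i hi l hl]
  unfold cs
  by_cases h1 : i + l + 1 < κ
  · rw [if_pos h1, if_pos (by omega)]
  · rw [if_neg h1, if_neg (by omega)]

/-- a nonzero minor of each block -/
def J0 (a μ κ ρ : ℕ) : Finset ℕ := (range (ql a μ κ ρ)).erase 0

/-- a nonzero minor of each block -/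
def L0 (a μ κ ρ : ℕ) : List ℕ :=
  if ρ < μ then (List.range κ).erase 0 else
    if ρ ≤ a then (List.range (κ - 1)).erase 0 else List.range (κ - 1)

lemma sh_big {μ ρ : ℕ} (h1 : 1 ≤ μ) (h : ρ < μ) : sh (μ - 1) ρ = 0 := if_pos (by omega)

lemma sh_small {μ ρ : ℕ} (h1 : 1 ≤ μ) (h : μ ≤ ρ) : sh (μ - 1) ρ = 1 := if_neg (by omega)

section

variable {a μ g κ n t : ℕ}

lemma J0L0 (h1 : 1 ≤ μ) (h2 : μ ≤ a) (h3 : a < g) (h4 : 3 ≤ κ)
    (hn : n + a + 1 = g * κ + μ) {u : ℕ → k} (hu : Perms κ u) (ρ : ℕ) (hρ : ρ < g) :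
    BSub n (g * (κ - 1) + μ) g (μ - 1) ρ (vv a μ κ ρ) (vv a μ κ ρ) (J0 a μ κ ρ) (L0 a μ κ ρ) ∧
      pm (fun s => u (s + sh (μ - 1) ρ)) (J0 a μ κ ρ) (L0 a μ κ ρ) ≠ 0 := by
  rw [bsub_iff h1 h2 h3 h4 hn hρ]
  unfold J0 L0 qs ql vv
  by_cases hb : ρ < μ
  · simp only [if_pos hb, sh_big h1 hb]
    refine ⟨⟨card_erase_range (by omega), length_erase_range (by omega), nodup_erase_range _ _,
      fun l hl => lt_of_mem_erase hl, fun i hi => lt_of_mem_list_erase hi⟩, ?_⟩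
    rw [hu.b1 0 (by omega) 0 (by omega)]
    unfold cb
    rw [if_neg (by omega), if_neg (by omega), if_pos (by omega)]
    exact one_ne_zero
  · simp only [if_neg hb, sh_small h1 (not_lt.1 hb)]
    by_cases hs : ρ ≤ a
    · simp only [if_pos hs]
      refine ⟨⟨by rw [card_erase_range (by omega)]; omega,
        by rw [length_erase_range (by omega)]; omega, nodup_erase_range _ _,
        fun l hl => lt_of_mem_erase hl, fun i hi => lt_of_mem_list_erase hi⟩, ?_⟩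
      rw [hu.s1 0 (by omega) 0 (by omega)]
      unfold cs
      rw [if_pos (by omega)]
      exact one_ne_zero
    · simp only [if_neg hs]
      refine ⟨⟨card_erase_range (by omega), List.length_range, List.nodup_range,
        fun l hl => lt_of_mem_erase hl, fun i hi => List.mem_range.1 hi⟩, ?_⟩
      rw [hu.m1 0 (by omega), if_neg (by omega)]
      exact one_ne_zero

/-- the point is in the variety -/
lemma member (hBA : StmBA k) (hMM : StmMM k) (h1 : 1 ≤ μ) (h2 : μ ≤ a) (h3 : a < g)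
    (h4 : 3 ≤ κ) (ht : t + a = g * (κ - 1) + μ)
    (hn : n + a + 1 = g * κ + μ) {u : ℕ → k} (hu : Perms κ u) :
    ∀ J L, Sub n (g * (κ - 1) + μ) t J L → pm (cst g (μ - 1) u) J L = 0 := by
  refine hMM g (μ - 1) n (g * (κ - 1) + μ) t u (by omega) (vv a μ κ) (sum_vv h1 h2 h3 h4 ht) ?_
  intro ρ hρ J L hJL
  rw [bsub_iff h1 h2 h3 h4 hn hρ] at hJL
  obtain ⟨j1, j2, j3, j4, j5⟩ := hJL
  unfold qs ql vv at *
  by_cases hb : ρ < μ
  · simp only [if_pos hb] at *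
    have hJ := eq_range (by omega : J.card = κ) j4
    have hL := perm_range (by omega : L.length = κ) j3 j5
    rw [sh_big h1 hb, hJ, hBA.1 _ _ _ hL]
    exact hu.b0
  · simp only [if_neg hb] at *
    rw [sh_small h1 (not_lt.1 hb)]
    by_cases hs : ρ ≤ a
    · simp only [if_pos hs] at *
      have hJ := eq_range (by omega : J.card = κ - 1) j4
      have hL := perm_range (by omega : L.length = κ - 1) j3 j5
      rw [hJ, hBA.1 _ _ _ hL]
      exact hu.s0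
    · simp only [if_neg hs] at *
      exfalso
      have : L.length ≤ κ - 1 := by
        have h := (List.subperm_of_subset j3
          (fun i hi => List.mem_range.2 (j5 i hi) : L ⊆ List.range (κ - 1))).length_le
        rwa [List.length_range] at h
      omega

/-- the conclusion of `StmRR` for `y` -/
def RRc (a μ g κ n : ℕ) (u y : ℕ → k) : Prop :=
  ∀ ρ₁ < g, ∀ ρ₂ < g, ρ₁ ≠ ρ₂ → ∀ J₁ L₁ J₂ L₂,
    BSub n (g * (κ - 1) + μ) g (μ - 1) ρ₁ (vv a μ κ ρ₁) (vv a μ κ ρ₁ + 1) J₁ L₁ →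
    BSub n (g * (κ - 1) + μ) g (μ - 1) ρ₂ (vv a μ κ ρ₂ + 1) (vv a μ κ ρ₂) J₂ L₂ →
    ∑ i ∈ L₁.toFinset, ∑ l ∈ J₂, y (ρ₁ + g * i + (cc g (μ - 1) ρ₂ + g * l)) *
      pm (fun s => u (s + sh (μ - 1) ρ₁)) J₁ (L₁.erase i) *
      pm (fun s => u (s + sh (μ - 1) ρ₂)) (J₂.erase l) L₂ = 0

/-- the inner sum -/
def ww (μ g : ℕ) (u y : ℕ → k) (ρ₁ ρ₂ : ℕ) (J₂ : Finset ℕ) (L₂ : List ℕ) (i : ℕ) : k :=
  ∑ l ∈ J₂, y (ρ₁ + g * i + (cc g (μ - 1) ρ₂ + g * l)) *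
    pm (fun s => u (s + sh (μ - 1) ρ₂)) (J₂.erase l) L₂

/-- the relations for the block `ρ₁ = 0` -/
lemma rel0 (hCI : StmCI k) (hk : (2 : k) ≠ 0) (h1 : 1 ≤ μ) (h2 : μ ≤ a) (h3 : a < g)
    (h4 : 3 ≤ κ) (hn : n + a + 1 = g * κ + μ) {u y : ℕ → k} (hu : Perms κ u)
    (hR : RRc a μ g κ n u y) {ρ₂ : ℕ} (hρ : ρ₂ < g) (hρ0 : ρ₂ ≠ 0) (J₂ : Finset ℕ) (L₂ : List ℕ)
    (hJL : BSub n (g * (κ - 1) + μ) g (μ - 1) ρ₂ (vv a μ κ ρ₂ + 1) (vv a μ κ ρ₂) J₂ L₂) :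
    ww μ g u y 0 ρ₂ J₂ L₂ 0 + ww μ g u y 0 ρ₂ J₂ L₂ 1 = 0 ∧
      ∀ i < κ, 2 ≤ i → ww μ g u y 0 ρ₂ J₂ L₂ i = 0 := by
  refine (hCI hk κ (ww μ g u y 0 ρ₂ J₂ L₂)).2.2 h4 ?_
  intro l1 hl1
  have h0 : (0 : ℕ) < μ := by omega
  have hv : vv a μ κ 0 = κ - 1 := if_pos h0
  have h := hR 0 (by omega) ρ₂ hρ hρ0.symm ((range κ).erase l1) (List.range κ) J₂ L₂ (by
    rw [bsub_iff h1 h2 h3 h4 hn (by omega), hv]
    unfold qs ql
    rw [if_pos h0, if_pos h0]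
    exact ⟨card_erase_range hl1, by rw [List.length_range]; omega, List.nodup_range,
      fun l hl => lt_of_mem_erase hl, fun i hi => List.mem_range.1 hi⟩) hJL
  rw [toFinset_range, sh_big h1 h0] at h
  refine Eq.trans ?_ h
  refine Finset.sum_congr rfl fun i hi => ?_
  rw [mem_range] at hi
  unfold ww
  rw [Finset.sum_mul]
  refine Finset.sum_congr rfl fun l _ => ?_
  rw [hu.b1 i hi l1 hl1]
  unfold cb
  ring

/-- the relations for the block `ρ₁ = a` -/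
lemma rela (hCI : StmCI k) (hk : (2 : k) ≠ 0) (h1 : 1 ≤ μ) (h2 : μ ≤ a) (h3 : a < g)
    (h4 : 3 ≤ κ) (hn : n + a + 1 = g * κ + μ) {u y : ℕ → k} (hu : Perms κ u)
    (hR : RRc a μ g κ n u y) {ρ₂ : ℕ} (hρ : ρ₂ < g) (hρ0 : ρ₂ ≠ a) (J₂ : Finset ℕ) (L₂ : List ℕ)
    (hJL : BSub n (g * (κ - 1) + μ) g (μ - 1) ρ₂ (vv a μ κ ρ₂ + 1) (vv a μ κ ρ₂) J₂ L₂) :
    ∀ i < κ - 1, ww μ g u y a ρ₂ J₂ L₂ i = 0 := by
  refine (hCI hk (κ - 1) (ww μ g u y a ρ₂ J₂ L₂)).1 ?_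
  intro l1 hl1
  have h0 : ¬ a < μ := by omega
  have hv : vv a μ κ a = κ - 2 := by
    unfold vv
    rw [if_neg h0, if_pos le_rfl]
  have h := hR a h3 ρ₂ hρ hρ0.symm ((range (κ - 1)).erase l1) (List.range (κ - 1)) J₂ L₂ (by
    rw [bsub_iff h1 h2 h3 h4 hn h3, hv]
    unfold qs ql
    rw [if_neg h0, if_neg h0, if_pos le_rfl]
    exact ⟨by rw [card_erase_range hl1]; omega, by rw [List.length_range]; omega,
      List.nodup_range, fun l hl => lt_of_mem_erase hl, fun i hi => List.mem_range.1 hi⟩) hJL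
  rw [toFinset_range, sh_small h1 h2] at h
  refine Eq.trans ?_ h
  refine Finset.sum_congr rfl fun i hi => ?_
  rw [mem_range] at hi
  unfold ww
  rw [Finset.sum_mul]
  refine Finset.sum_congr rfl fun l _ => ?_
  rw [hu.s1 i hi l1 hl1]
  unfold cs
  ring

/-- inversion of the cofactors of a big block `ρ₂` -/
lemma inv_big (hCI : StmCI k) (hk : (2 : k) ≠ 0) (h4 : 3 ≤ κ) (z : ℕ → k)
    (h : ∀ i < κ, ∑ l ∈ range κ, z l * (cb κ i l : k) = 0) :
    z 0 + z 1 = 0 ∧ ∀ l < κ, 2 ≤ l → z l = 0 := by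
  refine (hCI hk κ z).2.2 h4 fun i hi => ?_
  refine Eq.trans ?_ (h i hi)
  refine Finset.sum_congr rfl fun l _ => ?_
  rw [cb_comm κ i l]
  rfl

/-- inversion of the cofactors of a small block `ρ₂` -/
lemma inv_small (hCI : StmCI k) (hk : (2 : k) ≠ 0) (z : ℕ → k)
    (h : ∀ i < κ - 1, ∑ l ∈ range (κ - 1), z l * (cs (κ - 1) i l : k) = 0) :
    ∀ l < κ - 1, z l = 0 := by
  refine (hCI hk (κ - 1) z).1 fun i hi => ?_
  refine Eq.trans ?_ (h i hi)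
  refine Finset.sum_congr rfl fun l _ => ?_
  rw [cs_comm (κ - 1) i l]
  rfl

/-- the inner sum for a big block `ρ₂` -/
lemma ww_big (h1 : 1 ≤ μ) {u : ℕ → k} (hu : Perms κ u) (y : ℕ → k)
    (ρ₁ : ℕ) {ρ₂ : ℕ} (hb : ρ₂ < μ) {i₂ : ℕ} (hi₂ : i₂ < κ) (i : ℕ) :
    ww μ g u y ρ₁ ρ₂ (range κ) ((List.range κ).erase i₂) i =
      ∑ l ∈ range κ, y (ρ₁ + g * i + (μ - 1 - ρ₂ + g * l)) * (cb κ i₂ l : k) := by
  unfold ww cc
  rw [sh_big h1 hb, if_pos (by omega)]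
  refine Finset.sum_congr rfl fun l hl => ?_
  rw [hu.b1 i₂ hi₂ l (mem_range.1 hl)]

/-- the inner sum for a small block `ρ₂` -/
lemma ww_small (h1 : 1 ≤ μ) {u : ℕ → k} (hu : Perms κ u) (y : ℕ → k)
    (ρ₁ : ℕ) {ρ₂ : ℕ} (hb : μ ≤ ρ₂) {i₂ : ℕ} (hi₂ : i₂ < κ - 1) (i : ℕ) :
    ww μ g u y ρ₁ ρ₂ (range (κ - 1)) ((List.range (κ - 1)).erase i₂) i =
      ∑ l ∈ range (κ - 1), y (ρ₁ + g * i + (μ - 1 + g - ρ₂ + g * l)) *
        (cs (κ - 1) i₂ l : k) := by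
  unfold ww cc
  rw [sh_small h1 hb, if_neg (by omega)]
  refine Finset.sum_congr rfl fun l hl => ?_
  rw [hu.s1 i₂ hi₂ l (mem_range.1 hl)]

/-- the inner sum for the other blocks -/
lemma ww_oth (h1 : 1 ≤ μ) (h4 : 3 ≤ κ) {u : ℕ → k} (hu : Perms κ u) (y : ℕ → k)
    (ρ₁ : ℕ) {ρ₂ : ℕ} (hb : μ ≤ ρ₂) (i : ℕ) :
    ww μ g u y ρ₁ ρ₂ (range κ) (List.range (κ - 1)) i =
      ∑ l ∈ range (κ - 1), y (ρ₁ + g * i + (μ - 1 + g - ρ₂ + g * l)) := by
  unfold ww cc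
  rw [sh_small h1 hb, if_neg (by omega)]
  obtain ⟨q, rfl⟩ : ∃ q, κ = q + 1 := ⟨κ - 1, by omega⟩
  rw [Nat.add_sub_cancel, sum_range_succ]
  have e : ∀ l < q + 1, pm (fun s => u (s + 1)) ((range (q + 1)).erase l) (List.range q) =
      if l + 1 = q + 1 then 0 else 1 := hu.m1
  rw [e q (by omega), if_pos rfl, mul_zero, add_zero]
  refine Finset.sum_congr rfl fun l hl => ?_
  rw [mem_range] at hl
  rw [e l (by omega), if_neg (by omega), mul_one]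

lemma bs_big (h1 : 1 ≤ μ) (h2 : μ ≤ a) (h3 : a < g) (h4 : 3 ≤ κ)
    (hn : n + a + 1 = g * κ + μ) {ρ : ℕ} (hρ : ρ < μ) {i₂ : ℕ} (hi₂ : i₂ < κ) :
    BSub n (g * (κ - 1) + μ) g (μ - 1) ρ (vv a μ κ ρ + 1) (vv a μ κ ρ) (range κ)
      ((List.range κ).erase i₂) := by
  rw [bsub_iff h1 h2 h3 h4 hn (by omega)]
  unfold qs ql vv
  rw [if_pos hρ, if_pos hρ, if_pos hρ]
  exact ⟨by rw [card_range]; omega, length_erase_range hi₂, nodup_erase_range _ _,
    fun l hl => mem_range.1 hl, fun i hi => lt_of_mem_list_erase hi⟩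

lemma bs_small (h1 : 1 ≤ μ) (h2 : μ ≤ a) (h3 : a < g) (h4 : 3 ≤ κ)
    (hn : n + a + 1 = g * κ + μ) {ρ : ℕ} (hρ : μ ≤ ρ) (hρ' : ρ ≤ a) {i₂ : ℕ}
    (hi₂ : i₂ < κ - 1) :
    BSub n (g * (κ - 1) + μ) g (μ - 1) ρ (vv a μ κ ρ + 1) (vv a μ κ ρ) (range (κ - 1))
      ((List.range (κ - 1)).erase i₂) := by
  rw [bsub_iff h1 h2 h3 h4 hn (by omega)]
  unfold qs ql vv
  have hρ2 : ¬ ρ < μ := by omega
  simp only [if_neg hρ2, if_pos hρ']
  exact ⟨by rw [card_range]; omega, by rw [length_erase_range hi₂]; omega,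
    nodup_erase_range _ _, fun l hl => mem_range.1 hl, fun i hi => lt_of_mem_list_erase hi⟩

lemma bs_oth (h1 : 1 ≤ μ) (h2 : μ ≤ a) (h3 : a < g) (h4 : 3 ≤ κ)
    (hn : n + a + 1 = g * κ + μ) {ρ : ℕ} (hρ : a < ρ) (hρ' : ρ < g) :
    BSub n (g * (κ - 1) + μ) g (μ - 1) ρ (vv a μ κ ρ + 1) (vv a μ κ ρ) (range κ)
      (List.range (κ - 1)) := by
  rw [bsub_iff h1 h2 h3 h4 hn (by omega)]
  unfold qs ql vv
  have hρ2 : ¬ ρ < μ := by omega
  have hρ3 : ¬ ρ ≤ a := by omega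
  simp only [if_neg hρ2, if_neg hρ3]
  exact ⟨by rw [card_range]; omega, List.length_range,
    List.nodup_range, fun l hl => mem_range.1 hl, fun i hi => List.mem_range.1 hi⟩

/-- `ρ₁ = 0`, `ρ₂` big -/
lemma r0b (hCI : StmCI k) (hk : (2 : k) ≠ 0) (h1 : 1 ≤ μ) (h2 : μ ≤ a) (h3 : a < g)
    (h4 : 3 ≤ κ) (hn : n + a + 1 = g * κ + μ) {u y : ℕ → k} (hu : Perms κ u)
    (hR : RRc a μ g κ n u y) {σ : ℕ} (hσ : σ + 1 < μ) :
    ((y (0 + g * 0 + (σ + g * 0)) + y (0 + g * 1 + (σ + g * 0))) +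
      (y (0 + g * 0 + (σ + g * 1)) + y (0 + g * 1 + (σ + g * 1))) = 0 ∧
      ∀ l < κ, 2 ≤ l → y (0 + g * 0 + (σ + g * l)) + y (0 + g * 1 + (σ + g * l)) = 0) ∧
    ∀ i < κ, 2 ≤ i → ∀ l < κ, 2 ≤ l → y (0 + g * i + (σ + g * l)) = 0 := by
  have hb : μ - 1 - σ < μ := by omega
  have es : μ - 1 - (μ - 1 - σ) = σ := by omega
  have key : ∀ i₂ < κ, _ := fun i₂ hi₂ =>
    rel0 hCI hk h1 h2 h3 h4 hn hu hR (by omega : μ - 1 - σ < g) (by omega) _ _
      (bs_big h1 h2 h3 h4 hn hb hi₂)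
  constructor
  · refine inv_big hCI hk h4 (fun l => y (0 + g * 0 + (σ + g * l)) + y (0 + g * 1 + (σ + g * l)))
      fun i₂ hi₂ => ?_
    have h := (key i₂ hi₂).1
    rw [ww_big h1 hu y 0 hb hi₂, ww_big h1 hu y 0 hb hi₂, es] at h
    rw [← h, ← sum_add_distrib]
    exact Finset.sum_congr rfl fun l _ => add_mul _ _ _
  · intro i hi hi'
    refine (inv_big hCI hk h4 (fun l => y (0 + g * i + (σ + g * l))) fun i₂ hi₂ => ?_).2
    have h := (key i₂ hi₂).2 i hi hi'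
    rw [ww_big h1 hu y 0 hb hi₂, es] at h
    exact h

/-- `ρ₁ = 0`, `ρ₂` small -/
lemma r0s (hCI : StmCI k) (hk : (2 : k) ≠ 0) (h1 : 1 ≤ μ) (h2 : μ ≤ a) (h3 : a < g)
    (h4 : 3 ≤ κ) (hn : n + a + 1 = g * κ + μ) {u y : ℕ → k} (hu : Perms κ u)
    (hR : RRc a μ g κ n u y) {σ : ℕ} (hσ : g + μ ≤ σ + a + 1) (hσ' : σ < g) :
    (∀ l < κ - 1, y (0 + g * 0 + (σ + g * l)) + y (0 + g * 1 + (σ + g * l)) = 0) ∧
    ∀ i < κ, 2 ≤ i → ∀ l < κ - 1, y (0 + g * i + (σ + g * l)) = 0 := by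
  have hb : μ ≤ g + μ - 1 - σ := by omega
  have hb' : g + μ - 1 - σ ≤ a := by omega
  have es : μ - 1 + g - (g + μ - 1 - σ) = σ := by omega
  have key : ∀ i₂ < κ - 1, _ := fun i₂ hi₂ =>
    rel0 hCI hk h1 h2 h3 h4 hn hu hR (by omega : g + μ - 1 - σ < g) (by omega) _ _
      (bs_small h1 h2 h3 h4 hn hb hb' hi₂)
  constructor
  · refine inv_small hCI hk (fun l => y (0 + g * 0 + (σ + g * l)) + y (0 + g * 1 + (σ + g * l)))
      fun i₂ hi₂ => ?_
    have h := (key i₂ hi₂).1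
    rw [ww_small h1 hu y 0 hb hi₂, ww_small h1 hu y 0 hb hi₂, es] at h
    rw [← h, ← sum_add_distrib]
    exact Finset.sum_congr rfl fun l _ => add_mul _ _ _
  · intro i hi hi'
    refine inv_small hCI hk (fun l => y (0 + g * i + (σ + g * l))) fun i₂ hi₂ => ?_
    have h := (key i₂ hi₂).2 i hi hi'
    rw [ww_small h1 hu y 0 hb hi₂, es] at h
    exact h

/-- `ρ₁ = 0`, the other blocks `ρ₂` -/
lemma r0o (hCI : StmCI k) (hk : (2 : k) ≠ 0) (h1 : 1 ≤ μ) (h2 : μ ≤ a) (h3 : a < g)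
    (h4 : 3 ≤ κ) (hn : n + a + 1 = g * κ + μ) {u y : ℕ → k} (hu : Perms κ u)
    (hR : RRc a μ g κ n u y) {σ : ℕ} (hσ : μ ≤ σ) (hσ' : σ + a + 1 < g + μ) :
    (∑ l ∈ range (κ - 1), (y (0 + g * 0 + (σ + g * l)) + y (0 + g * 1 + (σ + g * l))) = 0) ∧
    ∀ i < κ, 2 ≤ i → ∑ l ∈ range (κ - 1), y (0 + g * i + (σ + g * l)) = 0 := by
  have hb : a < g + μ - 1 - σ := by omega
  have hb' : g + μ - 1 - σ < g := by omega
  have es : μ - 1 + g - (g + μ - 1 - σ) = σ := by omega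
  have key := rel0 hCI hk h1 h2 h3 h4 hn hu hR hb' (by omega) _ _
      (bs_oth h1 h2 h3 h4 hn hb hb')
  have hb2 : μ ≤ g + μ - 1 - σ := by omega
  constructor
  · have h := key.1
    rw [ww_oth h1 h4 hu y 0 hb2, ww_oth h1 h4 hu y 0 hb2, es, ← sum_add_distrib] at h
    exact h
  · intro i hi hi'
    have h := key.2 i hi hi'
    rw [ww_oth h1 h4 hu y 0 hb2, es] at h
    exact h

/-- `ρ₁ = a`, `ρ₂` big -/
lemma rab (hCI : StmCI k) (hk : (2 : k) ≠ 0) (h1 : 1 ≤ μ) (h2 : μ ≤ a) (h3 : a < g)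
    (h4 : 3 ≤ κ) (hn : n + a + 1 = g * κ + μ) {u y : ℕ → k} (hu : Perms κ u)
    (hR : RRc a μ g κ n u y) {σ : ℕ} (hσ : σ < μ) {i : ℕ} (hi : i < κ - 1) :
    y (a + g * i + (σ + g * 0)) + y (a + g * i + (σ + g * 1)) = 0 ∧
      ∀ l < κ, 2 ≤ l → y (a + g * i + (σ + g * l)) = 0 := by
  have hb : μ - 1 - σ < μ := by omega
  have es : μ - 1 - (μ - 1 - σ) = σ := by omega
  refine inv_big hCI hk h4 (fun l => y (a + g * i + (σ + g * l))) fun i₂ hi₂ => ?_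
  have h := rela hCI hk h1 h2 h3 h4 hn hu hR (by omega : μ - 1 - σ < g) (by omega) _ _
      (bs_big h1 h2 h3 h4 hn hb hi₂) i hi
  rw [ww_big h1 hu y a hb hi₂, es] at h
  exact h

/-- `ρ₁ = a`, `ρ₂` small -/
lemma ras (hCI : StmCI k) (hk : (2 : k) ≠ 0) (h1 : 1 ≤ μ) (h2 : μ ≤ a) (h3 : a < g)
    (h4 : 3 ≤ κ) (hn : n + a + 1 = g * κ + μ) {u y : ℕ → k} (hu : Perms κ u)
    (hR : RRc a μ g κ n u y) {σ : ℕ} (hσ : g + μ ≤ σ + a) (hσ' : σ < g) {i : ℕ}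
    (hi : i < κ - 1) : ∀ l < κ - 1, y (a + g * i + (σ + g * l)) = 0 := by
  have hb : μ ≤ g + μ - 1 - σ := by omega
  have hb' : g + μ - 1 - σ ≤ a := by omega
  have es : μ - 1 + g - (g + μ - 1 - σ) = σ := by omega
  refine inv_small hCI hk (fun l => y (a + g * i + (σ + g * l))) fun i₂ hi₂ => ?_
  have h := rela hCI hk h1 h2 h3 h4 hn hu hR (by omega : g + μ - 1 - σ < g) (by omega) _ _
      (bs_small h1 h2 h3 h4 hn hb hb' hi₂) i hi
  rw [ww_small h1 hu y a hb hi₂, es] at h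
  exact h

/-- `ρ₁ = a`, the other blocks `ρ₂` -/
lemma rao (hCI : StmCI k) (hk : (2 : k) ≠ 0) (h1 : 1 ≤ μ) (h2 : μ ≤ a) (h3 : a < g)
    (h4 : 3 ≤ κ) (hn : n + a + 1 = g * κ + μ) {u y : ℕ → k} (hu : Perms κ u)
    (hR : RRc a μ g κ n u y) {σ : ℕ} (hσ : μ ≤ σ) (hσ' : σ + a + 1 < g + μ) {i : ℕ}
    (hi : i < κ - 1) : ∑ l ∈ range (κ - 1), y (a + g * i + (σ + g * l)) = 0 := by
  have hb : a < g + μ - 1 - σ := by omega
  have hb' : g + μ - 1 - σ < g := by omega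
  have es : μ - 1 + g - (g + μ - 1 - σ) = σ := by omega
  have h := rela hCI hk h1 h2 h3 h4 hn hu hR hb' (by omega) _ _
      (bs_oth h1 h2 h3 h4 hn hb hb') i hi
  rw [ww_oth h1 h4 hu y a (by omega), es] at h
  exact h

/-- the conclusion of `StmRC` for `y` -/
def RCc (a μ g κ n : ℕ) (u y : ℕ → k) : Prop :=
  ∀ ρ₁ < g, ∀ J₁ L₁,
    BSub n (g * (κ - 1) + μ) g (μ - 1) ρ₁ (vv a μ κ ρ₁ + 1) (vv a μ κ ρ₁ + 1) J₁ L₁ →
    pm (fun s => u (s + sh (μ - 1) ρ₁)) J₁ L₁ = 0 →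
    pd (fun s => u (s + sh (μ - 1) ρ₁)) (fun s => y (μ - 1 + g * (s + sh (μ - 1) ρ₁))) J₁ L₁ = 0

/-- the relation inside of the block `0` -/
lemma cl0 (hBF : StmBF k) (h1 : 1 ≤ μ) (h2 : μ ≤ a) (h3 : a < g)
    (h4 : 3 ≤ κ) (hn : n + a + 1 = g * κ + μ) {u y : ℕ → k} (hu : Perms κ u)
    (hR : RCc a μ g κ n u y) :
    ∑ i ∈ range κ, ∑ l ∈ range κ, y (μ - 1 + g * (l + i)) * (cb κ i l : k) = 0 := by
  have h0 : (0 : ℕ) < μ := by omega
  have h := hR 0 (by omega) (range κ) (List.range κ) (by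
    rw [bsub_iff h1 h2 h3 h4 hn (by omega)]
    unfold qs ql vv
    rw [if_pos h0, if_pos h0, if_pos h0]
    exact ⟨by rw [card_range]; omega, by rw [List.length_range]; omega, List.nodup_range,
      fun l hl => mem_range.1 hl, fun i hi => List.mem_range.1 hi⟩) (by
    rw [sh_big h1 h0]
    exact hu.b0)
  rw [hBF _ _ _ _ List.nodup_range, toFinset_range, sh_big h1 h0] at h
  refine Eq.trans ?_ h
  refine Finset.sum_congr rfl fun i hi => Finset.sum_congr rfl fun l hl => ?_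
  rw [hu.b1 i (mem_range.1 hi) l (mem_range.1 hl), add_zero]

/-- the relation inside of the block `a` -/
lemma cla (hBF : StmBF k) (h1 : 1 ≤ μ) (h2 : μ ≤ a) (h3 : a < g)
    (h4 : 3 ≤ κ) (hn : n + a + 1 = g * κ + μ) {u y : ℕ → k} (hu : Perms κ u)
    (hR : RCc a μ g κ n u y) :
    ∑ i ∈ range (κ - 1), ∑ l ∈ range (κ - 1), y (μ - 1 + g * (l + i + 1)) *
      (cs (κ - 1) i l : k) = 0 := by
  have h0 : ¬ a < μ := by omega
  have h := hR a h3 (range (κ - 1)) (List.range (κ - 1)) (by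
    rw [bsub_iff h1 h2 h3 h4 hn h3]
    unfold qs ql vv
    rw [if_neg h0, if_neg h0, if_neg h0, if_pos le_rfl, if_pos le_rfl]
    exact ⟨by rw [card_range]; omega, by rw [List.length_range]; omega, List.nodup_range,
      fun l hl => mem_range.1 hl, fun i hi => List.mem_range.1 hi⟩) (by
    rw [sh_small h1 h2]
    exact hu.s0)
  rw [hBF _ _ _ _ List.nodup_range, toFinset_range, sh_small h1 h2] at h
  refine Eq.trans ?_ h
  refine Finset.sum_congr rfl fun i hi => Finset.sum_congr rfl fun l hl => ?_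
  rw [hu.s1 i (mem_range.1 hi) l (mem_range.1 hl)]

/-- the relation `cl` -/
lemma cl (hBF : StmBF k) (h1 : 1 ≤ μ) (h2 : μ ≤ a) (h3 : a < g)
    (h4 : 3 ≤ κ) (hn : n + a + 1 = g * κ + μ) {u y : ℕ → k} (hu : Perms κ u)
    (hR : RCc a μ g κ n u y) (hy : ∀ s, 2 ≤ s → s + 1 < 2 * κ → y (μ - 1 + g * s) = 0) :
    y (μ - 1) = 0 ∧ y (μ - 1 + g) = 0 := by
  have ha := cla hBF h1 h2 h3 h4 hn hu hR
  have h0 := cl0 hBF h1 h2 h3 h4 hn hu hR
  obtain ⟨q, rfl⟩ : ∃ q, κ = q + 3 := ⟨κ - 3, by omega⟩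
  have e : q + 3 - 1 = q + 2 := by omega
  rw [e] at ha
  have hyg : y (μ - 1 + g) = 0 := by
    rw [Finset.sum_eq_single_of_mem 0 (mem_range.2 (by omega)),
      Finset.sum_eq_single_of_mem 0 (mem_range.2 (by omega))] at ha
    · unfold cs at ha
      rw [if_pos (by omega), mul_one] at ha
      simpa using ha
    · intro l hl hl0
      rw [mem_range] at hl
      rw [hy _ (by omega) (by omega), zero_mul]
    · intro i hi hi0
      rw [mem_range] at hi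
      refine Finset.sum_eq_zero fun l hl => ?_
      rw [mem_range] at hl
      rw [hy _ (by omega) (by omega), zero_mul]
  refine ⟨?_, hyg⟩
  rw [Finset.sum_eq_single_of_mem 0 (mem_range.2 (by omega)),
    Finset.sum_eq_single_of_mem 0 (mem_range.2 (by omega))] at h0
  · unfold cb at h0
    rw [if_neg (by omega), if_neg (by omega), if_pos (by omega), mul_one] at h0
    simpa using h0
  · intro l hl hl0
    rw [mem_range] at hl
    by_cases hl1 : l = 1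
    · subst hl1
      have : μ - 1 + g * (1 + 0) = μ - 1 + g := by ring
      rw [this, hyg, zero_mul]
    · rw [hy _ (by omega) (by omega), zero_mul]
  · intro i hi hi0
    rw [mem_range] at hi
    refine Finset.sum_eq_zero fun l hl => ?_
    rw [mem_range] at hl
    by_cases hl1 : l + i = 1
    · have : μ - 1 + g * (l + i) = μ - 1 + g := by rw [hl1, mul_one]
      rw [this, hyg, zero_mul]
    · rw [hy _ (by omega) (by omega), zero_mul]

end

/-- PN -/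
theorem t (k : Type*) [Field k] (hBA : StmBA k) (hBF : StmBF k) (hMM : StmMM k) (hRR : StmRR k)
    (hRC : StmRC k) (hCN : StmCN k) (hCI : StmCI k) : StmPN k := by
  intro hk a μ g κ t n h1 h2 h3 h4 ht hn
  have hu := perms hCN h4
  refine ⟨member hBA hMM h1 h2 h3 h4 ht hn hu, ?_⟩
  intro y hy
  have hR : RRc a μ g κ n (uN k κ) y :=
    hRR g (μ - 1) n (g * (κ - 1) + μ) t (uN k κ) y (by omega) (vv a μ κ)
      (sum_vv h1 h2 h3 h4 ht) hy (J0 a μ κ) (L0 a μ κ)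
      (fun ρ hρ => (J0L0 h1 h2 h3 h4 hn hu ρ hρ).1) (fun ρ hρ => (J0L0 h1 h2 h3 h4 hn hu ρ hρ).2)
  have hC : RCc a μ g κ n (uN k κ) y :=
    hRC g (μ - 1) n (g * (κ - 1) + μ) t (uN k κ) y (by omega) (vv a μ κ)
      (sum_vv h1 h2 h3 h4 ht) hy (J0 a μ κ) (L0 a μ κ)
      (fun ρ hρ => (J0L0 h1 h2 h3 h4 hn hu ρ hρ).1) (fun ρ hρ => (J0L0 h1 h2 h3 h4 hn hu ρ hρ).2)
  refine ⟨?_, ?_, ?_, ?_, ?_, ?_, ?_, ?_, ?_, ?_, ?_, ?_⟩
  · intro σ hσ
    have h := (r0b hCI hk h1 h2 h3 h4 hn hu hR hσ).1.1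
    have e1 : 0 + g * 0 + (σ + g * 0) = σ := by ring
    have e2 : 0 + g * 1 + (σ + g * 0) = σ + g := by ring
    have e3 : 0 + g * 0 + (σ + g * 1) = σ + g := by ring
    have e4 : 0 + g * 1 + (σ + g * 1) = σ + g * 2 := by ring
    rw [e1, e2, e3, e4] at h
    rw [← h]
    ring
  · intro σ hσ l hl hl'
    have h := (r0b hCI hk h1 h2 h3 h4 hn hu hR hσ).1.2 l hl' hl
    have e1 : 0 + g * 0 + (σ + g * l) = σ + g * l := by ring
    have e2 : 0 + g * 1 + (σ + g * l) = σ + g * (l + 1) := by ring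
    rw [e1, e2] at h
    exact h
  · intro σ hσ i hi hi' l hl hl'
    have h := (r0b hCI hk h1 h2 h3 h4 hn hu hR hσ).2 i hi' hi l hl' hl
    have e1 : 0 + g * i + (σ + g * l) = σ + g * (i + l) := by ring
    rw [e1] at h
    exact h
  · intro σ hσ hσ'
    have h := (r0o hCI hk h1 h2 h3 h4 hn hu hR hσ hσ').1
    refine Eq.trans (Finset.sum_congr rfl fun l _ => ?_) h
    have e1 : 0 + g * 0 + (σ + g * l) = σ + g * l := by ring
    have e2 : 0 + g * 1 + (σ + g * l) = σ + g * (l + 1) := by ring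
    rw [e1, e2]
  · intro σ hσ hσ' i hi hi'
    have h := (r0o hCI hk h1 h2 h3 h4 hn hu hR hσ hσ').2 i hi' hi
    refine Eq.trans (Finset.sum_congr rfl fun l _ => ?_) h
    have e1 : 0 + g * i + (σ + g * l) = σ + g * (i + l) := by ring
    rw [e1]
  · intro σ hσ hσ' l hl
    have h := (r0s hCI hk h1 h2 h3 h4 hn hu hR hσ hσ').1 l hl
    have e1 : 0 + g * 0 + (σ + g * l) = σ + g * l := by ring
    have e2 : 0 + g * 1 + (σ + g * l) = σ + g * (l + 1) := by ring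
    rw [e1, e2] at h
    exact h
  · intro σ hσ hσ' i hi hi' l hl
    have h := (r0s hCI hk h1 h2 h3 h4 hn hu hR hσ hσ').2 i hi' hi l hl
    have e1 : 0 + g * i + (σ + g * l) = σ + g * (i + l) := by ring
    rw [e1] at h
    exact h
  · intro i hi σ hσ
    have h := (rab hCI hk h1 h2 h3 h4 hn hu hR hσ hi).1
    rw [mul_zero, add_zero, mul_one] at h
    exact h
  · intro i hi σ hσ l hl hl'
    exact (rab hCI hk h1 h2 h3 h4 hn hu hR hσ hi).2 l hl' hl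
  · intro i hi σ hσ hσ'
    exact rao hCI hk h1 h2 h3 h4 hn hu hR hσ hσ' hi
  · intro i hi σ hσ hσ' l hl
    exact ras hCI hk h1 h2 h3 h4 hn hu hR hσ hσ' hi l hl
  · intro hy'
    exact cl hBF h1 h2 h3 h4 hn hu hC hy'

end

end Pool.Agent.N729.HP.PN
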