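import Pool.Agent.N729.HP.Stm

/-!
Project HN (helper729), part PX (helper263): the first family, point and relations.
-/

set_option autoImplicit false

namespace Pool.Agent.N729.HP.PX

open Finset
open Pool.Agent.N186.HK (pm)
open Pool.Agent.N729.HP

/-! ### Elementary facts -/

lemma eq_range {K : ℕ} {J : Finset ℕ} (hc : J.card = K) (hb : ∀ j ∈ J, j < K) : J = range K :=
  Finset.eq_of_subset_of_card_le (fun j hj => mem_range.2 (hb j hj)) (by rw [card_range, hc])

lemma perm_range {K : ℕ} {L : List ℕ} (hn : L.Nodup) (hl : L.length = K) (hb : ∀ i ∈ L, i < K) :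
    L.Perm (List.range K) := by
  refine List.perm_of_nodup_nodup_toFinset_eq hn List.nodup_range ?_
  rw [List.toFinset_range]
  refine eq_range ?_ ?_
  · rw [List.toFinset_card_of_nodup hn, hl]
  · intro j hj
    exact hb j (List.mem_toFinset.1 hj)

lemma no_list {K N : ℕ} {L : List ℕ} (hn : L.Nodup) (hl : L.length = N) (hb : ∀ i ∈ L, i < K)
    (h : K < N) : False := by
  have h1 : L.toFinset ⊆ range K := fun j hj => mem_range.2 (hb j (List.mem_toFinset.1 hj))
  have h2 := card_le_card h1
  rw [List.toFinset_card_of_nodup hn, card_range, hl] at h2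
  omega

lemma lt_iff1 {g K σ β l : ℕ} (h1 : σ < β) (h2 : β ≤ g) : σ + g * l < g * K + β ↔ l < K + 1 := by
  constructor
  · intro h
    by_contra hcon
    have h3 : g * (K + 1) ≤ g * l := Nat.mul_le_mul_left g (by omega)
    rw [Nat.mul_add, Nat.mul_one] at h3
    omega
  · intro h
    have h3 : g * l ≤ g * K := Nat.mul_le_mul_left g (by omega)
    omega

lemma lt_iff2 {g K σ β l : ℕ} (h1 : β ≤ σ) (h2 : σ < g) : σ + g * l < g * K + β ↔ l < K := by
  constructor
  · intro h
    by_contra hcon
    have h3 : g * K ≤ g * l := Nat.mul_le_mul_left g (by omega)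
    omega
  · intro h
    have h3 : g * (l + 1) ≤ g * K := Nat.mul_le_mul_left g (by omega)
    rw [Nat.mul_add, Nat.mul_one] at h3
    omega

/-- the sizes -/
def vv (a μ K ρ : ℕ) : ℕ := if ρ < a then K else if ρ + 1 < μ then K + 1 else K

lemma sum_vv {a ν μ g K : ℕ} (hμ : μ = ν + a + 1) (hg : μ ≤ g) :
    ∑ ρ ∈ range g, vv a μ K ρ + 1 = g * K + ν + 1 := by
  have h1 : ∀ ρ ∈ range g, vv a μ K ρ = K + if ρ ∈ Ico a (μ - 1) then 1 else 0 := by
    intro ρ _
    unfold vv
    simp only [mem_Ico]
    split_ifs <;> omega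
  rw [sum_congr rfl h1, sum_add_distrib, sum_const, card_range, smul_eq_mul, sum_ite_mem,
    sum_const, smul_eq_mul, mul_one]
  have h2 : range g ∩ Ico a (μ - 1) = Ico a (μ - 1) := by
    apply inter_eq_right.2
    intro x hx
    rw [mem_Ico] at hx
    rw [mem_range]
    omega
  rw [h2, Nat.card_Ico]
  omega

/-- the number of long indices of a block -/
def LB (a μ K ρ : ℕ) : ℕ := if a ≤ ρ ∧ ρ + 1 < μ then K + 2 else K + 1

/-- the number of short indices of a block -/
def SB (μ K ρ : ℕ) : ℕ := if ρ < μ then K + 1 else K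

lemma long_iff {a ν μ g K ρ l : ℕ} (ha : 1 ≤ a) (hμ : μ = ν + a + 1) (hg : μ ≤ g) (hρ : ρ < g) :
    cc g (μ - 2) ρ + g * l < g * (K + 1) + ν ↔ l < LB a μ K ρ := by
  unfold cc LB
  by_cases h1 : ρ ≤ μ - 2
  · rw [if_pos h1]
    by_cases h2 : a ≤ ρ
    · rw [if_pos ⟨h2, by omega⟩]
      exact lt_iff1 (by omega) (by omega)
    · rw [if_neg (fun h => h2 h.1)]
      exact lt_iff2 (by omega) (by omega)
  · rw [if_neg h1, if_neg (fun h => h1 (by omega))]
    exact lt_iff2 (by omega) (by omega)

lemma short_iff {μ g K ρ i : ℕ} (hg : μ ≤ g) (hρ : ρ < g) :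
    ρ + g * i < g * K + μ ↔ i < SB μ K ρ := by
  unfold SB
  by_cases h1 : ρ < μ
  · rw [if_pos h1]
    exact lt_iff1 h1 hg
  · rw [if_neg h1]
    exact lt_iff2 (by omega) hρ

lemma bsub {a ν μ g K ρ p q : ℕ} (ha : 1 ≤ a) (hμ : μ = ν + a + 1) (hg : μ ≤ g) (hρ : ρ < g)
    {J : Finset ℕ} {L : List ℕ} (h1 : J.card = p) (h2 : L.length = q) (h3 : L.Nodup)
    (h4 : ∀ l ∈ J, l < LB a μ K ρ) (h5 : ∀ i ∈ L, i < SB μ K ρ) :
    BSub (g * (K + 1) + ν) (g * K + μ) g (μ - 2) ρ p q J L :=
  ⟨h1, h2, h3, fun l hl => (long_iff ha hμ hg hρ).2 (h4 l hl),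
    fun i hi => (short_iff hg hρ).2 (h5 i hi)⟩

lemma card_er {n j : ℕ} (h : j < n + 1) : ((range (n + 1)).erase j).card = n := by
  rw [card_erase_of_mem (mem_range.2 h), card_range]
  omega

lemma len_er {n j : ℕ} (h : j < n + 1) : ((List.range (n + 1)).erase j).length = n := by
  rw [List.length_erase_of_mem (List.mem_range.2 h), List.length_range]
  omega

lemma lt_of_er {n j l : ℕ} (h : l ∈ (range n).erase j) : l < n :=
  mem_range.1 (mem_of_mem_erase h)

lemma lt_of_ler {n j l : ℕ} (h : l ∈ (List.range n).erase j) : l < n :=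
  List.mem_range.1 (List.mem_of_mem_erase h)

theorem t (k : Type*) [Field k] (hBA : StmBA k) (hBF : StmBF k) (hMM : StmMM k) (hRR : StmRR k)
    (hRC : StmRC k) (hCX : StmCX k) (hCI : StmCI k) : StmPX k := by
  intro h2 a ν μ g κ ha hμ hg hκ
  obtain ⟨K, rfl⟩ : ∃ K, κ = K + 1 := ⟨κ - 1, by omega⟩
  have hK : 1 ≤ K := by omega
  obtain ⟨cx1, cx2, cx3, cx4, cx5, cx6⟩ := hCX (K + 1) hκ
  have hci := hCI h2 (K + 1)
  rw [Nat.add_sub_cancel] at *
  have hc : μ - 2 < g := by omega
  have hsum := sum_vv (K := K) hμ hg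
  have hsh0 : ∀ ρ, ρ + 1 < μ → sh (μ - 2) ρ = 0 := by
    intro ρ hρ
    unfold sh
    rw [if_pos (by omega)]
  have hsh1 : ∀ ρ, μ ≤ ρ + 1 → sh (μ - 2) ρ = 1 := by
    intro ρ hρ
    unfold sh
    rw [if_neg (by omega)]
  constructor
  · -- membership
    intro J L hJL
    refine hMM g (μ - 2) _ _ _ (uX k (K + 1)) hc (vv a μ K) hsum ?_ J L hJL
    rintro ρ hρ J L ⟨hJc, hLl, hLn, hJb, hLb⟩
    have hJb' : ∀ l ∈ J, l < LB a μ K ρ := fun l hl => (long_iff ha hμ hg hρ).1 (hJb l hl)
    have hLb' : ∀ i ∈ L, i < SB μ K ρ := fun i hi => (short_iff hg hρ).1 (hLb i hi)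
    by_cases h1 : ρ < a
    · have e1 : vv a μ K ρ = K := if_pos h1
      have e2 : LB a μ K ρ = K + 1 := if_neg (by omega)
      have e3 : SB μ K ρ = K + 1 := if_pos (by omega)
      rw [e1] at hJc hLl
      rw [e2] at hJb'
      rw [e3] at hLb'
      rw [hsh0 ρ (by omega), eq_range hJc hJb', hBA.1 _ _ _ (perm_range hLn hLl hLb')]
      exact cx1
    · by_cases h3 : ρ + 1 < μ
      · have e1 : vv a μ K ρ = K + 1 := by unfold vv; rw [if_neg h1, if_pos h3]
        have e3 : SB μ K ρ = K + 1 := if_pos (by omega)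
        rw [e1] at hLl
        rw [e3] at hLb'
        exact (no_list hLn hLl hLb' (by omega)).elim
      · have e1 : vv a μ K ρ = K := by unfold vv; rw [if_neg h1, if_neg h3]
        rw [e1] at hJc hLl
        by_cases h4 : ρ < μ
        · have e2 : LB a μ K ρ = K + 1 := if_neg (by omega)
          have e3 : SB μ K ρ = K + 1 := if_pos h4
          rw [e2] at hJb'
          rw [e3] at hLb'
          rw [hsh1 ρ (by omega), eq_range hJc hJb', hBA.1 _ _ _ (perm_range hLn hLl hLb')]
          exact cx3
        · have e3 : SB μ K ρ = K := if_neg h4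
          rw [e3] at hLb'
          exact (no_list hLn hLl hLb' (by omega)).elim
  · -- relations
    intro y hy
    set Js : ℕ → Finset ℕ := fun ρ => if a ≤ ρ ∧ ρ + 1 < μ then (range (K + 2)).erase 1 else
      (range (K + 1)).erase 0 with hJs
    set Ls : ℕ → List ℕ := fun ρ => if a ≤ ρ ∧ ρ + 1 < μ then List.range (K + 1) else
      if ρ < μ then (List.range (K + 1)).erase 0 else List.range K with hLs
    have hblk : ∀ ρ < g, BSub (g * (K + 1) + ν) (g * K + μ) g (μ - 2) ρ (vv a μ K ρ) (vv a μ K ρ)
        (Js ρ) (Ls ρ) := by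
      intro ρ hρ
      by_cases h1 : a ≤ ρ ∧ ρ + 1 < μ
      · have e1 : vv a μ K ρ = K + 1 := by unfold vv; rw [if_neg (by omega), if_pos h1.2]
        have e2 : LB a μ K ρ = K + 2 := if_pos h1
        have e3 : SB μ K ρ = K + 1 := if_pos (by omega)
        have e4 : Js ρ = (range (K + 2)).erase 1 := if_pos h1
        have e5 : Ls ρ = List.range (K + 1) := if_pos h1
        rw [e1, e4, e5]
        refine bsub ha hμ hg hρ (card_er (by omega)) List.length_range List.nodup_range ?_ ?_
        · intro l hl; rw [e2]; exact lt_of_er hl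
        · intro i hi; rw [e3]; exact List.mem_range.1 hi
      · have e1 : vv a μ K ρ = K := by unfold vv; split_ifs <;> omega
        have e2 : LB a μ K ρ = K + 1 := if_neg h1
        have e4 : Js ρ = (range (K + 1)).erase 0 := if_neg h1
        by_cases h3 : ρ < μ
        · have e3 : SB μ K ρ = K + 1 := if_pos h3
          have e5 : Ls ρ = (List.range (K + 1)).erase 0 := by
            simp only [hLs]; rw [if_neg h1, if_pos h3]
          rw [e1, e4, e5]
          refine bsub ha hμ hg hρ (card_er (by omega)) (len_er (by omega))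
            (List.nodup_range.erase _) ?_ ?_
          · intro l hl; rw [e2]; exact lt_of_er hl
          · intro i hi; rw [e3]; exact lt_of_ler hi
        · have e3 : SB μ K ρ = K := if_neg h3
          have e5 : Ls ρ = List.range K := by
            simp only [hLs]; rw [if_neg h1, if_neg h3]
          rw [e1, e4, e5]
          refine bsub ha hμ hg hρ (card_er (by omega)) List.length_range List.nodup_range ?_ ?_
          · intro l hl; rw [e2]; exact lt_of_er hl
          · intro i hi; rw [e3]; exact List.mem_range.1 hi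
    have hne : ∀ ρ < g, pm (fun s => uX k (K + 1) (s + sh (μ - 2) ρ)) (Js ρ) (Ls ρ) ≠ 0 := by
      intro ρ hρ
      by_cases h1 : a ≤ ρ ∧ ρ + 1 < μ
      · have e4 : Js ρ = (range (K + 2)).erase 1 := if_pos h1
        have e5 : Ls ρ = List.range (K + 1) := if_pos h1
        rw [e4, e5, hsh0 ρ h1.2]
        have h3 := cx5 1 (by omega)
        rw [if_neg (by omega)] at h3
        intro h4
        exact h2 (h3.symm.trans h4)
      · have e4 : Js ρ = (range (K + 1)).erase 0 := if_neg h1
        by_cases h3 : ρ < μ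
        · have e5 : Ls ρ = (List.range (K + 1)).erase 0 := by
            simp only [hLs]; rw [if_neg h1, if_pos h3]
          rw [e4, e5]
          by_cases h4 : ρ + 1 < μ
          · rw [hsh0 ρ h4]
            have h5 := cx2 0 (by omega) 0 (by omega)
            rw [if_pos (by omega)] at h5
            intro h6
            exact one_ne_zero (h5.symm.trans h6)
          · rw [hsh1 ρ (by omega)]
            have h5 := cx4 0 (by omega) 0 (by omega)
            rw [if_pos (by omega)] at h5
            intro h6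
            exact neg_ne_zero.2 one_ne_zero (h5.symm.trans h6)
        · have e5 : Ls ρ = List.range K := by
            simp only [hLs]; rw [if_neg h1, if_neg h3]
          rw [e4, e5, hsh1 ρ (by omega), cx6 0 (by omega)]
          exact one_ne_zero
    have RR := hRR g (μ - 2) _ _ _ (uX k (K + 1)) y hc (vv a μ K) hsum hy Js Ls hblk hne
    have RC := hRC g (μ - 2) _ _ _ (uX k (K + 1)) y hc (vv a μ K) hsum hy Js Ls hblk hne
    -- the relations with the block `0`
    have R0 : ∀ ρ₂ < g, ρ₂ ≠ 0 → ∀ J₂ L₂,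
        BSub (g * (K + 1) + ν) (g * K + μ) g (μ - 2) ρ₂ (vv a μ K ρ₂ + 1) (vv a μ K ρ₂) J₂ L₂ →
        ∀ i < K + 1, ∑ l ∈ J₂, y (g * i + (cc g (μ - 2) ρ₂ + g * l)) *
          pm (fun s => uX k (K + 1) (s + sh (μ - 2) ρ₂)) (J₂.erase l) L₂ = 0 := by
      intro ρ₂ hρ₂ hne0 J₂ L₂ hB
      refine (hci (fun i => ∑ l ∈ J₂, y (g * i + (cc g (μ - 2) ρ₂ + g * l)) *
        pm (fun s => uX k (K + 1) (s + sh (μ - 2) ρ₂)) (J₂.erase l) L₂)).1 ?_
      intro l₁ hl₁
      have e0 : vv a μ K 0 = K := if_pos (by omega)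
      have h3 := RR 0 (by omega) ρ₂ hρ₂ hne0.symm ((range (K + 1)).erase l₁) (List.range (K + 1))
        J₂ L₂ (by
          rw [e0]
          refine bsub ha hμ hg (by omega) (card_er hl₁) List.length_range List.nodup_range ?_ ?_
          · intro l hl
            have e2 : LB a μ K 0 = K + 1 := if_neg (by omega)
            rw [e2]; exact lt_of_er hl
          · intro i hi
            have e3 : SB μ K 0 = K + 1 := if_pos (by omega)
            rw [e3]; exact List.mem_range.1 hi) hB
      rw [List.toFinset_range, hsh0 0 (by omega)] at h3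
      refine Eq.trans (sum_congr rfl fun i hi => ?_) h3
      rw [sum_mul]
      refine sum_congr rfl fun l _ => ?_
      have h4 := cx2 i (mem_range.1 hi) l₁ hl₁
      have h5 : pm (fun s => uX k (K + 1) (s + 0)) ((range (K + 1)).erase l₁)
          ((List.range (K + 1)).erase i) = if i + l₁ < K + 1 then 1 else -1 := h4
      rw [h5, zero_add]
      ring
    -- the relations with the block `μ - 1`
    have R1 : ∀ ρ₂ < g, ρ₂ ≠ μ - 1 → ∀ J₂ L₂,
        BSub (g * (K + 1) + ν) (g * K + μ) g (μ - 2) ρ₂ (vv a μ K ρ₂ + 1) (vv a μ K ρ₂) J₂ L₂ →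
        ∀ i < K + 1, ∑ l ∈ J₂, y (μ - 1 + g * i + (cc g (μ - 2) ρ₂ + g * l)) *
          pm (fun s => uX k (K + 1) (s + sh (μ - 2) ρ₂)) (J₂.erase l) L₂ = 0 := by
      intro ρ₂ hρ₂ hne0 J₂ L₂ hB
      refine (hci (fun i => ∑ l ∈ J₂, y (μ - 1 + g * i + (cc g (μ - 2) ρ₂ + g * l)) *
        pm (fun s => uX k (K + 1) (s + sh (μ - 2) ρ₂)) (J₂.erase l) L₂)).2.1 ?_
      intro l₁ hl₁
      have e0 : vv a μ K (μ - 1) = K := by unfold vv; rw [if_neg (by omega), if_neg (by omega)]
      have h3 := RR (μ - 1) (by omega) ρ₂ hρ₂ hne0.symm ((range (K + 1)).erase l₁)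
        (List.range (K + 1)) J₂ L₂ (by
          rw [e0]
          refine bsub ha hμ hg (by omega) (card_er hl₁) List.length_range List.nodup_range ?_ ?_
          · intro l hl
            have e2 : LB a μ K (μ - 1) = K + 1 := if_neg (by omega)
            rw [e2]; exact lt_of_er hl
          · intro i hi
            have e3 : SB μ K (μ - 1) = K + 1 := if_pos (by omega)
            rw [e3]; exact List.mem_range.1 hi) hB
      rw [List.toFinset_range, hsh1 (μ - 1) (by omega)] at h3
      refine Eq.trans (sum_congr rfl fun i hi => ?_) h3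
      rw [sum_mul]
      refine sum_congr rfl fun l _ => ?_
      have h4 := cx4 i (mem_range.1 hi) l₁ hl₁
      rw [h4]
      ring
    -- the second block
    have two : ∀ z : ℕ → k, (∀ ρ₂, ρ₂ < g → a ≤ ρ₂ → ρ₂ + 1 < μ →
        (∑ l ∈ range (K + 2), z (cc g (μ - 2) ρ₂ + g * l) *
          pm (fun s => uX k (K + 1) (s + sh (μ - 2) ρ₂)) ((range (K + 2)).erase l)
            (List.range (K + 1)) = 0) → ∑ l ∈ Ico 1 (K + 1), z (μ - 2 - ρ₂ + g * l) = 0) := by
      intro z ρ₂ _ h3 h4 h5
      rw [hsh0 ρ₂ h4] at h5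
      have e6 : cc g (μ - 2) ρ₂ = μ - 2 - ρ₂ := if_pos (by omega)
      rw [e6] at h5
      have h6 : ∑ l ∈ range (K + 2), z (μ - 2 - ρ₂ + g * l) *
          pm (fun s => uX k (K + 1) (s + 0)) ((range (K + 2)).erase l) (List.range (K + 1)) =
          2 * ∑ l ∈ Ico 1 (K + 1), z (μ - 2 - ρ₂ + g * l) := by
        rw [mul_sum]
        have h7 : Ico 1 (K + 1) = (range (K + 2)).filter fun l => ¬ (l = 0 ∨ l = K + 1) := by
          ext l
          rw [mem_Ico, mem_filter, mem_range]
          omega
        rw [h7, sum_filter]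
        refine sum_congr rfl fun l hl => ?_
        have h8 : pm (fun s => uX k (K + 1) (s + 0)) ((range (K + 2)).erase l)
            (List.range (K + 1)) = if l = 0 ∨ l = K + 1 then 0 else 2 := cx5 l (mem_range.1 hl)
        rw [h8]
        by_cases h9 : l = 0 ∨ l = K + 1
        · rw [if_pos h9, if_neg (not_not.2 h9), mul_zero]
        · rw [if_neg h9, if_pos h9, mul_comm]
      rw [h6] at h5
      exact (mul_eq_zero.1 h5).resolve_left h2
    -- a block on the left
    have twoA : ∀ z : ℕ → k, ∀ ρ₂ < g, ρ₂ < a → (∀ i₂ < K + 1,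
        ∑ l ∈ range (K + 1), z (cc g (μ - 2) ρ₂ + g * l) *
          pm (fun s => uX k (K + 1) (s + sh (μ - 2) ρ₂)) ((range (K + 1)).erase l)
            ((List.range (K + 1)).erase i₂) = 0) → ∀ l < K + 1, z (μ - 2 - ρ₂ + g * l) = 0 := by
      intro z ρ₂ _ h3 h5
      rw [hsh0 ρ₂ (by omega)] at h5
      have e6 : cc g (μ - 2) ρ₂ = μ - 2 - ρ₂ := if_pos (by omega)
      rw [e6] at h5
      refine (hci (fun l => z (μ - 2 - ρ₂ + g * l))).1 ?_
      intro i₂ hi₂
      refine Eq.trans (sum_congr rfl fun l hl => ?_) (h5 i₂ hi₂)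
      have h8 : pm (fun s => uX k (K + 1) (s + 0)) ((range (K + 1)).erase l)
          ((List.range (K + 1)).erase i₂) = if i₂ + l < K + 1 then 1 else -1 :=
        cx2 i₂ hi₂ l (mem_range.1 hl)
      rw [h8, Nat.add_comm i₂ l]
    -- a block on the right
    have twoD : ∀ z : ℕ → k, ∀ ρ₂ < g, μ ≤ ρ₂ → (
        ∑ l ∈ range (K + 1), z (cc g (μ - 2) ρ₂ + g * l) *
          pm (fun s => uX k (K + 1) (s + sh (μ - 2) ρ₂)) ((range (K + 1)).erase l)
            (List.range K) = 0) → ∑ l ∈ range (K + 1), z (μ - 2 + g - ρ₂ + g * l) = 0 := by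
      intro z ρ₂ _ h3 h5
      rw [hsh1 ρ₂ (by omega)] at h5
      have e6 : cc g (μ - 2) ρ₂ = μ - 2 + g - ρ₂ := if_neg (by omega)
      rw [e6] at h5
      refine Eq.trans (sum_congr rfl fun l hl => ?_) h5
      rw [cx6 l (mem_range.1 hl), mul_one]
    -- the sizes of the blocks
    have bB : ∀ ρ, a ≤ ρ → ρ + 1 < μ → BSub (g * (K + 1) + ν) (g * K + μ) g (μ - 2) ρ
        (vv a μ K ρ + 1) (vv a μ K ρ) (range (K + 2)) (List.range (K + 1)) := by
      intro ρ h3 h4
      have e1 : vv a μ K ρ = K + 1 := by unfold vv; rw [if_neg (by omega), if_pos h4]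
      have e2 : LB a μ K ρ = K + 2 := if_pos ⟨h3, h4⟩
      have e3 : SB μ K ρ = K + 1 := if_pos (by omega)
      rw [e1]
      refine bsub ha hμ hg (by omega) (card_range _) List.length_range List.nodup_range ?_ ?_
      · intro l hl; rw [e2]; exact mem_range.1 hl
      · intro i hi; rw [e3]; exact List.mem_range.1 hi
    have bA : ∀ ρ, ρ < μ → (ρ < a ∨ ρ = μ - 1) → ∀ i₂ < K + 1,
        BSub (g * (K + 1) + ν) (g * K + μ) g (μ - 2) ρ
        (vv a μ K ρ + 1) (vv a μ K ρ) (range (K + 1)) ((List.range (K + 1)).erase i₂) := by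
      intro ρ h3 h4 i₂ hi₂
      have e1 : vv a μ K ρ = K := by unfold vv; split_ifs <;> omega
      have e2 : LB a μ K ρ = K + 1 := if_neg (by omega)
      have e3 : SB μ K ρ = K + 1 := if_pos (by omega)
      rw [e1]
      refine bsub ha hμ hg (by omega) (card_range _) (len_er hi₂) (List.nodup_range.erase _) ?_ ?_
      · intro l hl; rw [e2]; exact mem_range.1 hl
      · intro i hi; rw [e3]; exact lt_of_ler hi
    have bD : ∀ ρ, μ ≤ ρ → ρ < g → BSub (g * (K + 1) + ν) (g * K + μ) g (μ - 2) ρ
        (vv a μ K ρ + 1) (vv a μ K ρ) (range (K + 1)) (List.range K) := by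
      intro ρ h3 h4
      have e1 : vv a μ K ρ = K := by unfold vv; split_ifs <;> omega
      have e2 : LB a μ K ρ = K + 1 := if_neg (by omega)
      have e3 : SB μ K ρ = K := if_neg (by omega)
      rw [e1]
      refine bsub ha hμ hg h4 (card_range _) List.length_range List.nodup_range ?_ ?_
      · intro l hl; rw [e2]; exact mem_range.1 hl
      · intro i hi; rw [e3]; exact List.mem_range.1 hi
    have bS : ∀ ρ, ρ < μ → (ρ < a ∨ ρ = μ - 1) →
        BSub (g * (K + 1) + ν) (g * K + μ) g (μ - 2) ρ
        (vv a μ K ρ + 1) (vv a μ K ρ + 1) (range (K + 1)) (List.range (K + 1)) := by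
      intro ρ h3 h4
      have e1 : vv a μ K ρ = K := by unfold vv; split_ifs <;> omega
      have e2 : LB a μ K ρ = K + 1 := if_neg (by omega)
      have e3 : SB μ K ρ = K + 1 := if_pos (by omega)
      rw [e1]
      refine bsub ha hμ hg (by omega) (card_range _) List.length_range List.nodup_range ?_ ?_
      · intro l hl; rw [e2]; exact mem_range.1 hl
      · intro i hi; rw [e3]; exact List.mem_range.1 hi
    refine ⟨?_, ?_, ?_, ?_, ?_, ?_, ?_, ?_⟩
    · -- x0
      intro i hi σ hσ
      have h3 := two (fun v => y (g * i + v)) (μ - 2 - σ) (by omega) (by omega) (by omega)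
        (R0 (μ - 2 - σ) (by omega) (by omega) _ _ (bB _ (by omega) (by omega)) i hi)
      have e7 : μ - 2 - (μ - 2 - σ) = σ := by omega
      rw [e7] at h3
      exact h3
    · -- z0
      intro i hi σ h3 h4 l hl
      have h5 := twoA (fun v => y (g * i + v)) (μ - 2 - σ) (by omega) (by omega)
        (fun i₂ hi₂ => R0 (μ - 2 - σ) (by omega) (by omega) _ _
          (bA _ (by omega) (Or.inl (by omega)) i₂ hi₂) i hi) l hl
      have e7 : μ - 2 - (μ - 2 - σ) = σ := by omega
      rw [e7] at h5
      exact h5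
    · -- y0
      intro i hi σ h3 h4
      have h5 := twoD (fun v => y (g * i + v)) (μ - 2 + g - σ) (by omega) (by omega)
        (R0 (μ - 2 + g - σ) (by omega) (by omega) _ _ (bD _ (by omega) (by omega)) i hi)
      have e7 : μ - 2 + g - (μ - 2 + g - σ) = σ := by omega
      rw [e7] at h5
      exact h5
    · -- w0
      intro i hi
      refine (hci (fun l => y (g * i + (g - 1 + g * l)))).2.1 ?_
      intro i₂ hi₂
      have h5 := R0 (μ - 1) (by omega) (by omega) _ _
        (bA _ (by omega) (Or.inr rfl) i₂ hi₂) i hi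
      have e6 : cc g (μ - 2) (μ - 1) = g - 1 := by
        unfold cc
        rw [if_neg (by omega)]
        omega
      rw [hsh1 (μ - 1) (by omega), e6] at h5
      refine Eq.trans (sum_congr rfl fun l hl => ?_) h5
      rw [cx4 i₂ hi₂ l (mem_range.1 hl), Nat.add_comm i₂ l]
    · -- x1
      intro i hi σ hσ
      have h3 := two (fun v => y (μ - 1 + g * i + v)) (μ - 2 - σ) (by omega) (by omega) (by omega)
        (R1 (μ - 2 - σ) (by omega) (by omega) _ _ (bB _ (by omega) (by omega)) i hi)
      have e7 : μ - 2 - (μ - 2 - σ) = σ := by omega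
      rw [e7] at h3
      exact h3
    · -- z1
      intro i hi σ h3 h4 l hl
      have h5 := twoA (fun v => y (μ - 1 + g * i + v)) (μ - 2 - σ) (by omega) (by omega)
        (fun i₂ hi₂ => R1 (μ - 2 - σ) (by omega) (by omega) _ _
          (bA _ (by omega) (Or.inl (by omega)) i₂ hi₂) i hi) l hl
      have e7 : μ - 2 - (μ - 2 - σ) = σ := by omega
      rw [e7] at h5
      exact h5
    · -- y1
      intro i hi σ h3 h4
      have h5 := twoD (fun v => y (μ - 1 + g * i + v)) (μ - 2 + g - σ) (by omega) (by omega)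
        (R1 (μ - 2 + g - σ) (by omega) (by omega) _ _ (bD _ (by omega) (by omega)) i hi)
      have e7 : μ - 2 + g - (μ - 2 + g - σ) = σ := by omega
      rw [e7] at h5
      exact h5
    · -- cl
      intro hz
      constructor
      · have h3 := RC 0 (by omega) _ _ (bS 0 (by omega) (Or.inl (by omega)))
        rw [hsh0 0 (by omega)] at h3
        have h4 := h3 cx1
        rw [hBF _ _ _ _ List.nodup_range, List.toFinset_range] at h4
        have h5 : ∑ i ∈ range (K + 1), ∑ l ∈ range (K + 1), y (μ - 2 + g * (l + i + 0)) *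
            pm (fun s => uX k (K + 1) (s + 0)) ((range (K + 1)).erase l)
              ((List.range (K + 1)).erase i) = y (μ - 2) := by
          rw [sum_eq_single 0, sum_eq_single 0]
          · have h6 : pm (fun s => uX k (K + 1) (s + 0)) ((range (K + 1)).erase 0)
                ((List.range (K + 1)).erase 0) = if 0 + 0 < K + 1 then 1 else -1 :=
              cx2 0 (by omega) 0 (by omega)
            rw [h6, if_pos (by omega), mul_one]
            simp
          · intro l hl hl0
            rw [mem_range] at hl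
            rw [hz (l + 0 + 0) (by omega) (by omega), zero_mul]
          · intro h6
            exact absurd (mem_range.2 (by omega)) h6
          · intro i hi hi0
            rw [mem_range] at hi
            refine sum_eq_zero fun l hl => ?_
            rw [mem_range] at hl
            rw [hz (l + i + 0) (by omega) (by omega), zero_mul]
          · intro h6
            exact absurd (mem_range.2 (by omega)) h6
        exact h5.symm.trans h4
      · have h3 := RC (μ - 1) (by omega) _ _ (bS (μ - 1) (by omega) (Or.inr rfl))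
        rw [hsh1 (μ - 1) (by omega)] at h3
        have h4 := h3 cx3
        rw [hBF _ _ _ _ List.nodup_range, List.toFinset_range] at h4
        have h5 : ∑ i ∈ range (K + 1), ∑ l ∈ range (K + 1), y (μ - 2 + g * (l + i + 1)) *
            pm (fun s => uX k (K + 1) (s + 1)) ((range (K + 1)).erase l)
              ((List.range (K + 1)).erase i) = y (μ - 2 + g * (2 * (K + 1) - 1)) := by
          rw [sum_eq_single K, sum_eq_single K]
          · rw [cx4 K (by omega) K (by omega), if_neg (by omega), mul_one]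
            congr 2
            congr 1
            omega
          · intro l hl hl0
            rw [mem_range] at hl
            rw [hz (l + K + 1) (by omega) (by omega), zero_mul]
          · intro h6
            exact absurd (mem_range.2 (by omega)) h6
          · intro i hi hi0
            rw [mem_range] at hi
            refine sum_eq_zero fun l hl => ?_
            rw [mem_range] at hl
            rw [hz (l + i + 1) (by omega) (by omega), zero_mul]
          · intro h6
            exact absurd (mem_range.2 (by omega)) h6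
        exact h5.symm.trans h4

end Pool.Agent.N729.HP.PX
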