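import Pool.Agent.N729.HP.Stm

/-!
Project HN, part RA: submatrices composed of blocks (helper454).
-/

set_option autoImplicit false

namespace Pool.Agent.N729.HP.RA

open Finset
open Pool.Agent.N186.HK (pm pm_nil pm_congr)

lemma cc_add {g c ρ : ℕ} (hρ : ρ < g) : ρ + cc g c ρ = c + g * sh c ρ := by
  unfold cc sh
  split_ifs with h
  · omega
  · rw [mul_one]; omega

lemma cc_lt {g c ρ : ℕ} (hc : c < g) : cc g c ρ < g := by
  unfold cc
  split_ifs with h <;> omega

lemma cc_inj {g c ρ ρ' : ℕ} (_hc : c < g) (hρ : ρ < g) (hρ' : ρ' < g)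
    (h : cc g c ρ = cc g c ρ') : ρ = ρ' := by
  unfold cc at h
  split_ifs at h <;> omega

lemma mod_add_mul (a g i : ℕ) : (a + g * i) % g = a % g := Nat.add_mul_mod_self_left a g i

lemma cst_same {D : Type*} [CommRing D] {g c ρ : ℕ} (u : ℕ → D) (hc : c < g) (hρ : ρ < g)
    (s : ℕ) : cst g c u (ρ + cc g c ρ + g * s) = u (s + sh c ρ) := by
  have hg : 0 < g := by omega
  have h1 : ρ + cc g c ρ + g * s = c + g * (s + sh c ρ) := by
    rw [cc_add hρ]; ring
  rw [h1]
  unfold cst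
  rw [if_pos (by rw [mod_add_mul, Nat.mod_eq_of_lt hc]), Nat.add_mul_div_left _ _ hg,
    Nat.div_eq_of_lt hc, zero_add]

lemma cst_ne {D : Type*} [CommRing D] {g c ρ ρ' : ℕ} (u : ℕ → D) (hc : c < g) (hρ : ρ < g)
    (hρ' : ρ' < g) (hne : ρ ≠ ρ') (i l : ℕ) :
    cst g c u (cc g c ρ' + g * l + (ρ + g * i)) = 0 := by
  have h1 : cc g c ρ' + g * l + (ρ + g * i) = (ρ + cc g c ρ') + g * (l + i) := by ring
  rw [h1]
  unfold cst
  rw [if_neg]
  rw [mod_add_mul]
  intro h
  unfold cc at h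
  split_ifs at h with h2
  · by_cases h3 : ρ + (c - ρ') < g
    · rw [Nat.mod_eq_of_lt h3] at h; omega
    · rw [Nat.mod_eq_sub_mod (by omega), Nat.mod_eq_of_lt (by omega)] at h; omega
  · by_cases h3 : ρ + (c + g - ρ') < g
    · rw [Nat.mod_eq_of_lt h3] at h; omega
    · rw [Nat.mod_eq_sub_mod (by omega)] at h
      by_cases h4 : ρ + (c + g - ρ') - g < g
      · rw [Nat.mod_eq_of_lt h4] at h; omega
      · rw [Nat.mod_eq_sub_mod (by omega), Nat.mod_eq_of_lt (by omega)] at h; omega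

lemma mem_LG {g : ℕ} {Ls : ℕ → List ℕ} {A : List ℕ} {c' : ℕ} :
    c' ∈ LG g Ls A ↔ ∃ ρ ∈ A, ∃ i ∈ Ls ρ, ρ + g * i = c' := by
  simp only [LG, List.mem_flatMap, List.mem_map]

lemma mem_JG {g c : ℕ} {Js : ℕ → Finset ℕ} {A : List ℕ} {j : ℕ} :
    j ∈ JG g c Js A ↔ ∃ ρ ∈ A, ∃ l ∈ Js ρ, cc g c ρ + g * l = j := by
  simp only [JG, Finset.mem_biUnion, List.mem_toFinset, Finset.mem_image]

lemma zero_of {D : Type*} [CommRing D] {g c : ℕ} (u : ℕ → D) (hc : c < g)
    (Js : ℕ → Finset ℕ) (Ls : ℕ → List ℕ) (A B : List ℕ) (hAB : ∀ ρ ∈ A, ∀ ρ' ∈ B, ρ ≠ ρ')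
    (hA : ∀ ρ ∈ A, ρ < g) (hB : ∀ ρ ∈ B, ρ < g) :
    ∀ c' ∈ LG g Ls A, ∀ j ∈ JG g c Js B, cst g c u (j + c') = 0 := by
  intro c' hc' j hj
  obtain ⟨ρ, hρ, i, _, rfl⟩ := mem_LG.1 hc'
  obtain ⟨ρ', hρ', l, _, rfl⟩ := mem_JG.1 hj
  exact cst_ne u hc (hA ρ hρ) (hB ρ' hρ') (hAB ρ hρ ρ' hρ') i l

lemma mod_block {g c ρ : ℕ} (hc : c < g) (l : ℕ) : (cc g c ρ + g * l) % g = cc g c ρ := by
  rw [mod_add_mul, Nat.mod_eq_of_lt (cc_lt hc)]

lemma disj {g c : ℕ} (hc : c < g)
    (Js : ℕ → Finset ℕ) (A B : List ℕ) (hAB : ∀ ρ ∈ A, ∀ ρ' ∈ B, ρ ≠ ρ')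
    (hA : ∀ ρ ∈ A, ρ < g) (hB : ∀ ρ ∈ B, ρ < g) : Disjoint (JG g c Js A) (JG g c Js B) := by
  rw [Finset.disjoint_left]
  intro j hj hj'
  obtain ⟨ρ, hρ, l, _, h⟩ := mem_JG.1 hj
  obtain ⟨ρ', hρ', l', _, h'⟩ := mem_JG.1 hj'
  have h1 := mod_block (ρ := ρ) hc l
  have h2 := mod_block (ρ := ρ') hc l'
  rw [h] at h1
  rw [h'] at h2
  exact hAB ρ hρ ρ' hρ' (cc_inj hc (hA ρ hρ) (hB ρ' hρ') (h1.symm.trans h2))

lemma JG_cons {g c : ℕ} (Js : ℕ → Finset ℕ) (ρ : ℕ) (A : List ℕ) :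
    JG g c Js (ρ :: A) = ((Js ρ).image fun l => cc g c ρ + g * l) ∪ JG g c Js A := by
  unfold JG
  rw [List.toFinset_cons, Finset.biUnion_insert]

lemma JG_single {g c : ℕ} (Js : ℕ → Finset ℕ) (ρ : ℕ) :
    JG g c Js [ρ] = (Js ρ).image fun l => cc g c ρ + g * l := by
  rw [JG_cons]
  simp [JG]

lemma LG_cons {g : ℕ} (Ls : ℕ → List ℕ) (ρ : ℕ) (A : List ℕ) :
    LG g Ls (ρ :: A) = ((Ls ρ).map fun i => ρ + g * i) ++ LG g Ls A := by
  unfold LG
  rw [List.flatMap_cons]

lemma LG_single {g : ℕ} (Ls : ℕ → List ℕ) (ρ : ℕ) :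
    LG g Ls [ρ] = (Ls ρ).map fun i => ρ + g * i := by
  rw [LG_cons]
  simp [LG]

theorem t (D : Type*) [CommRing D] (_hBA : StmBA D) (hBB : StmBB D) (hBE : StmBE D) :
    StmRA D := by
  intro g c u hc Js Ls A B hnd hlt
  have hg : 0 < g := by omega
  have hA : ∀ ρ ∈ A, ρ < g := fun ρ h => hlt ρ (List.mem_append_left _ h)
  have hB : ∀ ρ ∈ B, ρ < g := fun ρ h => hlt ρ (List.mem_append_right _ h)
  have hAB : ∀ ρ ∈ A, ∀ ρ' ∈ B, ρ ≠ ρ' := by
    intro ρ h ρ' h' he
    subst he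
    exact (List.disjoint_of_nodup_append hnd) h h'
  have hndA : A.Nodup := hnd.of_append_left
  clear hnd hlt
  refine ⟨zero_of u hc Js Ls A B hAB hA hB,
    zero_of u hc Js Ls B A (fun ρ h ρ' h' => (hAB ρ' h' ρ h).symm) hB hA,
    disj hc Js A B hAB hA hB, ?_, ?_, ?_, ?_⟩
  · clear hAB hB
    induction A with
    | nil => simp [JG]
    | cons ρ A ih =>
      rw [List.nodup_cons] at hndA
      have hd : Disjoint (JG g c Js [ρ]) (JG g c Js A) := by
        refine disj hc Js [ρ] A ?_ ?_ ?_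
        · intro r hr r' hr' he
          rw [List.mem_singleton] at hr
          subst hr; subst he
          exact hndA.1 hr'
        · intro r hr
          rw [List.mem_singleton] at hr
          subst hr
          exact hA r List.mem_cons_self
        · exact fun r hr => hA r (List.mem_cons_of_mem _ hr)
      rw [JG_single] at hd
      rw [JG_cons, Finset.card_union_of_disjoint hd,
        ih (fun r hr => hA r (List.mem_cons_of_mem _ hr)) hndA.2, List.toFinset_cons,
        Finset.sum_insert (by rw [List.mem_toFinset]; exact hndA.1),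
        Finset.card_image_of_injective]
      intro l l' h
      have h' : cc g c ρ + g * l = cc g c ρ + g * l' := h
      exact Nat.eq_of_mul_eq_mul_left hg (Nat.add_left_cancel h')
  · clear hAB hB hA
    induction A with
    | nil => simp [LG]
    | cons ρ A ih =>
      rw [List.nodup_cons] at hndA
      rw [LG_cons, List.length_append, List.length_map, ih hndA.2, List.toFinset_cons,
        Finset.sum_insert (by rw [List.mem_toFinset]; exact hndA.1)]
  · clear hAB hB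
    induction A with
    | nil => simp [LG]
    | cons ρ A ih =>
      intro hL
      rw [List.nodup_cons] at hndA
      rw [LG_cons, List.nodup_append]
      refine ⟨?_, ih (fun r hr => hA r (List.mem_cons_of_mem _ hr)) hndA.2
        fun r hr => hL r (List.mem_cons_of_mem _ hr), ?_⟩
      · refine (hL ρ List.mem_cons_self).map ?_
        intro l l' h
        have h' : ρ + g * l = ρ + g * l' := h
        exact Nat.eq_of_mul_eq_mul_left hg (Nat.add_left_cancel h')
      · intro a ha b hb he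
        subst he
        obtain ⟨i, _, hi⟩ := List.mem_map.1 ha
        obtain ⟨ρ', hρ', i', _, hi'⟩ := mem_LG.1 hb
        have h1 : (ρ + g * i) % g = ρ := by
          rw [mod_add_mul, Nat.mod_eq_of_lt (hA ρ List.mem_cons_self)]
        have h2 : (ρ' + g * i') % g = ρ' := by
          rw [mod_add_mul, Nat.mod_eq_of_lt (hA ρ' (List.mem_cons_of_mem _ hρ'))]
        rw [hi] at h1
        rw [hi'] at h2
        rw [h1] at h2
        rw [← h2] at hρ'
        exact hndA.1 hρ'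
  · clear hAB hB
    induction A with
    | nil => simp [LG, JG, pm_nil]
    | cons ρ A ih =>
      rw [List.nodup_cons] at hndA
      have hA' : ∀ r ∈ A, r < g := fun r hr => hA r (List.mem_cons_of_mem _ hr)
      have hne : ∀ r ∈ [ρ], ∀ r' ∈ A, r ≠ r' := by
        intro r hr r' hr' he
        rw [List.mem_singleton] at hr
        subst hr; subst he
        exact hndA.1 hr'
      have hρ1 : ∀ r ∈ [ρ], r < g := by
        intro r hr
        rw [List.mem_singleton] at hr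
        subst hr
        exact hA r List.mem_cons_self
      have hd := disj hc Js [ρ] A hne hρ1 hA'
      have hz1 := zero_of u hc Js Ls [ρ] A hne hρ1 hA'
      have hz2 := zero_of u hc Js Ls A [ρ] (fun r h r' h' => (hne r' h' r h).symm) hA' hρ1
      rw [JG_single] at hd hz2
      rw [LG_single] at hz1
      rw [JG_cons, LG_cons, hBB _ _ _ _ _ hd hz1 hz2, ih hA' hndA.2,
        List.toFinset_cons, Finset.prod_insert (by rw [List.mem_toFinset]; exact hndA.1),
        (hBE (cst g c u) (cst g c u) g ρ (cc g c ρ) hg (Js ρ) (Ls ρ)).1]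
      congr 1
      refine pm_congr _ _ ?_
      intro i _ l _
      exact cst_same u hc (hA ρ List.mem_cons_self) (i + l)

end Pool.Agent.N729.HP.RA
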