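import Pool.Agent.N729.HP.Stm

set_option autoImplicit false

/-!
# Project HN (helper729), parts RR and RC: the linear relations from the derivatives
-/

namespace Pool.Agent.N729.HP.RR

open Finset
open Pool.Agent.N186.HK (pm pm_congr)
open Pool.Agent.N729.HP

theorem cc_add {g c ρ : ℕ} (hρ : ρ < g) (s : ℕ) :
    ρ + cc g c ρ + g * s = c + g * (s + sh c ρ) := by
  unfold cc sh
  split_ifs with h
  · rw [Nat.add_zero]
    omega
  · rw [Nat.mul_add, Nat.mul_one]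
    omega

section

variable {D : Type*} [CommRing D]

theorem cst_val {g c : ℕ} (hc : c < g) (u : ℕ → D) (s : ℕ) : cst g c u (c + g * s) = u s := by
  unfold cst
  rw [Nat.add_mul_mod_self_left, Nat.mod_eq_of_lt hc, if_pos rfl,
    Nat.add_mul_div_left _ _ (by omega), Nat.div_eq_of_lt hc, zero_add]

theorem pm_block (hBE : StmBE D) {g c ρ : ℕ} (hc : c < g) (hρ : ρ < g) (u : ℕ → D)
    (J : Finset ℕ) (L : List ℕ) :
    pm (cst g c u) (J.image fun l => cc g c ρ + g * l) (L.map fun i => ρ + g * i) =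
      pm (fun s => u (s + sh c ρ)) J L := by
  rw [(hBE (cst g c u) (cst g c u) g ρ (cc g c ρ) (by omega) J L).1]
  congr 1
  funext s
  rw [cc_add hρ, cst_val hc]

theorem pd_block (hBE : StmBE D) {g c ρ : ℕ} (hc : c < g) (hρ : ρ < g) (u y : ℕ → D)
    (J : Finset ℕ) (L : List ℕ) :
    pd (cst g c u) y (J.image fun l => cc g c ρ + g * l) (L.map fun i => ρ + g * i) =
      pd (fun s => u (s + sh c ρ)) (fun s => y (c + g * (s + sh c ρ))) J L := by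
  rw [(hBE (cst g c u) y g ρ (cc g c ρ) (by omega) J L).2]
  congr 1
  · funext s
    rw [cc_add hρ, cst_val hc]
  · funext s
    rw [cc_add hρ]

end

theorem LG_single (g : ℕ) (Ls : ℕ → List ℕ) (ρ : ℕ) :
    LG g Ls [ρ] = (Ls ρ).map fun i => ρ + g * i := by
  simp [LG]

theorem JG_single (g c : ℕ) (Js : ℕ → Finset ℕ) (ρ : ℕ) :
    JG g c Js [ρ] = (Js ρ).image fun l => cc g c ρ + g * l := by
  simp [JG]

theorem LG_append (g : ℕ) (Ls : ℕ → List ℕ) (A B : List ℕ) :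
    LG g Ls (A ++ B) = LG g Ls A ++ LG g Ls B := by
  simp [LG]

theorem JG_append (g c : ℕ) (Js : ℕ → Finset ℕ) (A B : List ℕ) :
    JG g c Js (A ++ B) = JG g c Js A ∪ JG g c Js B := by
  unfold JG
  rw [List.toFinset_append, Finset.union_biUnion]

theorem mem_JG {g c : ℕ} {Js : ℕ → Finset ℕ} {A : List ℕ} {j : ℕ} :
    j ∈ JG g c Js A ↔ ∃ ρ ∈ A, ∃ l ∈ Js ρ, cc g c ρ + g * l = j := by
  simp [JG]

theorem mem_LG {g : ℕ} {Ls : ℕ → List ℕ} {A : List ℕ} {j : ℕ} :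
    j ∈ LG g Ls A ↔ ∃ ρ ∈ A, ∃ i ∈ Ls ρ, ρ + g * i = j := by
  simp [LG]

theorem sub_of {k : Type*} [Field k] (hRA : StmRA k) {g c n m t : ℕ} (hc : c < g)
    (Js : ℕ → Finset ℕ) (Ls : ℕ → List ℕ) (A : List ℕ) (hA : A.Nodup)
    (hAg : ∀ ρ, ρ ∈ A ↔ ρ < g) (hJ : ∑ ρ ∈ range g, (Js ρ).card = t)
    (hL : ∑ ρ ∈ range g, (Ls ρ).length = t) (hnd : ∀ ρ < g, (Ls ρ).Nodup)
    (hJn : ∀ ρ < g, ∀ l ∈ Js ρ, cc g c ρ + g * l < n)
    (hLm : ∀ ρ < g, ∀ i ∈ Ls ρ, ρ + g * i < m) :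
    Sub n m t (JG g c Js A) (LG g Ls A) := by
  have hAf : A.toFinset = range g := by
    ext ρ
    rw [List.mem_toFinset, mem_range, hAg]
  obtain ⟨-, -, -, h4, h5, h6, -⟩ := hRA g c (fun _ => 0) hc Js Ls A [] (by simpa using hA)
    (fun ρ hρ => (hAg ρ).1 (by simpa using hρ))
  refine ⟨by rw [h4, hAf, hJ], by rw [h5, hAf, hL], h6 fun ρ hρ => hnd ρ ((hAg ρ).1 hρ), ?_, ?_⟩
  · intro j hj
    obtain ⟨ρ, hρ, l, hl, rfl⟩ := mem_JG.1 hj
    exact hJn ρ ((hAg ρ).1 hρ) l hl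
  · intro j hj
    obtain ⟨ρ, hρ, l, hl, rfl⟩ := mem_LG.1 hj
    exact hLm ρ ((hAg ρ).1 hρ) l hl

theorem sum_ite_one (g ρ₀ t : ℕ) (v : ℕ → ℕ) (h₀ : ρ₀ < g) (hv : ∑ ρ ∈ range g, v ρ + 1 = t)
    (f : ℕ → ℕ) (hf : ∀ ρ < g, f ρ = v ρ + if ρ = ρ₀ then 1 else 0) :
    ∑ ρ ∈ range g, f ρ = t := by
  rw [Finset.sum_congr rfl fun ρ hρ => hf ρ (mem_range.1 hρ), Finset.sum_add_distrib,
    Finset.sum_ite_eq' (range g) ρ₀ (fun _ => 1), if_pos (mem_range.2 h₀)]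
  exact hv

theorem tr (k : Type*) [Field k] (hBA : StmBA k) (hBB : StmBB k) (_hBC : StmBC k)
    (hBD : StmBD k) (hBE : StmBE k) (hRA : StmRA k) : StmRR k := by
  intro g c n m t u y hc v hv hpd Js Ls hB hnz ρ₁ hρ₁ ρ₂ hρ₂ hne J₁ L₁ J₂ L₂ hB1 hB2
  obtain ⟨rest, hrest⟩ : ∃ rest, rest = (List.range g).filter fun ρ => ρ ≠ ρ₁ ∧ ρ ≠ ρ₂ := ⟨_, rfl⟩
  have mrest : ∀ ρ, ρ ∈ rest ↔ ρ < g ∧ ρ ≠ ρ₁ ∧ ρ ≠ ρ₂ := by
    intro ρ
    rw [hrest]
    simp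
  have nrest : rest.Nodup := by
    rw [hrest]
    exact List.nodup_range.filter _
  obtain ⟨Js', hJs'⟩ : ∃ Js' : ℕ → Finset ℕ, Js' = fun ρ => if ρ = ρ₁ then J₁ else
    if ρ = ρ₂ then J₂ else Js ρ := ⟨_, rfl⟩
  obtain ⟨Ls', hLs'⟩ : ∃ Ls' : ℕ → List ℕ, Ls' = fun ρ => if ρ = ρ₁ then L₁ else
    if ρ = ρ₂ then L₂ else Ls ρ := ⟨_, rfl⟩
  have j1 : Js' ρ₁ = J₁ := by rw [hJs']; simp
  have j2 : Js' ρ₂ = J₂ := by rw [hJs']; simp [hne.symm]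
  have j3 : ∀ ρ, ρ ≠ ρ₁ → ρ ≠ ρ₂ → Js' ρ = Js ρ := by
    intro ρ h h'
    rw [hJs']
    simp [h, h']
  have l1 : Ls' ρ₁ = L₁ := by rw [hLs']; simp
  have l2 : Ls' ρ₂ = L₂ := by rw [hLs']; simp [hne.symm]
  have l3 : ∀ ρ, ρ ≠ ρ₁ → ρ ≠ ρ₂ → Ls' ρ = Ls ρ := by
    intro ρ h h'
    rw [hLs']
    simp [h, h']
  have hB' : ∀ ρ < g, BSub n m g c ρ (v ρ + if ρ = ρ₂ then 1 else 0)
      (v ρ + if ρ = ρ₁ then 1 else 0) (Js' ρ) (Ls' ρ) := by
    intro ρ hρ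
    by_cases h : ρ = ρ₁
    · subst h
      rw [j1, l1, if_neg hne, if_pos rfl]
      exact hB1
    · by_cases h' : ρ = ρ₂
      · subst h'
        rw [j2, l2, if_pos rfl, if_neg h]
        exact hB2
      · rw [j3 ρ h h', l3 ρ h h', if_neg h, if_neg h']
        exact hB ρ hρ
  have hJsum := sum_ite_one g ρ₂ t v hρ₂ hv (fun ρ => (Js' ρ).card) fun ρ hρ => (hB' ρ hρ).1
  have hLsum := sum_ite_one g ρ₁ t v hρ₁ hv (fun ρ => (Ls' ρ).length) fun ρ hρ => (hB' ρ hρ).2.1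
  have hnd2 : (ρ₂ :: rest).Nodup :=
    List.nodup_cons.2 ⟨fun h => ((mrest _).1 h).2.2 rfl, nrest⟩
  have hndA : ([ρ₁] ++ (ρ₂ :: rest)).Nodup := by
    refine List.nodup_cons.2 ⟨fun h => ?_, hnd2⟩
    rcases List.mem_cons.1 h with h | h
    · exact hne h
    · exact ((mrest _).1 h).2.1 rfl
  have hmem : ∀ ρ, ρ ∈ [ρ₁] ++ (ρ₂ :: rest) ↔ ρ < g := by
    intro ρ
    rw [List.mem_append, List.mem_singleton, List.mem_cons, mrest]
    constructor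
    · rintro (h | h | h)
      · rw [h]; exact hρ₁
      · rw [h]; exact hρ₂
      · exact h.1
    · intro h
      by_cases h1 : ρ = ρ₁
      · exact Or.inl h1
      · by_cases h2 : ρ = ρ₂
        · exact Or.inr (Or.inl h2)
        · exact Or.inr (Or.inr ⟨h, h1, h2⟩)
  have hsub : Sub n m t (JG g c Js' ([ρ₁] ++ (ρ₂ :: rest))) (LG g Ls' ([ρ₁] ++ (ρ₂ :: rest))) :=
    sub_of hRA hc Js' Ls' _ hndA hmem hJsum hLsum (fun ρ hρ => (hB' ρ hρ).2.2.1)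
      (fun ρ hρ => (hB' ρ hρ).2.2.2.1) fun ρ hρ => (hB' ρ hρ).2.2.2.2
  have h0 := hpd _ _ hsub
  rw [JG_append, LG_append] at h0
  -- the decompositions
  obtain ⟨a1, a2, a3, a4, a5, a6, -⟩ := hRA g c u hc Js' Ls' [ρ₁] (ρ₂ :: rest) hndA
    fun ρ hρ => (hmem ρ).1 hρ
  obtain ⟨-, -, -, b4, b5, -, -⟩ := hRA g c u hc Js' Ls' (ρ₂ :: rest) []
    (by simpa using hnd2) fun ρ hρ => (hmem ρ).1 (List.mem_append_right _ (by simpa using hρ))
  obtain ⟨c1, c2, c3, -, -, -, -⟩ := hRA g c u hc Js' Ls' [ρ₂] rest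
    (by simpa using hnd2) fun ρ hρ => (hmem ρ).1 (List.mem_append_right _ (by simpa using hρ))
  obtain ⟨-, -, -, d4, d5, -, d7⟩ := hRA g c u hc Js' Ls' rest []
    (by simpa using nrest) fun ρ hρ => ((mrest ρ).1 (by simpa using hρ)).1
  have hcardA : (JG g c Js' [ρ₁]).card + 1 = (LG g Ls' [ρ₁]).length := by
    rw [a4, a5]
    simp only [List.toFinset_cons, List.toFinset_nil, insert_empty_eq, Finset.sum_singleton]
    rw [(hB' ρ₁ hρ₁).1, (hB' ρ₁ hρ₁).2.1, if_neg hne, if_pos rfl]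
  have hcardr : (JG g c Js' rest).card = (LG g Ls' rest).length := by
    rw [d4, d5]
    refine Finset.sum_congr rfl fun ρ hρ => ?_
    obtain ⟨h1, h2, h3⟩ := (mrest ρ).1 (List.mem_toFinset.1 hρ)
    rw [(hB' ρ h1).1, (hB' ρ h1).2.1, if_neg h2, if_neg h3]
  have hcardB : (JG g c Js' (ρ₂ :: rest)).card = (LG g Ls' (ρ₂ :: rest)).length + 1 := by
    have h3 : ρ₂ ∉ rest.toFinset := fun h => ((mrest _).1 (List.mem_toFinset.1 h)).2.2 rfl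
    rw [b4, b5, List.toFinset_cons, Finset.sum_insert h3, Finset.sum_insert h3, ← d4, ← d5, hcardr,
      (hB' ρ₂ hρ₂).1, (hB' ρ₂ hρ₂).2.1, if_pos rfl, if_neg hne.symm]
    omega
  have hndL : (LG g Ls' [ρ₁]).Nodup := a6 fun ρ hρ => by
    rw [List.mem_singleton] at hρ
    rw [hρ]
    exact (hB' ρ₁ hρ₁).2.2.1
  rw [hBD (cst g c u) y _ _ _ _ a3 hndL a1 a2 hcardA hcardB] at h0
  -- the common factor
  obtain ⟨W, hW⟩ : ∃ W, W = pm (cst g c u) (JG g c Js' rest) (LG g Ls' rest) := ⟨_, rfl⟩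
  have hW0 : W ≠ 0 := by
    rw [hW, d7]
    refine Finset.prod_ne_zero_iff.2 fun ρ hρ => ?_
    obtain ⟨h1, h2, h3⟩ := (mrest ρ).1 (List.mem_toFinset.1 hρ)
    rw [j3 ρ h2 h3, l3 ρ h2 h3]
    exact hnz ρ h1
  have hg : 0 < g := by omega
  have inj1 : Function.Injective fun i : ℕ => ρ₁ + g * i := fun a b hab =>
    Nat.eq_of_mul_eq_mul_left hg (Nat.add_left_cancel hab)
  have inj2 : Function.Injective fun i : ℕ => cc g c ρ₂ + g * i := fun a b hab =>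
    Nat.eq_of_mul_eq_mul_left hg (Nat.add_left_cancel hab)
  have hJB : JG g c Js' (ρ₂ :: rest) = JG g c Js' [ρ₂] ∪ JG g c Js' rest := JG_append g c Js' [ρ₂] rest
  have hLB : LG g Ls' (ρ₂ :: rest) = LG g Ls' [ρ₂] ++ LG g Ls' rest := LG_append g Ls' [ρ₂] rest
  -- the terms
  have t1 : ∀ j ∈ JG g c Js' rest, pm (cst g c u) ((JG g c Js' (ρ₂ :: rest)).erase j)
      (LG g Ls' (ρ₂ :: rest)) = 0 := by
    intro j hj
    have hj2 : j ∉ JG g c Js' [ρ₂] := Finset.disjoint_right.1 c3 hj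
    rw [hJB, hLB, Finset.erase_union_distrib, Finset.erase_eq_of_notMem hj2,
      hBB (cst g c u) _ _ _ _ (c3.mono_right (Finset.erase_subset _ _))
        (fun c' hc' j' hj' => c1 c' hc' j' (Finset.mem_of_mem_erase hj')) c2,
      hBA.2.2 (cst g c u) ((JG g c Js' rest).erase j) (LG g Ls' rest), mul_zero]
    rw [Finset.card_erase_of_mem hj, ← hcardr]
    have := Finset.card_pos.2 ⟨j, hj⟩
    omega
  have t2 : ∀ l ∈ J₂, pm (cst g c u) ((JG g c Js' (ρ₂ :: rest)).erase (cc g c ρ₂ + g * l))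
      (LG g Ls' (ρ₂ :: rest)) = pm (fun s => u (s + sh c ρ₂)) (J₂.erase l) L₂ * W := by
    intro l hl
    have hj : cc g c ρ₂ + g * l ∈ JG g c Js' [ρ₂] := by
      rw [JG_single, j2]
      exact Finset.mem_image_of_mem (fun l => cc g c ρ₂ + g * l) hl
    have hj2 : cc g c ρ₂ + g * l ∉ JG g c Js' rest := Finset.disjoint_left.1 c3 hj
    rw [hJB, hLB, Finset.erase_union_distrib, Finset.erase_eq_of_notMem hj2,
      hBB (cst g c u) _ _ _ _ (c3.mono_left (Finset.erase_subset _ _))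
        c1 (fun c' hc' j' hj' => c2 c' hc' j' (Finset.mem_of_mem_erase hj')), ← hW]
    congr 1
    rw [JG_single, LG_single, j2, l2]
    have e1 : (J₂.image fun l => cc g c ρ₂ + g * l).erase (cc g c ρ₂ + g * l) =
        (J₂.erase l).image fun l => cc g c ρ₂ + g * l := (Finset.image_erase inj2 J₂ l).symm
    rw [e1]
    exact pm_block hBE hc hρ₂ u _ _
  have t3 : ∀ i ∈ L₁, pm (cst g c u) (JG g c Js' [ρ₁]) ((LG g Ls' [ρ₁]).erase (ρ₁ + g * i)) =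
      pm (fun s => u (s + sh c ρ₁)) J₁ (L₁.erase i) := by
    intro i _
    rw [JG_single, LG_single, j1, l1]
    have e1 : (L₁.map fun i => ρ₁ + g * i).erase (ρ₁ + g * i) =
        (L₁.erase i).map fun i => ρ₁ + g * i := (List.map_erase inj1 L₁).symm
    rw [e1]
    exact pm_block hBE hc hρ₁ u _ _
  -- conclusion
  have e0 : (LG g Ls' [ρ₁]).toFinset = L₁.toFinset.image fun i => ρ₁ + g * i := by
    rw [LG_single, l1]
    ext x
    simp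
  rw [e0, Finset.sum_image (fun a _ b _ hab => inj1 hab)] at h0
  have e2 : ∀ i ∈ L₁.toFinset, ∑ j ∈ JG g c Js' (ρ₂ :: rest), y (j + (ρ₁ + g * i)) *
      pm (cst g c u) (JG g c Js' [ρ₁]) ((LG g Ls' [ρ₁]).erase (ρ₁ + g * i)) *
      pm (cst g c u) ((JG g c Js' (ρ₂ :: rest)).erase j) (LG g Ls' (ρ₂ :: rest)) =
      (∑ l ∈ J₂, y (ρ₁ + g * i + (cc g c ρ₂ + g * l)) *
        pm (fun s => u (s + sh c ρ₁)) J₁ (L₁.erase i) *
        pm (fun s => u (s + sh c ρ₂)) (J₂.erase l) L₂) * W := by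
    intro i hi
    have hi' := List.mem_toFinset.1 hi
    have e3 : ∀ F : ℕ → k, ∑ j ∈ JG g c Js' (ρ₂ :: rest), F j =
        ∑ l ∈ J₂, F (cc g c ρ₂ + g * l) + ∑ j ∈ JG g c Js' rest, F j := by
      intro F
      rw [hJB, Finset.sum_union c3, JG_single, j2, Finset.sum_image (fun a _ b _ hab => inj2 hab)]
    rw [e3, Finset.sum_mul]
    have e4 : ∑ j ∈ JG g c Js' rest, y (j + (ρ₁ + g * i)) *
        pm (cst g c u) (JG g c Js' [ρ₁]) ((LG g Ls' [ρ₁]).erase (ρ₁ + g * i)) *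
        pm (cst g c u) ((JG g c Js' (ρ₂ :: rest)).erase j) (LG g Ls' (ρ₂ :: rest)) = 0 :=
      Finset.sum_eq_zero fun j hj => by rw [t1 j hj, mul_zero]
    rw [e4, add_zero]
    refine Finset.sum_congr rfl fun l hl => ?_
    rw [t2 l hl, t3 i hi', Nat.add_comm (cc g c ρ₂ + g * l)]
    ring
  rw [Finset.sum_congr rfl e2, ← Finset.sum_mul] at h0
  exact (mul_eq_zero.1 h0).resolve_right hW0

theorem tc (k : Type*) [Field k] (_hBA : StmBA k) (_hBB : StmBB k) (hBC : StmBC k)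
    (_hBD : StmBD k) (hBE : StmBE k) (hRA : StmRA k) : StmRC k := by
  intro g c n m t u y hc v hv hpd Js Ls hB hnz ρ₁ hρ₁ J₁ L₁ hB1 hz
  obtain ⟨rest, hrest⟩ : ∃ rest, rest = (List.range g).filter fun ρ => ρ ≠ ρ₁ := ⟨_, rfl⟩
  have mrest : ∀ ρ, ρ ∈ rest ↔ ρ < g ∧ ρ ≠ ρ₁ := by
    intro ρ
    rw [hrest]
    simp
  have nrest : rest.Nodup := by
    rw [hrest]
    exact List.nodup_range.filter _
  obtain ⟨Js', hJs'⟩ : ∃ Js' : ℕ → Finset ℕ, Js' = fun ρ => if ρ = ρ₁ then J₁ else Js ρ := ⟨_, rfl⟩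
  obtain ⟨Ls', hLs'⟩ : ∃ Ls' : ℕ → List ℕ, Ls' = fun ρ => if ρ = ρ₁ then L₁ else Ls ρ := ⟨_, rfl⟩
  have j1 : Js' ρ₁ = J₁ := by rw [hJs']; simp
  have j3 : ∀ ρ, ρ ≠ ρ₁ → Js' ρ = Js ρ := by
    intro ρ h
    rw [hJs']
    simp [h]
  have l1 : Ls' ρ₁ = L₁ := by rw [hLs']; simp
  have l3 : ∀ ρ, ρ ≠ ρ₁ → Ls' ρ = Ls ρ := by
    intro ρ h
    rw [hLs']
    simp [h]
  have hB' : ∀ ρ < g, BSub n m g c ρ (v ρ + if ρ = ρ₁ then 1 else 0)
      (v ρ + if ρ = ρ₁ then 1 else 0) (Js' ρ) (Ls' ρ) := by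
    intro ρ hρ
    by_cases h : ρ = ρ₁
    · subst h
      rw [j1, l1, if_pos rfl]
      exact hB1
    · rw [j3 ρ h, l3 ρ h, if_neg h]
      exact hB ρ hρ
  have hJsum := sum_ite_one g ρ₁ t v hρ₁ hv (fun ρ => (Js' ρ).card) fun ρ hρ => (hB' ρ hρ).1
  have hLsum := sum_ite_one g ρ₁ t v hρ₁ hv (fun ρ => (Ls' ρ).length) fun ρ hρ => (hB' ρ hρ).2.1
  have hndA : ([ρ₁] ++ rest).Nodup :=
    List.nodup_cons.2 ⟨fun h => ((mrest _).1 h).2 rfl, nrest⟩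
  have hmem : ∀ ρ, ρ ∈ [ρ₁] ++ rest ↔ ρ < g := by
    intro ρ
    rw [List.mem_append, List.mem_singleton, mrest]
    constructor
    · rintro (h | h)
      · rw [h]; exact hρ₁
      · exact h.1
    · intro h
      by_cases h1 : ρ = ρ₁
      · exact Or.inl h1
      · exact Or.inr ⟨h, h1⟩
  have hsub : Sub n m t (JG g c Js' ([ρ₁] ++ rest)) (LG g Ls' ([ρ₁] ++ rest)) :=
    sub_of hRA hc Js' Ls' _ hndA hmem hJsum hLsum (fun ρ hρ => (hB' ρ hρ).2.2.1)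
      (fun ρ hρ => (hB' ρ hρ).2.2.2.1) fun ρ hρ => (hB' ρ hρ).2.2.2.2
  have h0 := hpd _ _ hsub
  rw [JG_append, LG_append] at h0
  obtain ⟨a1, a2, a3, a4, a5, -, -⟩ := hRA g c u hc Js' Ls' [ρ₁] rest hndA
    fun ρ hρ => (hmem ρ).1 hρ
  obtain ⟨-, -, -, d4, d5, -, d7⟩ := hRA g c u hc Js' Ls' rest []
    (by simpa using nrest) fun ρ hρ => ((mrest ρ).1 (by simpa using hρ)).1
  have hcardA : (JG g c Js' [ρ₁]).card = (LG g Ls' [ρ₁]).length := by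
    rw [a4, a5]
    simp only [List.toFinset_cons, List.toFinset_nil, insert_empty_eq, Finset.sum_singleton]
    rw [(hB' ρ₁ hρ₁).1, (hB' ρ₁ hρ₁).2.1]
  have hcardr : (JG g c Js' rest).card = (LG g Ls' rest).length := by
    rw [d4, d5]
    refine Finset.sum_congr rfl fun ρ hρ => ?_
    obtain ⟨h1, h2⟩ := (mrest ρ).1 (List.mem_toFinset.1 hρ)
    rw [(hB' ρ h1).1, (hB' ρ h1).2.1]
  rw [hBC (cst g c u) y _ _ _ _ a3 a1 a2 hcardA hcardr] at h0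
  have hp : pm (cst g c u) (JG g c Js' [ρ₁]) (LG g Ls' [ρ₁]) = 0 := by
    rw [JG_single, LG_single, j1, l1, pm_block hBE hc hρ₁ u]
    exact hz
  rw [hp, zero_mul, add_zero] at h0
  have hW0 : pm (cst g c u) (JG g c Js' rest) (LG g Ls' rest) ≠ 0 := by
    rw [d7]
    refine Finset.prod_ne_zero_iff.2 fun ρ hρ => ?_
    obtain ⟨h1, h2⟩ := (mrest ρ).1 (List.mem_toFinset.1 hρ)
    rw [j3 ρ h2, l3 ρ h2]
    exact hnz ρ h1
  have h1 := (mul_eq_zero.1 h0).resolve_right hW0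
  rw [JG_single, LG_single, j1, l1, pd_block hBE hc hρ₁ u y] at h1
  exact h1

end Pool.Agent.N729.HP.RR
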