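import Pool.Agent.N729.HP.JA
import Pool.Agent.N729.HP.JB
import Pool.Agent.N729.HP.JC
import Pool.Agent.N729.HP.BA
import Pool.Agent.N729.HP.BC
import Pool.Agent.N729.HP.RA
import Pool.Agent.N729.HP.MM
import Pool.Agent.N729.HP.RR
import Pool.Agent.N729.HP.SL
import Pool.Agent.N729.HP.CX
import Pool.Agent.N729.HP.CN
import Pool.Agent.N729.HP.LX
import Pool.Agent.N729.HP.LN
import Pool.Agent.N729.HP.PX
import Pool.Agent.N729.HP.PN
import Pool.Agent.N729.HP.FA

/-!
Project HN: the parts put together.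
-/

set_option autoImplicit false

namespace Pool.Agent.N729.HP

open Pool.Agent.N186.HK (vm)
open Pool.Agent.R831.PermIdeal (permIdeal)

theorem jc (k : Type*) [Field k] : StmJC k := JC.t k (JA.t k) (JB.t k)

theorem sl (k : Type*) [Field k] : StmSL k := SL.t k (BA.ta k) (BA.tb k)

theorem bc (k : Type*) [Field k] : StmBC k := BC.tc k (BA.ta k) (BA.tb k)

theorem bd (k : Type*) [Field k] : StmBD k := BC.td k (BA.ta k) (BA.tb k)

theorem bf (k : Type*) [Field k] : StmBF k := BC.tf k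

theorem bt (k : Type*) [Field k] : StmBT k := BC.tt k

theorem ra (k : Type*) [Field k] : StmRA k := RA.t k (BA.ta k) (BA.tb k) (BA.te k)

theorem mm (k : Type*) [Field k] : StmMM k := MM.t k (BA.ta k) (BA.tb k) (BA.te k) (ra k)

theorem rr (k : Type*) [Field k] : StmRR k :=
  RR.tr k (BA.ta k) (BA.tb k) (bc k) (bd k) (BA.te k) (ra k)

theorem rc (k : Type*) [Field k] : StmRC k :=
  RR.tc k (BA.ta k) (BA.tb k) (bc k) (bd k) (BA.te k) (ra k)

theorem cx (k : Type*) [Field k] : StmCX k := CX.tx k (BA.ta k) (BA.tb k) (sl k)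

theorem cn (k : Type*) [Field k] : StmCN k := CN.t k (sl k) (cx k)

theorem ci (k : Type*) [Field k] : StmCI k := CX.ti k

theorem px (k : Type*) [Field k] : StmPX k :=
  PX.t k (BA.ta k) (bf k) (mm k) (rr k) (rc k) (cx k) (ci k)

theorem pn (k : Type*) [Field k] : StmPN k :=
  PN.t k (BA.ta k) (bf k) (mm k) (rr k) (rc k) (cn k) (ci k)

/-- `t < m ≤ n ≤ 2 t - 3` -/
theorem interior (k : Type*) [Field k] : StmFA k :=
  FA.t k (jc k) (LX.t k) (px k) (LN.t k) (pn k)

end Pool.Agent.N729.HP
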