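import Pool.Agent.N186.HK.Main

/-!
Project HN (MP_9bc296_ag): Hankel permanental ideals `P_t` are not prime if `t < min (m, n)`.
Definitions and statements of the parts.

Convention: `J` is a finite set of long indices (`< n`), `L` a list of short indices (`< m`),
`pm x J L` is the permanent of `x (j + c)`, `j ∈ J`, `c ∈ L` (file `N186/HK/Pm.lean`).
-/

set_option autoImplicit false

namespace Pool.Agent.N729.HP

open Finset
open Pool.Agent.N186.HK (pm vm IsHankel)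
open Pool.Agent.R831.PermIdeal (permIdeal)

/-- the derivative of `pm` at `x` in the direction `y` -/
def pd {D : Type*} [CommSemiring D] (x y : ℕ → D) : Finset ℕ → List ℕ → D
  | _, [] => 0
  | J, c :: L => ∑ j ∈ J, (y (j + c) * pm x (J.erase j) L + x (j + c) * pd x y (J.erase j) L)

/-- `J`, `L` are the long and the short indices of a `t × t` submatrix -/
def Sub (n m t : ℕ) (J : Finset ℕ) (L : List ℕ) : Prop :=
  J.card = t ∧ L.length = t ∧ L.Nodup ∧ (∀ j ∈ J, j < n) ∧ ∀ c ∈ L, c < m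

/-- the names of the variables in the Hankel matrix -/
def hk {N n m : ℕ} (h : N + 1 = n + m) (i : Fin n) (j : Fin m) : Fin N :=
  ⟨i.val + j.val, by omega⟩

/-! ### Part 1: the Jacobian criterion -/

/-- JA: general Jacobian criterion, upper bound for the transcendence degree. -/
def StmJA (k : Type*) [Field k] : Prop :=
  ∀ (N : ℕ) (P : Ideal (MvPolynomial (Fin N) k)), P.IsPrime → ∀ q : Fin N → k,
    (∀ f ∈ P, MvPolynomial.eval q f = 0) → ∀ S : Finset (Fin N),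
    (∀ y : Fin N → k, (∀ s ∈ S, y s = 0) →
      (∀ f ∈ P, ∑ v, MvPolynomial.eval q (MvPolynomial.pderiv v f) * y v = 0) → y = 0) →
    Algebra.trdeg k (MvPolynomial (Fin N) k ⧸ P) ≤ (S.card : Cardinal)

/-- JB: lower bound for the transcendence degree. -/
def StmJB (k : Type*) [Field k] : Prop :=
  ∀ (N n m t : ℕ) (h : N + 1 = n + m), 2 ≤ t → t ≤ n → t ≤ m →
    (permIdeal t (vm k (hk h))).IsPrime →
    (t : Cardinal) ≤ Algebra.trdeg k (MvPolynomial (Fin N) k ⧸ permIdeal t (vm k (hk h)))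

/-- JC: the criterion for Hankel matrices. -/
def StmJC (k : Type*) [Field k] : Prop :=
  ∀ (N n m t : ℕ) (h : N + 1 = n + m), 2 ≤ t → t ≤ n → t ≤ m → ∀ q : ℕ → k,
    (∀ J L, Sub n m t J L → pm q J L = 0) → ∀ S : Finset ℕ, S.card < t →
    (∀ y : ℕ → k, (∀ s ∈ S, y s = 0) → (∀ J L, Sub n m t J L → pd q y J L = 0) →
      ∀ v < N, y v = 0) →
    ¬ (permIdeal t (vm k (hk h))).IsPrime

/-! ### Part 2: permanents of block matrices -/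

/-- BA -/
def StmBA (D : Type*) [CommRing D] : Prop :=
  (∀ (x : ℕ → D) (L L' : List ℕ), L.Perm L' → ∀ J, pm x J L = pm x J L') ∧
  (∀ (x y : ℕ → D) (L L' : List ℕ), L.Perm L' → ∀ J, pd x y J L = pd x y J L') ∧
  (∀ (x : ℕ → D) (J : Finset ℕ) (L : List ℕ), J.card < L.length → pm x J L = 0)

/-- BB: the permanent of a block matrix -/
def StmBB (D : Type*) [CommRing D] : Prop :=
  ∀ (x : ℕ → D) (J₁ J₂ : Finset ℕ) (L₁ L₂ : List ℕ), Disjoint J₁ J₂ →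
    (∀ c ∈ L₁, ∀ j ∈ J₂, x (j + c) = 0) → (∀ c ∈ L₂, ∀ j ∈ J₁, x (j + c) = 0) →
    pm x (J₁ ∪ J₂) (L₁ ++ L₂) = pm x J₁ L₁ * pm x J₂ L₂

/-- BC: the derivative of the permanent of a block matrix, square blocks -/
def StmBC (D : Type*) [CommRing D] : Prop :=
  ∀ (x y : ℕ → D) (J₁ J₂ : Finset ℕ) (L₁ L₂ : List ℕ), Disjoint J₁ J₂ →
    (∀ c ∈ L₁, ∀ j ∈ J₂, x (j + c) = 0) → (∀ c ∈ L₂, ∀ j ∈ J₁, x (j + c) = 0) →
    J₁.card = L₁.length → J₂.card = L₂.length →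
    pd x y (J₁ ∪ J₂) (L₁ ++ L₂) = pd x y J₁ L₁ * pm x J₂ L₂ + pm x J₁ L₁ * pd x y J₂ L₂

/-- BD: the derivative of the permanent of a block matrix, one surplus row and one surplus column -/
def StmBD (D : Type*) [CommRing D] : Prop :=
  ∀ (x y : ℕ → D) (J₁ J₂ : Finset ℕ) (L₁ L₂ : List ℕ), Disjoint J₁ J₂ → L₁.Nodup →
    (∀ c ∈ L₁, ∀ j ∈ J₂, x (j + c) = 0) → (∀ c ∈ L₂, ∀ j ∈ J₁, x (j + c) = 0) →
    J₁.card + 1 = L₁.length → J₂.card = L₂.length + 1 →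
    pd x y (J₁ ∪ J₂) (L₁ ++ L₂) = ∑ c ∈ L₁.toFinset, ∑ j ∈ J₂,
      y (j + c) * pm x J₁ (L₁.erase c) * pm x (J₂.erase j) L₂

/-- BF: the derivative is the sum of the entries of `y` times the cofactors -/
def StmBF (D : Type*) [CommRing D] : Prop :=
  ∀ (x y : ℕ → D) (J : Finset ℕ) (L : List ℕ), L.Nodup →
    pd x y J L = ∑ c ∈ L.toFinset, ∑ j ∈ J, y (j + c) * pm x (J.erase j) (L.erase c)

/-- BT: the permanent of a block triangular matrix -/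
def StmBT (D : Type*) [CommRing D] : Prop :=
  ∀ (x : ℕ → D) (J₁ J₂ : Finset ℕ) (L₁ L₂ : List ℕ), Disjoint J₁ J₂ →
    (∀ c ∈ L₁, ∀ j ∈ J₂, x (j + c) = 0) → J₁.card = L₁.length →
    pm x (J₁ ∪ J₂) (L₁ ++ L₂) = pm x J₁ L₁ * pm x J₂ L₂

/-- SL: permanents of strips -/
def StmSL (D : Type*) [CommRing D] : Prop :=
  (∀ (x : ℕ → D) (J : Finset ℕ) (L : List ℕ), J.card ≤ L.length → ∀ j ∈ J,
    (∀ c ∈ L, x (j + c) = 0) → pm x J L = 0) ∧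
  (∀ (x : ℕ → D) (κ a b : ℕ), a ≤ b → b ≤ κ →
    (∀ j, κ ≤ j + b → j + a ≤ κ → ∀ c, a ≤ c → c < b →
      x (j + c) = if j + c + 1 = κ ∨ j + c = κ then 1 else 0) →
    ∀ z ∈ Icc (κ - b) (κ - a), pm x ((Icc (κ - b) (κ - a)).erase z) (List.range' a (b - a)) = 1) ∧
  (∀ (x : ℕ → D) (κ a b i : ℕ), a ≤ i → i < b → b ≤ κ →
    (∀ j, κ ≤ j + b → j + a ≤ κ → ∀ c, a ≤ c → c < b → c ≠ i →
      x (j + c) = if j + c + 1 = κ ∨ j + c = κ then 1 else 0) →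
    ∀ z ∈ Icc (κ - b) (κ - a), ∀ z' ∈ Icc (κ - b) (κ - a), z ≠ z' →
      pm x (((Icc (κ - b) (κ - a)).erase z).erase z')
        (List.range' a (i - a) ++ List.range' (i + 1) (b - 1 - i)) =
      if (z + i < κ ∧ κ ≤ z' + i) ∨ (z' + i < κ ∧ κ ≤ z + i) then 1 else 0)

/-- BE: reindexing of a block -/
def StmBE (D : Type*) [CommRing D] : Prop :=
  ∀ (x y : ℕ → D) (g ρ σ : ℕ), 0 < g → ∀ (J : Finset ℕ) (L : List ℕ),
    pm x (J.image fun l => σ + g * l) (L.map fun i => ρ + g * i) =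
      pm (fun s => x (ρ + σ + g * s)) J L ∧
    pd x y (J.image fun l => σ + g * l) (L.map fun i => ρ + g * i) =
      pd (fun s => x (ρ + σ + g * s)) (fun s => y (ρ + σ + g * s)) J L

/-! ### Part 3: the points: sequences with support in one class modulo `g` -/

/-- the sequence `q` with `q (c + g s) = u s`, zero outside of the class of `c` (`c < g`) -/
def cst {D : Type*} [Zero D] (g c : ℕ) (u : ℕ → D) (v : ℕ) : D :=
  if v % g = c then u (v / g) else 0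

/-- the class of the long indices which belongs to the class `ρ` of short indices -/
def cc (g c ρ : ℕ) : ℕ := if ρ ≤ c then c - ρ else c + g - ρ

/-- the shift of the block `ρ` -/
def sh (c ρ : ℕ) : ℕ := if ρ ≤ c then 0 else 1

/-- `J`, `L` are the indices of a `v × v` submatrix of the block `ρ` -/
def BSub (n m g c ρ v w : ℕ) (J : Finset ℕ) (L : List ℕ) : Prop :=
  J.card = v ∧ L.length = w ∧ L.Nodup ∧ (∀ l ∈ J, cc g c ρ + g * l < n) ∧ ∀ i ∈ L, ρ + g * i < m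

/-- the short indices of the blocks `ρ ∈ A` -/
def LG (g : ℕ) (Ls : ℕ → List ℕ) (A : List ℕ) : List ℕ :=
  A.flatMap fun ρ => (Ls ρ).map fun i => ρ + g * i

/-- the long indices of the blocks `ρ ∈ A` -/
def JG (g c : ℕ) (Js : ℕ → Finset ℕ) (A : List ℕ) : Finset ℕ :=
  A.toFinset.biUnion fun ρ => (Js ρ).image fun l => cc g c ρ + g * l

/-- RA: the submatrix which consists of submatrices of the blocks `ρ ∈ A` -/
def StmRA (D : Type*) [CommRing D] : Prop :=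
  ∀ (g c : ℕ) (u : ℕ → D), c < g → ∀ (Js : ℕ → Finset ℕ) (Ls : ℕ → List ℕ) (A B : List ℕ),
    (A ++ B).Nodup → (∀ ρ ∈ A ++ B, ρ < g) →
    (∀ c' ∈ LG g Ls A, ∀ j ∈ JG g c Js B, cst g c u (j + c') = 0) ∧
    (∀ c' ∈ LG g Ls B, ∀ j ∈ JG g c Js A, cst g c u (j + c') = 0) ∧
    Disjoint (JG g c Js A) (JG g c Js B) ∧
    (JG g c Js A).card = ∑ ρ ∈ A.toFinset, (Js ρ).card ∧
    (LG g Ls A).length = ∑ ρ ∈ A.toFinset, (Ls ρ).length ∧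
    ((∀ ρ ∈ A, (Ls ρ).Nodup) → (LG g Ls A).Nodup) ∧
    pm (cst g c u) (JG g c Js A) (LG g Ls A) =
      ∏ ρ ∈ A.toFinset, pm (fun s => u (s + sh c ρ)) (Js ρ) (Ls ρ)

/-- MM: membership -/
def StmMM (k : Type*) [Field k] : Prop :=
  ∀ (g c n m t : ℕ) (u : ℕ → k), c < g → ∀ v : ℕ → ℕ, ∑ ρ ∈ range g, v ρ + 1 = t →
    (∀ ρ < g, ∀ J L, BSub n m g c ρ (v ρ + 1) (v ρ + 1) J L →
      pm (fun s => u (s + sh c ρ)) J L = 0) →
    ∀ J L, Sub n m t J L → pm (cst g c u) J L = 0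

/-- RR: the linear relations between different blocks -/
def StmRR (k : Type*) [Field k] : Prop :=
  ∀ (g c n m t : ℕ) (u y : ℕ → k), c < g → ∀ v : ℕ → ℕ, ∑ ρ ∈ range g, v ρ + 1 = t →
    (∀ J L, Sub n m t J L → pd (cst g c u) y J L = 0) →
    ∀ (Js : ℕ → Finset ℕ) (Ls : ℕ → List ℕ),
    (∀ ρ < g, BSub n m g c ρ (v ρ) (v ρ) (Js ρ) (Ls ρ)) →
    (∀ ρ < g, pm (fun s => u (s + sh c ρ)) (Js ρ) (Ls ρ) ≠ 0) →
    ∀ ρ₁ < g, ∀ ρ₂ < g, ρ₁ ≠ ρ₂ → ∀ J₁ L₁ J₂ L₂,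
    BSub n m g c ρ₁ (v ρ₁) (v ρ₁ + 1) J₁ L₁ → BSub n m g c ρ₂ (v ρ₂ + 1) (v ρ₂) J₂ L₂ →
    ∑ i ∈ L₁.toFinset, ∑ l ∈ J₂, y (ρ₁ + g * i + (cc g c ρ₂ + g * l)) *
      pm (fun s => u (s + sh c ρ₁)) J₁ (L₁.erase i) *
      pm (fun s => u (s + sh c ρ₂)) (J₂.erase l) L₂ = 0

/-- RC: the linear relations inside of a block -/
def StmRC (k : Type*) [Field k] : Prop :=
  ∀ (g c n m t : ℕ) (u y : ℕ → k), c < g → ∀ v : ℕ → ℕ, ∑ ρ ∈ range g, v ρ + 1 = t →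
    (∀ J L, Sub n m t J L → pd (cst g c u) y J L = 0) →
    ∀ (Js : ℕ → Finset ℕ) (Ls : ℕ → List ℕ),
    (∀ ρ < g, BSub n m g c ρ (v ρ) (v ρ) (Js ρ) (Ls ρ)) →
    (∀ ρ < g, pm (fun s => u (s + sh c ρ)) (Js ρ) (Ls ρ) ≠ 0) →
    ∀ ρ₁ < g, ∀ J₁ L₁, BSub n m g c ρ₁ (v ρ₁ + 1) (v ρ₁ + 1) J₁ L₁ →
    pm (fun s => u (s + sh c ρ₁)) J₁ L₁ = 0 →
    pd (fun s => u (s + sh c ρ₁)) (fun s => y (c + g * (s + sh c ρ₁))) J₁ L₁ = 0

/-! ### Part 4: the two sequences `u` -/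

/-- for the first family -/
def uX (k : Type*) [Field k] (κ s : ℕ) : k :=
  if s = 0 then -1 else if s + 1 = κ then 1 else if s = κ then 1 else
    if s + 1 = 2 * κ then -1 else 0

/-- for the second family -/
def uN (k : Type*) [Field k] (κ s : ℕ) : k :=
  if s = 0 then 1 else if s = 1 then -1 else if s + 1 = κ then 1 else if s = κ then 1 else 0

/-- CX: permanents for `uX`, `κ ≥ 2` -/
def StmCX (k : Type*) [Field k] : Prop := ∀ κ : ℕ, 2 ≤ κ →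
  pm (uX k κ) (range κ) (List.range κ) = 0 ∧
  (∀ i < κ, ∀ l < κ, pm (uX k κ) ((range κ).erase l) ((List.range κ).erase i) =
    if i + l < κ then 1 else -1) ∧
  pm (fun s => uX k κ (s + 1)) (range κ) (List.range κ) = 0 ∧
  (∀ i < κ, ∀ l < κ, pm (fun s => uX k κ (s + 1)) ((range κ).erase l) ((List.range κ).erase i) =
    if i + l + 1 < κ then -1 else 1) ∧
  (∀ l < κ + 1, pm (uX k κ) ((range (κ + 1)).erase l) (List.range κ) =
    if l = 0 ∨ l = κ then 0 else 2) ∧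
  (∀ l < κ, pm (fun s => uX k κ (s + 1)) ((range κ).erase l) (List.range (κ - 1)) = 1)

/-- CN: permanents for `uN`, `κ ≥ 3` -/
def StmCN (k : Type*) [Field k] : Prop := ∀ κ : ℕ, 3 ≤ κ →
  pm (uN k κ) (range κ) (List.range κ) = 0 ∧
  (∀ i < κ, ∀ l < κ, pm (uN k κ) ((range κ).erase l) ((List.range κ).erase i) =
    if i + 1 = κ ∧ l + 1 = κ then 2 else if i + 1 = κ ∨ l + 1 = κ then 0 else
      if i + l < κ then 1 else -1) ∧
  pm (fun s => uN k κ (s + 1)) (range (κ - 1)) (List.range (κ - 1)) = 0 ∧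
  (∀ i < κ - 1, ∀ l < κ - 1,
    pm (fun s => uN k κ (s + 1)) ((range (κ - 1)).erase l) ((List.range (κ - 1)).erase i) =
    if i + l + 1 < κ then 1 else -1) ∧
  (∀ l < κ, pm (fun s => uN k κ (s + 1)) ((range κ).erase l) (List.range (κ - 1)) =
    if l + 1 = κ then 0 else 1)

/-- CI: the cofactor matrices are invertible -/
def StmCI (k : Type*) [Field k] : Prop := (2 : k) ≠ 0 → ∀ (κ : ℕ) (w : ℕ → k),
  ((∀ l < κ, ∑ i ∈ range κ, w i * (if i + l < κ then 1 else -1) = 0) → ∀ i < κ, w i = 0) ∧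
  ((∀ l < κ, ∑ i ∈ range κ, w i * (if i + l + 1 < κ then -1 else 1) = 0) → ∀ i < κ, w i = 0) ∧
  (3 ≤ κ → (∀ l < κ, ∑ i ∈ range κ, w i *
      (if i + 1 = κ ∧ l + 1 = κ then 2 else if i + 1 = κ ∨ l + 1 = κ then 0 else
        if i + l < κ then 1 else -1) = 0) → w 0 + w 1 = 0 ∧ ∀ i < κ, 2 ≤ i → w i = 0)

/-! ### Part 5: linear algebra for the first family -/

/-- the relations of the first family; `μ = ν + a + 1 ≤ g`, block size `κ` -/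
structure RelX {k : Type*} [Field k] (ν μ g κ : ℕ) (y : ℕ → k) : Prop where
  x0 : ∀ i < κ, ∀ σ < ν, ∑ l ∈ Ico 1 κ, y (g * i + (σ + g * l)) = 0
  z0 : ∀ i < κ, ∀ σ, ν ≤ σ → σ + 2 < μ → ∀ l < κ, y (g * i + (σ + g * l)) = 0
  y0 : ∀ i < κ, ∀ σ, μ ≤ σ + 1 → σ + 1 < g → ∑ l ∈ range κ, y (g * i + (σ + g * l)) = 0
  w0 : ∀ i < κ, ∀ l < κ, y (g * i + (g - 1 + g * l)) = 0
  x1 : ∀ i < κ, ∀ σ < ν, ∑ l ∈ Ico 1 κ, y (μ - 1 + g * i + (σ + g * l)) = 0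
  z1 : ∀ i < κ, ∀ σ, ν ≤ σ → σ + 1 < μ → ∀ l < κ, y (μ - 1 + g * i + (σ + g * l)) = 0
  y1 : ∀ i < κ, ∀ σ, μ ≤ σ + 1 → σ + 1 < g →
    ∑ l ∈ range κ, y (μ - 1 + g * i + (σ + g * l)) = 0
  cl : (∀ s, 1 ≤ s → s + 1 < 2 * κ → y (μ - 2 + g * s) = 0) →
    y (μ - 2) = 0 ∧ y (μ - 2 + g * (2 * κ - 1)) = 0

/-- LX -/
def StmLX (k : Type*) [Field k] : Prop :=
  ∀ a ν μ g κ : ℕ, 1 ≤ a → μ = ν + a + 1 → μ ≤ g → 2 ≤ κ →
    ∃ S : Finset ℕ, S.card < g * (κ - 1) + ν + 1 ∧ ∀ y : ℕ → k, (∀ s ∈ S, y s = 0) →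
      RelX ν μ g κ y → ∀ v, v + 1 < (g * (κ - 1) + μ) + (g * κ + ν) → y v = 0

/-- PX: the first family -/
def StmPX (k : Type*) [Field k] : Prop := (2 : k) ≠ 0 →
  ∀ a ν μ g κ : ℕ, 1 ≤ a → μ = ν + a + 1 → μ ≤ g → 2 ≤ κ →
    (∀ J L, Sub (g * κ + ν) (g * (κ - 1) + μ) (g * (κ - 1) + ν + 1) J L →
      pm (cst g (μ - 2) (uX k κ)) J L = 0) ∧
    ∀ y : ℕ → k, (∀ J L, Sub (g * κ + ν) (g * (κ - 1) + μ) (g * (κ - 1) + ν + 1) J L →
      pd (cst g (μ - 2) (uX k κ)) y J L = 0) → RelX ν μ g κ y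

/-! ### Part 6: linear algebra for the second family -/

/-- the relations of the second family; `1 ≤ μ ≤ a < g`, block size `κ ≥ 3` -/
structure RelN {k : Type*} [Field k] (a μ g κ : ℕ) (y : ℕ → k) : Prop where
  bb : ∀ σ, σ + 1 < μ → y σ + 2 * y (σ + g) + y (σ + g * 2) = 0
  bl : ∀ σ, σ + 1 < μ → ∀ l, 2 ≤ l → l < κ → y (σ + g * l) + y (σ + g * (l + 1)) = 0
  ll : ∀ σ, σ + 1 < μ → ∀ i, 2 ≤ i → i < κ → ∀ l, 2 ≤ l → l < κ → y (σ + g * (i + l)) = 0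
  bc : ∀ σ, μ ≤ σ → σ + a + 1 < g + μ →
    ∑ l ∈ range (κ - 1), (y (σ + g * l) + y (σ + g * (l + 1))) = 0
  lc : ∀ σ, μ ≤ σ → σ + a + 1 < g + μ → ∀ i, 2 ≤ i → i < κ →
    ∑ l ∈ range (κ - 1), y (σ + g * (i + l)) = 0
  bs : ∀ σ, g + μ ≤ σ + a + 1 → σ < g → ∀ l < κ - 1, y (σ + g * l) + y (σ + g * (l + 1)) = 0
  ls : ∀ σ, g + μ ≤ σ + a + 1 → σ < g → ∀ i, 2 ≤ i → i < κ → ∀ l < κ - 1,
    y (σ + g * (i + l)) = 0
  sb : ∀ i < κ - 1, ∀ σ < μ, y (a + g * i + σ) + y (a + g * i + (σ + g)) = 0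
  sl : ∀ i < κ - 1, ∀ σ < μ, ∀ l, 2 ≤ l → l < κ → y (a + g * i + (σ + g * l)) = 0
  sc : ∀ i < κ - 1, ∀ σ, μ ≤ σ → σ + a + 1 < g + μ →
    ∑ l ∈ range (κ - 1), y (a + g * i + (σ + g * l)) = 0
  ss : ∀ i < κ - 1, ∀ σ, g + μ ≤ σ + a → σ < g → ∀ l < κ - 1,
    y (a + g * i + (σ + g * l)) = 0
  cl : (∀ s, 2 ≤ s → s + 1 < 2 * κ → y (μ - 1 + g * s) = 0) →
    y (μ - 1) = 0 ∧ y (μ - 1 + g) = 0

/-- LN -/
def StmLN (k : Type*) [Field k] : Prop :=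
  ∀ a μ g κ t : ℕ, 1 ≤ μ → μ ≤ a → a < g → 3 ≤ κ → t + a = g * (κ - 1) + μ →
    ∃ S : Finset ℕ, S.card < t ∧ ∀ y : ℕ → k, (∀ s ∈ S, y s = 0) →
      RelN a μ g κ y → ∀ v, v + 2 + a < (g * (κ - 1) + μ) + (g * κ + μ) → y v = 0

/-- PN: the second family -/
def StmPN (k : Type*) [Field k] : Prop := (2 : k) ≠ 0 →
  ∀ a μ g κ t n : ℕ, 1 ≤ μ → μ ≤ a → a < g → 3 ≤ κ → t + a = g * (κ - 1) + μ →
    n + a + 1 = g * κ + μ →
    (∀ J L, Sub n (g * (κ - 1) + μ) t J L → pm (cst g (μ - 1) (uN k κ)) J L = 0) ∧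
    ∀ y : ℕ → k, (∀ J L, Sub n (g * (κ - 1) + μ) t J L →
      pd (cst g (μ - 1) (uN k κ)) y J L = 0) → RelN a μ g κ y

/-! ### Part 7: the result -/

/-- FA: `t < m ≤ n ≤ 2 t - 3` -/
def StmFA (k : Type*) [Field k] : Prop := (2 : k) ≠ 0 →
  ∀ (N n m t : ℕ) (h : N + 1 = n + m), t < m → m ≤ n → n + 3 ≤ 2 * t →
    ¬ (permIdeal t (vm k (hk h))).IsPrime

end Pool.Agent.N729.HP
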